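import Pool.Agent.W553.RCD.Space

/-!
# Statements of the independent pieces
-/

open MeasureTheory Set Filter Topology
open scoped ENNReal NNReal

namespace Pool.Agent.W553.RCD

/-- K1: Kantorovich duality with an optimal coupling and continuous potentials, for a continuous cost
on compact metric spaces. -/
def S_K1 : Prop :=
  ∀ (X : Type) [MetricSpace X] [CompactSpace X] [MeasurableSpace X] [BorelSpace X]
    (c : X × X → ℝ), Continuous c → ∀ (μ ν : Measure X), IsProbabilityMeasure μ →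
    IsProbabilityMeasure ν →
    ∃ q : Measure (X × X), q.map Prod.fst = μ ∧ q.map Prod.snd = ν ∧
      ∃ φ ψ : X → ℝ, Continuous φ ∧ Continuous ψ ∧ (∀ x y, φ x + ψ y ≤ c (x, y)) ∧
        ∀ᵐ p ∂q, φ p.1 + ψ p.2 = c p

/-- K2: second order differentiability (in the sense of Peano) at a point of density. -/
def S_K2 : Prop :=
  ∀ (E : Type) [NormedAddCommGroup E] [NormedSpace ℝ E] [FiniteDimensional ℝ E]
    (u : E → ℝ) (p : E → (E →L[ℝ] ℝ)) (Z U : Set E) (C : ℝ) (z : E), z ∈ Z → U ∈ 𝓝 z →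
    (∀ a ∈ Z ∩ U, ∀ w ∈ U, |u w - u a - p a (w - a)| ≤ C * ‖w - a‖ ^ 2) →
    (∀ ε > 0, ∀ᶠ w in 𝓝 z, ∃ a ∈ Z, ‖w - a‖ ≤ ε * ‖w - z‖) →
    ∀ A : E →L[ℝ] (E →L[ℝ] ℝ), HasFDerivAt p A z →
    (∀ h k, A h k = A k h) ∧
    ∀ h, Tendsto (fun r : ℝ => (u (z + r • h) - u z - r * p z h) / r ^ 2) (𝓝[≠] 0)
      (𝓝 (A h h / 2))

/-- `sin (t θ) / sin θ`, with value `t` at `θ = 0`. -/
noncomputable def sg (t θ : ℝ) : ℝ := if θ = 0 then t else Real.sin (t * θ) / Real.sin θ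

/-- K3: log-convexity of `κ ↦ sin (t √κ) / sin √κ`, in the form needed. -/
def S_K3 : Prop :=
  ∀ (t θ₁ θ₂ n : ℝ), 0 < t → t < 1 → 0 ≤ θ₁ → θ₁ < Real.pi → 0 ≤ θ₂ → θ₂ < Real.pi → 3 ≤ n →
    sg t (√((θ₁ ^ 2 + θ₂ ^ 2) / n)) ^ n ≤ sg t θ₁ * sg t θ₂ * t ^ (n - 2)

/-- K4: the boundary of `XX` is not empty. -/
def S_K4 : Prop := (Boundary XX 4).Nonempty

/-- K5: the Hausdorff measure of dimension four on `M` is a multiple of the cone measure. -/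
def S_K5 : Prop := ∃ c : ℝ≥0∞, c ≠ 0 ∧ c ≠ ∞ ∧ (μH[(4 : ℕ)] : Measure M) = c • m0

/-- K6: `XX` with its Hausdorff measure is infinitesimally Hilbertian. -/
def S_K6 : Prop := S_K5 → InfHilbertian (μH[(4 : ℕ)] : Measure XX)

/-- K7: pointwise determinant inequality. Here `j₀`, `j₁` are the Jacobian determinants at a point
`z` of the maps `z ↦ γ_z(0)`, `z ↦ γ_z(1)`, and `A` is the matrix of the second derivative. -/
def S_K7 : Prop :=
  ∀ (t θ₁ θ₂ N : ℝ) (A : Matrix (Fin 4) (Fin 4) ℝ), 0 < t → t < 1 → 0 ≤ θ₁ → θ₁ ≤ Real.pi →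
    0 ≤ θ₂ → θ₂ ≤ Real.pi → 4 ≤ N → A.IsSymm →
    ∀ (C₀ C₁ S₀ S₁ : Fin 4 → ℝ),
    C₀ = ![1, Real.cos (t * θ₁), 1, Real.cos (t * θ₂)] →
    C₁ = ![1, Real.cos ((1 - t) * θ₁), 1, Real.cos ((1 - t) * θ₂)] →
    S₀ = ![t, (if θ₁ = 0 then t else Real.sin (t * θ₁) / θ₁), t,
      (if θ₂ = 0 then t else Real.sin (t * θ₂) / θ₂)] →
    S₁ = ![1 - t, (if θ₁ = 0 then 1 - t else Real.sin ((1 - t) * θ₁) / θ₁), 1 - t,
      (if θ₂ = 0 then 1 - t else Real.sin ((1 - t) * θ₂) / θ₂)] →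
    (Matrix.diagonal (fun i => C₀ i / S₀ i) - A).PosSemidef →
    (Matrix.diagonal (fun i => C₁ i / S₁ i) + A).PosSemidef →
    -- conclusion, for the matrices `J₀ = C₀ - S₀ A`, `J₁ = C₁ + S₁ A`
    0 ≤ (Matrix.diagonal C₀ - Matrix.diagonal S₀ * A).det ∧
    0 ≤ (Matrix.diagonal C₁ + Matrix.diagonal S₁ * A).det ∧
    ((θ₁ = Real.pi ∨ θ₂ = Real.pi) →
      (Matrix.diagonal C₀ - Matrix.diagonal S₀ * A).det = 0 ∧
      (Matrix.diagonal C₁ + Matrix.diagonal S₁ * A).det = 0) ∧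
    (θ₁ < Real.pi → θ₂ < Real.pi →
      (1 - t) ^ (1 / N) * sg (1 - t) (√((θ₁ ^ 2 + θ₂ ^ 2) / (N - 1))) ^ (1 - 1 / N) *
          (Matrix.diagonal C₀ - Matrix.diagonal S₀ * A).det ^ (1 / N) +
        t ^ (1 / N) * sg t (√((θ₁ ^ 2 + θ₂ ^ 2) / (N - 1))) ^ (1 - 1 / N) *
          (Matrix.diagonal C₁ + Matrix.diagonal S₁ * A).det ^ (1 / N) ≤ 1)

/-- K8: the squared distance of the sphere is semiconcave (hinge comparison): for a minimizing
geodesic from `z` in the direction of the unit vector `e` to `x`, of length `α`, and for a point `w`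
at distance `η` from `z` in the direction of the unit vector `h`. -/
def S_K8 : Prop :=
  ∀ (z e h : E3) (α η : ℝ), ‖z‖ = 1 → ‖e‖ = 1 → inner ℝ z e = 0 → ‖h‖ = 1 → inner ℝ z h = 0 →
    0 ≤ α → α ≤ Real.pi → 0 ≤ η → η ≤ Real.pi →
    (ang (Real.cos α • z + Real.sin α • e) (Real.cos η • z + Real.sin η • h)) ^ 2 ≤
      α ^ 2 + η ^ 2 - 2 * α * η * inner ℝ e h

end Pool.Agent.W553.RCD
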