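import Pool.Agent.W553.RCD.Stmts

/-!
# Statements of the independent pieces, second part
-/

open MeasureTheory Set Filter Topology
open scoped ENNReal NNReal

namespace Pool.Agent.W553.RCD

/-- K9: second order expansion of half the squared angle. -/
def S_K9 : Prop :=
  ∀ (z e f : E3) (α a b : ℝ), Orthonormal ℝ ![z, e, f] → 0 ≤ α → α < Real.pi →
    Tendsto (fun r : ℝ =>
      ((ang (Real.cos α • z - Real.sin α • e) (z + r • (a • e + b • f))) ^ 2 / 2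
        - α ^ 2 / 2 - r * (α * a)) / r ^ 2) (𝓝[≠] 0)
      (𝓝 ((a ^ 2 + (if α = 0 then 1 else α * Real.cos α / Real.sin α) * b ^ 2) / 2))

/-- `sin (s ρ) / ρ`, with value `s` at `ρ = 0`. -/
noncomputable def sn (s ρ : ℝ) : ℝ := if ρ = 0 then s else Real.sin (s * ρ) / ρ

/-- The map `y ↦ exp_y (s W(y))`, extended from the product of the unit spheres by homogeneity. -/
noncomputable def Fmap (W : E3 × E3 → E3 × E3) (s : ℝ) (y : E3 × E3) : E3 × E3 :=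
  (Real.cos (s * ‖(W y).1‖) • y.1 + (sn s ‖(W y).1‖ * ‖y.1‖) • (W y).1,
   Real.cos (s * ‖(W y).2‖) • y.2 + (sn s ‖(W y).2‖ * ‖y.2‖) • (W y).2)

/-- The tangential frame of `E3 × E3`. -/
def frame (e₁ f₁ e₂ f₂ : E3) : Fin 4 → E3 × E3 := ![(e₁, 0), (f₁, 0), (0, e₂), (0, f₂)]

/-- The matrix of a linear map in a frame. -/
noncomputable def frameMatrix (B : E3 × E3 →L[ℝ] E3 × E3) (E : Fin 4 → E3 × E3) :
    Matrix (Fin 4) (Fin 4) ℝ :=
  Matrix.of fun i j => inner ℝ (B (E j)).1 (E i).1 + inner ℝ (B (E j)).2 (E i).2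

/-- K10: derivative and determinant of the exponential map along a vector field. -/
def S_K10 : Prop :=
  ∀ (W : E3 × E3 → E3 × E3) (s θ₁ θ₂ : ℝ) (z : M) (e₁ f₁ e₂ f₂ : E3)
    (B : E3 × E3 →L[ℝ] E3 × E3),
    (∀ y, inner ℝ (W y).1 y.1 = 0 ∧ inner ℝ (W y).2 y.2 = 0) →
    Orthonormal ℝ ![z.a, e₁, f₁] → Orthonormal ℝ ![z.b, e₂, f₂] → 0 ≤ θ₁ → 0 ≤ θ₂ →
    W z.toProd = (θ₁ • e₁, θ₂ • e₂) → HasFDerivAt W B z.toProd →
    ∃ D : E3 × E3 →L[ℝ] E3 × E3, HasFDerivAt (Fmap W s) D z.toProd ∧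
      |D.det| = |(Matrix.diagonal ![1, Real.cos (s * θ₁), 1, Real.cos (s * θ₂)] +
        Matrix.diagonal ![s, sn s θ₁, s, sn s θ₂] * frameMatrix B (frame e₁ f₁ e₂ f₂)).det|

/-- K11: area inequality for homogeneous maps that preserve the product of the unit spheres. -/
def S_K11 : Prop :=
  ∀ (F : E3 × E3 → E3 × E3) (K : Set M), IsCompact K →
    (∀ (y : E3 × E3) (r s : ℝ), 0 < r → 0 < s →
      F (r • y.1, s • y.2) = (r • (F y).1, s • (F y).2)) →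
    (∀ y, ‖(F y).1‖ = ‖y.1‖ ∧ ‖(F y).2‖ = ‖y.2‖) →
    (∀ z ∈ K, DifferentiableAt ℝ F z.toProd) →
    m0 ((fun z : M => prj (F z.toProd)) '' K) ≤
      ∫⁻ z in K, ENNReal.ofReal |(fderiv ℝ F z.toProd).det| ∂m0

/-- K12: almost every point of a closed set is a point of density of the cone over it and a point of
differentiability of a given Lipschitz function (extended by homogeneity). -/
def S_K12 : Prop :=
  ∀ (Z : Set M) (W : E3 × E3 → E3 × E3), IsClosed Z →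
    (∀ y : E3 × E3, y.1 ≠ 0 → y.2 ≠ 0 → W y = W (prj y).toProd) →
    (∃ L : ℝ, ∀ p q : M, ‖W p.toProd - W q.toProd‖ ≤ L * ‖p.toProd - q.toProd‖) →
    ∀ᵐ z ∂m0, z ∈ Z → DifferentiableAt ℝ W z.toProd ∧
      ∀ ε > 0, ∀ᶠ w in 𝓝 z.toProd, ∃ a : E3 × E3, a.1 ≠ 0 ∧ a.2 ≠ 0 ∧ prj a ∈ Z ∧
        ‖w - a‖ ≤ ε * ‖w - z.toProd‖

end Pool.Agent.W553.RCD
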