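import Pool.Agent.W553.RCD.Stmts2

/-!
# Statements of the independent pieces, third part
-/

open MeasureTheory Set Filter Topology
open scoped ENNReal NNReal

namespace Pool.Agent.W553.RCD

/-- K13: the exponential map along a Lipschitz vector field is Lipschitz. -/
def S_K13 : Prop :=
  ∀ (W : E3 × E3 → E3 × E3) (s : ℝ),
    (∃ L : ℝ, ∀ p q : M, ‖W p.toProd - W q.toProd‖ ≤ L * ‖p.toProd - q.toProd‖) →
    ∃ L : ℝ, ∀ p q : M,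
      ‖Fmap W s p.toProd - Fmap W s q.toProd‖ ≤ L * ‖p.toProd - q.toProd‖

/-- K14: the measure theoretic part of the curvature-dimension inequality. -/
def S_K14 : Prop :=
  ∀ (X : Type) [MetricSpace X] [CompactSpace X] [MeasurableSpace X] [BorelSpace X]
    (m μ₀ μ₁ : Measure X), IsFiniteMeasure m → IsProbabilityMeasure μ₀ → IsProbabilityMeasure μ₁ →
    μ₀ ≪ m → μ₁ ≪ m → ∀ (q : Measure (X × X)), IsCoupling μ₀ μ₁ q →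
    ∀ (G : X × X → X), Measurable G → ∀ (Z D : Set X), IsClosed Z → m (Z \ D) = 0 →
    ∀ (S₀ S₁ : X → X), ContinuousOn S₀ Z → ContinuousOn S₁ Z →
    (∀ᵐ p ∂q, G p ∈ Z ∧ S₀ (G p) = p.1 ∧ S₁ (G p) = p.2) →
    ∀ (j₀ j₁ : X → ℝ≥0∞), Measurable j₀ → Measurable j₁ → (∀ z, j₀ z ≠ ∞) → (∀ z, j₁ z ≠ ∞) →
    (∀ K ⊆ Z ∩ D, IsCompact K → m (S₀ '' K) ≤ ∫⁻ z in K, j₀ z ∂m) →
    (∀ K ⊆ Z ∩ D, IsCompact K → m (S₁ '' K) ≤ ∫⁻ z in K, j₁ z ∂m) →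
    (∀ K ⊆ Z, IsCompact K → m K = 0 → m (S₀ '' K) = 0) →
    -- absolute continuity of the intermediate measure
    q.map G ≪ m ∧
    -- the inequality, for all `N > 1` for which the pointwise inequality holds
    ∀ (T₀ T₁ : X × X → ℝ≥0∞) (N : ℝ), 1 < N →
      (∀ᵐ z ∂m, z ∈ Z → j₀ z ≠ 0 → j₁ z ≠ 0 →
        T₀ (S₀ z, S₁ z) * j₀ z ^ (1 / N) + T₁ (S₀ z, S₁ z) * j₁ z ^ (1 / N) ≤ 1) →
      ∫⁻ p, (T₀ p * (μ₀.rnDeriv m p.1) ^ (-(1 / N)) + T₁ p * (μ₁.rnDeriv m p.2) ^ (-(1 / N))) ∂q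
        ≤ ∫⁻ x, ((q.map G).rnDeriv m x) ^ (1 - 1 / N) ∂m

end Pool.Agent.W553.RCD
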