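import Pool.Agent.W553.RCD.Pt3
import Pool.Agent.W358.ExpLip
import Pool.Agent.W358.CDMeas
import Pool.Agent.W342.RCD.K11
import Pool.Agent.W342.RCD.K12
import Pool.Agent.W342.RCD.K6D
import Pool.Agent.W342.RCD.K5C

/-!
# Assembly of the curvature-dimension condition: the intermediate times
-/

set_option maxHeartbeats 400000

open MeasureTheory Set Filter Topology
open scoped ENNReal NNReal

namespace Pool.Agent.W553.RCD

/-- The Hausdorff measure of `M`. -/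
noncomputable abbrev mM : Measure M := μH[((4 : ℕ) : ℝ)]

/-- The Hausdorff measure of `XX`. -/
noncomputable abbrev mX : Measure XX := μH[((4 : ℕ) : ℝ)]

theorem iso_val : Isometry (Subtype.val : XX → M) := isometry_subtype_coe

theorem memb_val : MeasurableEmbedding (Subtype.val : XX → M) :=
  MeasurableEmbedding.subtype_coe XX.isClosed.measurableSet

theorem mX_image (s : Set XX) : mM (Subtype.val '' s) = mX s :=
  iso_val.hausdorffMeasure_image (Or.inl (by positivity)) s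

theorem mM_finite : mM univ < ∞ := W342.RCD.haus_fin

instance : IsFiniteMeasure mM := ⟨mM_finite⟩

instance : IsFiniteMeasure mX := ⟨by
  rw [← mX_image]
  exact (measure_mono (subset_univ _)).trans_lt mM_finite⟩

theorem lint_XX (K : Set XX) (g : M → ℝ≥0∞) :
    ∫⁻ z in Subtype.val '' K, g z ∂mM = ∫⁻ z in K, g z.1 ∂mX := by
  have h1 : Measure.map Subtype.val mX = mM.restrict (range (Subtype.val : XX → M)) :=
    iso_val.map_hausdorffMeasure (Or.inl (by positivity))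
  have h2 : (Measure.map Subtype.val mX).restrict (Subtype.val '' K) =
      mM.restrict (Subtype.val '' K) := by
    rw [h1, Measure.restrict_restrict_of_subset (image_subset_range _ _)]
  have h3 := memb_val.restrict_map mX (Subtype.val '' K)
  rw [preimage_image_eq _ Subtype.val_injective, h2] at h3
  rw [h3, memb_val.lintegral_map]

/-- The area inequality for the Hausdorff measure of `M`. -/
theorem area_M (F : E3 × E3 → E3 × E3) (K : Set M) (hK : IsCompact K)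
    (h1 : ∀ (y : E3 × E3) (r s : ℝ), 0 < r → 0 < s →
      F (r • y.1, s • y.2) = (r • (F y).1, s • (F y).2))
    (h2 : ∀ y, ‖(F y).1‖ = ‖y.1‖ ∧ ‖(F y).2‖ = ‖y.2‖)
    (h3 : ∀ z ∈ K, DifferentiableAt ℝ F z.toProd) :
    mM ((fun z : M => prj (F z.toProd)) '' K) ≤
      ∫⁻ z in K, ENNReal.ofReal |(fderiv ℝ F z.toProd).det| ∂mM := by
  obtain ⟨c, -, -, hc⟩ := W342.RCD.S_K5_holds
  have h := W342.RCD.S_K11_holds F K hK h1 h2 h3
  show (μH[((4 : ℕ) : ℝ)] : Measure M) _ ≤ _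
  rw [mM, hc, Measure.smul_apply, Measure.restrict_smul, lintegral_smul_measure]
  simp only [smul_eq_mul]
  gcongr

section Field
variable {W : E3 × E3 → E3 × E3} (hW0 : ∀ y, inner ℝ (W y).1 y.1 = 0 ∧ inner ℝ (W y).2 y.2 = 0)
  (hW1 : ∀ y, W y = W (prj y).toProd)

include hW1 in
theorem Fmap_homog (s : ℝ) (y : E3 × E3) (r r' : ℝ) (hr : 0 < r) (hr' : 0 < r') :
    Fmap W s (r • y.1, r' • y.2) = (r • (Fmap W s y).1, r' • (Fmap W s y).2) := by
  have h1 : W (r • y.1, r' • y.2) = W y := by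
    rw [hW1, hW1 y]
    congr 2
    apply M.ext
    · exact nrm_smul hr _
    · exact nrm_smul hr' _
  unfold Fmap
  rw [h1]
  simp only [norm_smul, Real.norm_eq_abs, abs_of_pos hr, abs_of_pos hr', smul_add, smul_smul]
  ext1
  · simp only
    congr 2 <;> ring
  · simp only
    congr 2 <;> ring

theorem rot_norm {v y : E3} (h : inner ℝ v y = 0) (s : ℝ) :
    ‖Real.cos (s * ‖v‖) • y + (sn s ‖v‖ * ‖y‖) • v‖ = ‖y‖ := by
  have key : sn s ‖v‖ * ‖v‖ = Real.sin (s * ‖v‖) := by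
    unfold sn
    by_cases h : ‖v‖ = 0
    · simp [h]
    · rw [if_neg h]; field_simp
  have h1 : ‖Real.cos (s * ‖v‖) • y + (sn s ‖v‖ * ‖y‖) • v‖ ^ 2 = ‖y‖ ^ 2 := by
    rw [norm_add_sq_real, inner_smul_left, inner_smul_right, real_inner_comm, h, norm_smul,
      norm_smul, Real.norm_eq_abs, Real.norm_eq_abs]
    have e1 : (|sn s ‖v‖ * ‖y‖| * ‖v‖) ^ 2 = ‖y‖ ^ 2 * Real.sin (s * ‖v‖) ^ 2 := by
      rw [mul_pow, sq_abs, ← key]; ring
    rw [e1, mul_pow, sq_abs]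
    have := Real.cos_sq_add_sin_sq (s * ‖v‖)
    simp only [conj_trivial]
    linear_combination (‖y‖ ^ 2) * this
  exact (sq_eq_sq₀ (norm_nonneg _) (norm_nonneg _)).1 h1

include hW0 in
theorem Fmap_norm (s : ℝ) (y : E3 × E3) :
    ‖(Fmap W s y).1‖ = ‖y.1‖ ∧ ‖(Fmap W s y).2‖ = ‖y.2‖ :=
  ⟨rot_norm (hW0 y).1 s, rot_norm (hW0 y).2 s⟩

include hW0 in
theorem prj_Fmap (s : ℝ) (z : M) : (prj (Fmap W s z.toProd)).toProd = Fmap W s z.toProd := by
  obtain ⟨h1, h2⟩ := Fmap_norm hW0 s z.toProd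
  have a1 : ‖z.toProd.1‖ = 1 := z.ha
  have a2 : ‖z.toProd.2‖ = 1 := z.hb
  rw [a1] at h1
  rw [a2] at h2
  ext1
  · exact nrm_of_norm_one h1
  · exact nrm_of_norm_one h2

include hW0 in
theorem prj_Fmap_lip (hL : ∃ L : ℝ, ∀ p q : M, ‖W p.toProd - W q.toProd‖ ≤ L * ‖p.toProd - q.toProd‖)
    (s : ℝ) : ∃ L : ℝ≥0, LipschitzWith L (fun z : M => prj (Fmap W s z.toProd)) := by
  obtain ⟨L, hL⟩ := W358.ExpLip.K13 W s hL
  refine ⟨Real.toNNReal (2 * (max L 0 * √3)), LipschitzWith.of_dist_le_mul fun p q => ?_⟩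
  rw [Real.coe_toNNReal _ (by positivity)]
  have h1 := M.dist_le (prj (Fmap W s p.toProd)) (prj (Fmap W s q.toProd))
  rw [prj_Fmap hW0, prj_Fmap hW0] at h1
  have h2 := hL p q
  have h3 := M.norm_sub_le p q
  have h4 : L * ‖p.toProd - q.toProd‖ ≤ max L 0 * (√3 * dist p q) := by
    calc L * ‖p.toProd - q.toProd‖ ≤ max L 0 * ‖p.toProd - q.toProd‖ := by
          gcongr; exact le_max_left _ _
      _ ≤ _ := by gcongr
  calc _ ≤ 2 * ‖Fmap W s p.toProd - Fmap W s q.toProd‖ := h1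
    _ ≤ 2 * (max L 0 * (√3 * dist p q)) := by linarith
    _ = _ := by ring

end Field

/-- The end point map on `XX`. -/
noncomputable def endp (W : E3 × E3 → E3 × E3) (s : ℝ) (z : XX) : XX :=
  open Classical in
  if h : 0 ≤ (prj (Fmap W s z.1.toProd)).a 2 then ⟨prj (Fmap W s z.1.toProd), h⟩ else z

theorem endp_of {W : E3 × E3 → E3 × E3} {s : ℝ} {z x : XX}
    (h : Fmap W s z.1.toProd = x.1.toProd) : endp W s z = x := by
  unfold endp
  have h1 : prj (Fmap W s z.1.toProd) = x.1 := by rw [h, prj_toProd]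
  rw [dif_pos (by rw [h1]; exact x.2)]
  exact Subtype.ext h1

section Main

variable {φ ψ : XX → ℝ} (hφ : Continuous φ) (hψ : Continuous ψ)
  (hφψ : ∀ x y : XX, φ x + ψ y ≤ cst x.1 y.1) {t : ℝ} (ht0 : 0 < t) (ht1 : t < 1)

/-- The Jacobian determinant. -/
noncomputable def jac (W : E3 × E3 → E3 × E3) (s : ℝ) (z : XX) : ℝ≥0∞ :=
  ENNReal.ofReal |(fderiv ℝ (Fmap W s) z.1.toProd).det|

theorem measurable_jac (W : E3 × E3 → E3 × E3) (s : ℝ) : Measurable (jac W s) := by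
  have h1 : Measurable (fun y : E3 × E3 => (fderiv ℝ (Fmap W s) y).det) :=
    ContinuousLinearMap.continuous_det.measurable.comp (measurable_fderiv ℝ (Fmap W s))
  have h2 : Measurable (fun z : XX => z.1.toProd) :=
    M.continuous_toProd.measurable.comp measurable_subtype_coe
  have h3 : Measurable (fun z : XX => (fderiv ℝ (Fmap W s) z.1.toProd).det) := h1.comp h2
  exact h3.abs.ennreal_ofReal

include hφ hψ hφψ ht0 ht1 in
/-- Absolute continuity of the intermediate measures and the inequality at the time `t`. -/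
theorem CD_interior {μ₀ μ₁ : Measure XX} [IsProbabilityMeasure μ₀] [IsProbabilityMeasure μ₁]
    (h0 : μ₀ ≪ mX) (h1 : μ₁ ≪ mX) {q : Measure (XX × XX)} (hq : IsCoupling μ₀ μ₁ q)
    (he : ∀ᵐ p ∂q, φ p.1 + ψ p.2 = cst p.1.1 p.2.1) :
    curve q t ≪ mX ∧ ∀ N : ℝ, 4 ≤ N →
      ∫⁻ p, (tau 3 N (1 - t) (dist p.1 p.2) * (μ₀.rnDeriv mX p.1) ^ (-(1 / N)) +
          tau 3 N t (dist p.1 p.2) * (μ₁.rnDeriv mX p.2) ^ (-(1 / N))) ∂q
        ≤ ∫⁻ x, ((curve q t).rnDeriv mX x) ^ (1 - 1 / N) ∂mX := by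
  obtain ⟨W, hW0, hW1, hWL, hW2⟩ := field_exists hφ hψ hφψ ht0 ht1
  -- good points
  have hK12 := W342.RCD.S_K12_holds (Zs φ ψ t) W (Zs_closed hφ hψ ht0 ht1)
    (fun y _ _ => hW1 y) hWL
  have hae := W342.RCD.ae_XX W342.RCD.S_K5_holds hK12
  set Z : Set XX := {z | z.1 ∈ Zs φ ψ t} with hZ
  set D : Set XX := {z | DifferentiableAt ℝ W z.1.toProd ∧
      ∀ ε > 0, ∀ᶠ w in 𝓝 z.1.toProd, ∃ a : E3 × E3, a.1 ≠ 0 ∧ a.2 ≠ 0 ∧ prj a ∈ Zs φ ψ t ∧
        ‖w - a‖ ≤ ε * ‖w - z.1.toProd‖} with hD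
  have hZc : IsClosed Z := (Zs_closed hφ hψ ht0 ht1).preimage continuous_subtype_val
  have hZD : mX (Z \ D) = 0 := by
    rw [ae_iff] at hae
    refine measure_mono_null ?_ hae
    rintro z ⟨hz1, hz2⟩ h3
    exact hz2 (h3 hz1)
  have hval : ∀ s, (s = -t ∨ s = 1 - t) → ∀ z ∈ Z,
      (endp W s z).1 = prj (Fmap W s z.1.toProd) := by
    intro s hs z hz
    obtain ⟨v, x, y, hDt⟩ := Data_exists hφ hψ hφψ ht0 ht1 hz
    obtain ⟨e1, e2⟩ := endpoints hW2 hDt
    rcases hs with rfl | rfl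
    · rw [endp_of e1, e1, prj_toProd]
    · rw [endp_of e2, e2, prj_toProd]
  have hlip : ∀ s, ∃ L : ℝ≥0, LipschitzWith L (fun z : M => prj (Fmap W s z.toProd)) :=
    fun s => prj_Fmap_lip hW0 hWL s
  have hcont : ∀ s, (s = -t ∨ s = 1 - t) → ContinuousOn (endp W s) Z := by
    intro s hs
    rw [Topology.IsInducing.subtypeVal.continuousOn_iff]
    obtain ⟨L, hL⟩ := hlip s
    refine ((hL.continuous.comp continuous_subtype_val).continuousOn (s := Z)).congr ?_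
    intro z hz
    exact hval s hs z hz
  have himg : ∀ s, (s = -t ∨ s = 1 - t) → ∀ K ⊆ Z, Subtype.val '' (endp W s '' K) =
      (fun z : M => prj (Fmap W s z.toProd)) '' (Subtype.val '' K) := by
    intro s hs K hK
    rw [image_image, image_image]
    exact image_congr fun z hz => hval s hs z (hK hz)
  have hdiff : ∀ s, (s = -t ∨ s = 1 - t) → ∀ z ∈ Z ∩ D, DifferentiableAt ℝ (Fmap W s) z.1.toProd := by
    rintro s hs z ⟨hz1, hz2, hz3⟩
    obtain ⟨v, x, y, hDt⟩ := Data_exists hφ hψ hφψ ht0 ht1 hz1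
    have := pointwise hφ hψ hφψ ht0 ht1 hW0 hW1 hW2 hDt hz2 hz3
    rcases hs with rfl | rfl
    · exact this.1
    · exact this.2.1
  have harea : ∀ s, (s = -t ∨ s = 1 - t) → ∀ K ⊆ Z ∩ D, IsCompact K →
      mX (endp W s '' K) ≤ ∫⁻ z in K, jac W s z ∂mX := by
    intro s hs K hK hKc
    have h2 := area_M (Fmap W s) (Subtype.val '' K) (hKc.image continuous_subtype_val)
      (fun y r r' hr hr' => Fmap_homog hW1 s y r r' hr hr') (Fmap_norm hW0 s)
      (by rintro _ ⟨z, hz, rfl⟩; exact hdiff s hs z (hK hz))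
    rw [lint_XX, ← himg s hs K (hK.trans inter_subset_left), mX_image] at h2
    exact h2
  have hnull : ∀ K ⊆ Z, IsCompact K → mX K = 0 → mX (endp W (-t) '' K) = 0 := by
    intro K hK _ hK0
    rw [← mX_image, himg (-t) (Or.inl rfl) K hK]
    obtain ⟨L, hL⟩ := hlip (-t)
    have h2 := (hL.lipschitzOnWith (s := Subtype.val '' K)).hausdorffMeasure_image_le
      (d := ((4 : ℕ) : ℝ)) (by positivity)
    have h3 : mM (Subtype.val '' K) = 0 := by rw [mX_image]; exact hK0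
    rw [h3, mul_zero] at h2
    exact le_antisymm h2 bot_le
  have hGae : ∀ᵐ p ∂q, Geo t p.1 p.2 ∈ Z ∧ endp W (-t) (Geo t p.1 p.2) = p.1 ∧
      endp W (1 - t) (Geo t p.1 p.2) = p.2 := by
    filter_upwards [he] with p hp
    obtain ⟨v, hDt⟩ := Data_Geo hφ hψ hφψ ht0 ht1 hp
    obtain ⟨e1, e2⟩ := endpoints hW2 hDt
    refine ⟨?_, endp_of e1, endp_of e2⟩
    obtain ⟨θ₁, θ₂, e₁, e₂, -, -, -, -, -, h⟩ := hDt
    exact h
  obtain ⟨r1, r2⟩ := W358.CDMeas.K14 XX mX μ₀ μ₁ inferInstance inferInstance inferInstance h0 h1 q hq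
    (fun p => Geo t p.1 p.2) (measurable_Geo t) Z D hZc hZD (endp W (-t)) (endp W (1 - t))
    (hcont _ (Or.inl rfl)) (hcont _ (Or.inr rfl)) hGae (jac W (-t)) (jac W (1 - t))
    (measurable_jac _ _) (measurable_jac _ _) (fun _ => ENNReal.ofReal_ne_top)
    (fun _ => ENNReal.ofReal_ne_top) (harea _ (Or.inl rfl)) (harea _ (Or.inr rfl)) hnull
  refine ⟨r1, fun N hN => ?_⟩
  refine r2 (fun p => tau 3 N (1 - t) (dist p.1 p.2)) (fun p => tau 3 N t (dist p.1 p.2)) N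
    (by linarith) ?_
  have hZD' : ∀ᵐ z ∂mX, z ∈ Z → z ∈ D := by
    rw [ae_iff]
    refine measure_mono_null ?_ hZD
    intro z hz
    simp only [mem_setOf_eq, Classical.not_imp] at hz
    exact hz
  filter_upwards [hZD'] with z hz hz1 hj0 _
  obtain ⟨hz2, hz3⟩ := hz hz1
  obtain ⟨v, x, y, hDt⟩ := Data_exists hφ hψ hφψ ht0 ht1 hz1
  obtain ⟨e1, e2⟩ := endpoints hW2 hDt
  have hpt := (pointwise hφ hψ hφψ ht0 ht1 hW0 hW1 hW2 hDt hz2 hz3).2.2 N hN
  rw [endp_of e1, endp_of e2]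
  refine hpt ?_
  intro h
  apply hj0
  rw [jac, h]
  simp

end Main

end Pool.Agent.W553.RCD
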