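import Pool.Agent.W553.RCD.CDA
import Pool.Agent.W358.Kant

/-!
# The curvature-dimension condition for `XX`
-/

set_option maxHeartbeats 400000

open MeasureTheory Set Filter Topology
open scoped ENNReal NNReal

namespace Pool.Agent.W553.RCD

theorem edist_sq_le (x y : XX) : edist x y ^ 2 ≤ 9 := by
  rw [edist_dist, Subtype.dist_eq]
  have h := dist_le_three x.1 y.1
  calc ENNReal.ofReal (dist x.1 y.1) ^ 2 ≤ ENNReal.ofReal 3 ^ 2 := by
        gcongr
    _ = 9 := by
        rw [← ENNReal.ofReal_pow (by norm_num)]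
        norm_num

theorem moment_finite (μ : Measure XX) [IsProbabilityMeasure μ] (x₀ : XX) :
    ∫⁻ x, edist x x₀ ^ 2 ∂μ < ∞ := by
  refine lt_of_le_of_lt (lintegral_mono fun x => edist_sq_le x x₀) ?_
  rw [lintegral_const, measure_univ, mul_one]
  exact ENNReal.ofNat_lt_top

theorem tau_one {x y : XX} {N : ℝ} (hN : 4 ≤ N) : tau 3 N 1 (dist x y) = 1 := by
  rw [tau_eq rfl rfl hN zero_le_one le_rfl]
  have h1 := ang_nonneg x.1.a y.1.a
  have h2 := ang_nonneg x.1.b y.1.b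
  have h1' := ang_le_pi x.1.a y.1.a
  have h2' := ang_le_pi x.1.b y.1.b
  have hN1 : 0 < N - 1 := by linarith
  have hpi := Real.pi_pos
  have hlt : ang x.1.a y.1.a ^ 2 + ang x.1.b y.1.b ^ 2 < (N - 1) * Real.pi ^ 2 := by
    have a1 : ang x.1.a y.1.a ^ 2 ≤ Real.pi ^ 2 := by gcongr
    have a2 : ang x.1.b y.1.b ^ 2 ≤ Real.pi ^ 2 := by gcongr
    nlinarith [sq_nonneg Real.pi, mul_nonneg (show (0 : ℝ) ≤ N - 4 by linarith) (sq_nonneg Real.pi),
      pow_pos hpi 2]
  have hsg : sg 1 (√((ang x.1.a y.1.a ^ 2 + ang x.1.b y.1.b ^ 2) / (N - 1))) = 1 := by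
    unfold sg
    split_ifs with h
    · rfl
    · rw [one_mul]
      refine div_self (Real.sin_pos_of_pos_of_lt_pi ?_ ?_).ne'
      · exact lt_of_le_of_ne (Real.sqrt_nonneg _) (Ne.symm h)
      · rw [Real.sqrt_lt' hpi, div_lt_iff₀ hN1]
        linarith
  rw [hsg, Real.one_rpow, Real.one_rpow, mul_one, ENNReal.ofReal_one]

theorem tau_zero {x y : XX} {N : ℝ} (hN : 4 ≤ N) : tau 3 N 0 (dist x y) = 0 := by
  rw [tau_eq rfl rfl hN le_rfl zero_le_one]
  have : (0 : ℝ) ^ (1 / N) = 0 := Real.zero_rpow (by positivity)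
  rw [this, zero_mul, ENNReal.ofReal_zero]

/-- The end point inequality. -/
theorem end_ineq {μ : Measure XX} [IsProbabilityMeasure μ] (h : μ ≪ mX) {N : ℝ} (hN : 4 ≤ N) :
    ∫⁻ x, (μ.rnDeriv mX x) ^ (-(1 / N)) ∂μ ≤ ∫⁻ x, (μ.rnDeriv mX x) ^ (1 - 1 / N) ∂mX := by
  have hm : Measurable (fun x => (μ.rnDeriv mX x) ^ (-(1 / N))) :=
    (Measure.measurable_rnDeriv μ mX).pow_const _
  rw [← lintegral_rnDeriv_mul h hm.aemeasurable]
  refine lintegral_mono fun x => ?_
  have h1 : 0 < 1 / N := by positivity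
  have h2 : 0 < 1 - 1 / N := by
    have : 1 / N < 1 := by rw [div_lt_one (by linarith)]; linarith
    linarith
  simp only
  rcases eq_or_ne (μ.rnDeriv mX x) 0 with h0 | h0
  · rw [h0, zero_mul]; exact bot_le
  rcases eq_or_ne (μ.rnDeriv mX x) ∞ with h3 | h3
  · rw [h3, ENNReal.top_rpow_of_pos h2]; exact le_top
  · have : (1 - 1 / N : ℝ) = 1 + -(1 / N) := by ring
    rw [this, ENNReal.rpow_add _ _ h0 h3, ENNReal.rpow_one]

/-- The curvature-dimension condition. -/
theorem CD_XX : CD mX 3 4 := by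
  rintro μ₀ μ₁ ⟨hp₀, h0, -⟩ ⟨hp₁, h1, -⟩
  obtain ⟨q, hq1, hq2, φ, ψ, hφ, hψ, hφψ, he⟩ :=
    W358.Kant.K1 XX (fun p => cst p.1.1 p.2.1) continuous_cst_XX μ₀ μ₁ hp₀ hp₁
  have hq : IsCoupling μ₀ μ₁ q := ⟨hq1, hq2⟩
  have hφψ' : ∀ x y : XX, φ x + ψ y ≤ cst x.1 y.1 := hφψ
  have he' : ∀ᵐ p ∂q, φ p.1 + ψ p.2 = cst p.1.1 p.2.1 := he
  have hqp : IsProbabilityMeasure q := by
    have h1 : IsProbabilityMeasure (q.map Prod.fst) := by rw [hq.1]; infer_instance
    exact (Measure.isProbabilityMeasure_map_iff measurable_fst.aemeasurable).1 h1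
  have hp : ∀ t, IsProbabilityMeasure (curve q t) := fun t => curve_prob t
  have hint : ∀ t : ℝ, 0 < t → t < 1 → _ := fun t ht0 ht1 =>
    CD_interior hφ hψ hφψ' ht0 ht1 h0 h1 hq he'
  refine ⟨q, curve q, optimal_of_dual hq φ ψ hφ hψ hφψ' he', curve_zero hq, curve_one hq,
    ⟨?_, curve_W2 hq φ ψ hφ hψ hφψ' he'⟩, ?_⟩
  · rintro t ⟨ht0, ht1⟩
    refine ⟨hp t, ?_, moment_finite _⟩
    rcases eq_or_lt_of_le ht0 with h | h
    · rw [← h, curve_zero hq]; exact h0
    rcases eq_or_lt_of_le ht1 with h' | h'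
    · rw [h', curve_one hq]; exact h1
    exact (hint t h h').1
  · rintro t ⟨ht0, ht1⟩ N hN
    rcases eq_or_lt_of_le ht0 with h | h
    · rw [← h, curve_zero hq]
      simp only [sub_zero, tau_one hN, tau_zero hN, one_mul, zero_mul, add_zero]
      have hm : Measurable (fun x => (μ₀.rnDeriv mX x) ^ (-(1 / N))) :=
        (Measure.measurable_rnDeriv μ₀ mX).pow_const _
      have := lintegral_map (μ := q) hm measurable_fst
      rw [hq1] at this
      rw [← this]
      exact end_ineq h0 hN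
    rcases eq_or_lt_of_le ht1 with h' | h'
    · rw [h', curve_one hq]
      simp only [sub_self, tau_one hN, tau_zero hN, one_mul, zero_mul, zero_add]
      have hm : Measurable (fun x => (μ₁.rnDeriv mX x) ^ (-(1 / N))) :=
        (Measure.measurable_rnDeriv μ₁ mX).pow_const _
      have := lintegral_map (μ := q) hm measurable_snd
      rw [hq2] at this
      rw [← this]
      exact end_ineq h1 hN
    exact (hint t h h').2 N hN

end Pool.Agent.W553.RCD
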