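import Mathlib

/-!
# Noncollapsed RCD(K,N) spaces, their boundary and their radius

General definitions (for an arbitrary metric measure space) in the form of Lott-Sturm-Villani,
Ambrosio-Gigli-Savare and De Philippis-Gigli.
-/

open MeasureTheory Set Filter Topology
open scoped ENNReal NNReal

namespace Pool.Agent.W553.RCD

section Transport

variable {X : Type*} [MetricSpace X] [MeasurableSpace X]

/-- `q` is a coupling of the measures `μ` and `ν`: its marginals are `μ` and `ν`. -/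
def IsCoupling (μ ν : Measure X) (q : Measure (X × X)) : Prop :=
  q.map Prod.fst = μ ∧ q.map Prod.snd = ν

/-- The quadratic transport cost `∫ d(x,y)² dq(x,y)`. -/
noncomputable def cost (q : Measure (X × X)) : ℝ≥0∞ := ∫⁻ p, edist p.1 p.2 ^ 2 ∂q

/-- The Wasserstein distance `W₂(μ,ν)`: the square root of the least cost of a coupling. -/
noncomputable def W2 (μ ν : Measure X) : ℝ≥0∞ :=
  (⨅ (q : Measure (X × X)) (_ : IsCoupling μ ν q), cost q) ^ (1 / 2 : ℝ)

/-- `q` is an optimal coupling of `μ` and `ν`. -/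
def IsOptimal (μ ν : Measure X) (q : Measure (X × X)) : Prop :=
  IsCoupling μ ν q ∧ ∀ q' : Measure (X × X), IsCoupling μ ν q' → cost q ≤ cost q'

/-- The class `P₂(X,d,m)`: probability measures with finite second moment that are absolutely
continuous with respect to `m`. -/
def MemP2 (m μ : Measure X) : Prop :=
  IsProbabilityMeasure μ ∧ μ ≪ m ∧ ∀ x₀ : X, ∫⁻ x, edist x x₀ ^ 2 ∂μ < ∞

/-- `μ : [0,1] → P₂(X,d,m)` is a (constant speed, minimizing) geodesic for `W₂`. -/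
def IsW2Geodesic (m : Measure X) (μ : ℝ → Measure X) : Prop :=
  (∀ t ∈ Icc (0 : ℝ) 1, MemP2 m (μ t)) ∧
  ∀ s ∈ Icc (0 : ℝ) 1, ∀ t ∈ Icc (0 : ℝ) 1,
    W2 (μ s) (μ t) = ENNReal.ofReal |t - s| * W2 (μ 0) (μ 1)

/-- The coefficient `σ^{(t)}_{K,N}(θ)` for `N > 0`, with value `∞` if `K θ² ≥ N π²`. -/
noncomputable def sigma (K N t θ : ℝ) : ℝ≥0∞ :=
  if N * Real.pi ^ 2 ≤ K * θ ^ 2 then ∞
  else if 0 < K * θ ^ 2 then
    ENNReal.ofReal (Real.sin (t * θ * √(K / N)) / Real.sin (θ * √(K / N)))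
  else if K * θ ^ 2 = 0 then ENNReal.ofReal t
  else ENNReal.ofReal (Real.sinh (t * θ * √(-K / N)) / Real.sinh (θ * √(-K / N)))

/-- The distortion coefficient `τ^{(t)}_{K,N}(θ) = t^{1/N} σ^{(t)}_{K,N-1}(θ)^{1-1/N}`, `N > 1`. -/
noncomputable def tau (K N t θ : ℝ) : ℝ≥0∞ :=
  ENNReal.ofReal t ^ (1 / N) * sigma K (N - 1) t θ ^ (1 - 1 / N)

/-- The curvature-dimension condition `CD(K,N)` of Lott-Sturm-Villani (Sturm's form), `N > 1`: any
two measures `μ₀ = ρ₀ m`, `μ₁ = ρ₁ m` of `P₂(X,d,m)` have an optimal coupling `q` and are joined by a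
geodesic `μ_t = ρ_t m` of `P₂(X,d,m)` such that, for all `t ∈ [0,1]` and all `N' ≥ N`,
`∫ ρ_t^{1-1/N'} dm ≥ ∫ [τ^{(1-t)}_{K,N'}(d(x,y)) ρ₀(x)^{-1/N'} + τ^{(t)}_{K,N'}(d(x,y)) ρ₁(y)^{-1/N'}] dq`. -/
def CD (m : Measure X) (K N : ℝ) : Prop :=
  ∀ μ₀ μ₁ : Measure X, MemP2 m μ₀ → MemP2 m μ₁ →
    ∃ (q : Measure (X × X)) (μ : ℝ → Measure X),
      IsOptimal μ₀ μ₁ q ∧ μ 0 = μ₀ ∧ μ 1 = μ₁ ∧ IsW2Geodesic m μ ∧
      ∀ t ∈ Icc (0 : ℝ) 1, ∀ N' : ℝ, N ≤ N' →
        ∫⁻ p, (tau K N' (1 - t) (dist p.1 p.2) * (μ₀.rnDeriv m p.1) ^ (-(1 / N')) +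
            tau K N' t (dist p.1 p.2) * (μ₁.rnDeriv m p.2) ^ (-(1 / N'))) ∂q
          ≤ ∫⁻ x, ((μ t).rnDeriv m x) ^ (1 - 1 / N') ∂m

/-- The local Lipschitz constant (slope) `limsup_{y → x} |f y - f x| / d(y,x)`; it is `0` at isolated
points. -/
noncomputable def slope (f : X → ℝ) (x : X) : ℝ≥0∞ :=
  limsup (fun y => ENNReal.ofReal |f y - f x| / edist y x) (𝓝[≠] x)

/-- The Cheeger energy: the `L²`-relaxation of `f ↦ ½ ∫ (slope f)² dm` on Lipschitz functions. -/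
noncomputable def Cheeger (m : Measure X) (f : X → ℝ) : ℝ≥0∞ :=
  ⨅ (g : ℕ → X → ℝ) (_ : ∀ n, (∃ L : ℝ≥0, LipschitzWith L (g n)) ∧ MemLp (g n) 2 m)
    (_ : Tendsto (fun n => eLpNorm (g n - f) 2 m) atTop (𝓝 0)),
    liminf (fun n => (1 / 2) * ∫⁻ x, slope (g n) x ^ 2 ∂m) atTop

/-- Infinitesimally Hilbertian: the Cheeger energy is a quadratic form on `L²(m)`. -/
def InfHilbertian (m : Measure X) : Prop :=
  ∀ f g : X → ℝ, MemLp f 2 m → MemLp g 2 m →
    Cheeger m (f + g) + Cheeger m (f - g) = 2 * Cheeger m f + 2 * Cheeger m g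

/-- The space `(X,d,m)` is an `RCD(K,N)` space, `N > 1`: complete, separable, geodesic, with a
measure that is finite on bounded sets and of full support; it satisfies `CD(K,N)` and is
infinitesimally Hilbertian. -/
def IsRCD (m : Measure X) (K N : ℝ) : Prop :=
  CompleteSpace X ∧ TopologicalSpace.SeparableSpace X ∧
  (∀ x y : X, ∃ γ : ℝ → X, γ 0 = x ∧ γ 1 = y ∧
    ∀ s ∈ Icc (0 : ℝ) 1, ∀ t ∈ Icc (0 : ℝ) 1, dist (γ s) (γ t) = |t - s| * dist x y) ∧
  (∀ (x : X) (r : ℝ), m (Metric.ball x r) < ∞) ∧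
  (∀ (x : X) (r : ℝ), 0 < r → 0 < m (Metric.ball x r)) ∧
  CD m K N ∧ InfHilbertian m

/-- `(X,d)` is a noncollapsed `RCD(K,N)` space: the measure is the `N`-dimensional Hausdorff
measure. -/
def IsNoncollapsedRCD (X : Type*) [MetricSpace X] [MeasurableSpace X] [BorelSpace X]
    (K : ℝ) (N : ℕ) : Prop :=
  IsRCD (μH[(N : ℝ)] : Measure X) K N

end Transport

section Boundary

/-- `(Y,y)` is a tangent cone of `X` at `x`: for some sequence of scales `r_n → 0` the rescaled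
pointed spaces `(X, d / r_n, x)` converge to `(Y,y)` in the pointed Gromov-Hausdorff sense, that is,
for all `R, ε > 0` and all large `n` there is a map `f` from the rescaled ball of radius `R` about
`x` to `Y` with `f x = y`, distortion `< ε`, and the `ε`-neighbourhood of its image contains the ball
of radius `R - ε` about `y`. -/
def IsTangentCone {X : Type*} [MetricSpace X] (x : X) (Y : Type) [MetricSpace Y] (y : Y) : Prop :=
  CompleteSpace Y ∧ ∃ r : ℕ → ℝ, (∀ n, 0 < r n) ∧ Tendsto r atTop (𝓝 0) ∧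
    ∀ R > 0, ∀ ε > 0, ∀ᶠ n in atTop, ∃ f : X → Y, f x = y ∧
      (∀ a b : X, dist a x < R * r n → dist b x < R * r n →
        |dist (f a) (f b) - dist a b / r n| < ε) ∧
      ∀ z : Y, dist z y < R - ε → ∃ a : X, dist a x < R * r n ∧ dist (f a) z < ε

/-- `Y` splits off a factor `ℝᵏ` isometrically: `Y` is isometric to `ℝᵏ × Z` with the product
distance `√(d₁² + d₂²)`, for some metric space `Z`. -/
def SplitsOff (Y : Type) [MetricSpace Y] (k : ℕ) : Prop :=
  ∃ (Z : Type) (_ : MetricSpace Z), Nonempty (Y ≃ᵢ WithLp 2 (EuclideanSpace ℝ (Fin k) × Z))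

/-- The stratum `𝒮^{k-1}`: the points at which no tangent cone splits off a factor `ℝᵏ`. -/
def Stratum (X : Type*) [MetricSpace X] (k : ℕ) : Set X :=
  {x | ∀ (Y : Type) (_ : MetricSpace Y) (y : Y), IsTangentCone x Y y → ¬ SplitsOff Y k}

/-- The boundary of a noncollapsed `RCD(K,N)` space, `N ≥ 1`: the closure of
`𝒮^{N-1} ∖ 𝒮^{N-2}`. -/
def Boundary (X : Type*) [MetricSpace X] (N : ℕ) : Set X :=
  closure (Stratum X N \ Stratum X (N - 1))

/-- The radius `inf_p sup_x d(p,x)` of a metric space. -/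
noncomputable def radius (X : Type*) [MetricSpace X] : ℝ≥0∞ := ⨅ p : X, ⨆ x : X, edist p x

end Boundary

end Pool.Agent.W553.RCD
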