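import Pool.Agent.W553.RCD.CDB
import Pool.Agent.W342.RCD.K4C

/-!
# The half product of spheres is a noncollapsed RCD(3,4) space with boundary and large radius
-/

set_option maxHeartbeats 400000

open MeasureTheory Set Filter Topology
open scoped ENNReal NNReal

namespace Pool.Agent.W553.RCD

theorem mM_ball_pos (p : M) {r : ℝ} (hr : 0 < r) : 0 < mM (Metric.ball p r) := by
  obtain ⟨c, hc0, -, hc⟩ := W342.RCD.S_K5_holds
  rw [mM, hc, Measure.smul_apply, smul_eq_mul]
  exact ENNReal.mul_pos hc0 (W342.RCD.m0_ball_ne r hr p)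

/-- Points of the interior are dense in `XX`. -/
theorem interior_near (x : XX) {r : ℝ} (hr : 0 < r) : ∃ y : M, 0 < y.a 2 ∧ dist y x.1 < r := by
  set ε := min (1 / 4) (r / 32) with hε
  have hε0 : 0 < ε := by positivity
  have hε1 : ε ≤ 1 / 4 := min_le_left _ _
  have hε2 : ε ≤ r / 32 := min_le_right _ _
  set w : E3 := x.1.a + ε • EuclideanSpace.single 2 1 with hw
  have hn : ‖(EuclideanSpace.single 2 1 : E3)‖ = 1 := by simp
  have hwx : ‖w - x.1.a‖ = ε := by
    rw [hw, add_sub_cancel_left, norm_smul, hn, mul_one, Real.norm_eq_abs, abs_of_pos hε0]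
  have hw0 : w ≠ 0 := by
    intro h0
    rw [h0, zero_sub, norm_neg, x.1.ha] at hwx
    linarith
  refine ⟨⟨nrm w, x.1.b, norm_nrm w, x.1.hb⟩, ?_, ?_⟩
  · have h1 : w 2 = x.1.a 2 + ε := by simp [hw]
    show 0 < (nrm w) 2
    rw [nrm_eq hw0]
    have h2 : (‖w‖⁻¹ • w) 2 = ‖w‖⁻¹ * w 2 := rfl
    rw [h2, h1]
    have h3 : 0 < ‖w‖ := norm_pos_iff.2 hw0
    have h4 := x.2
    positivity
  · refine (M.dist_le _ _).trans_lt ?_
    have h1 : ‖nrm w - nrm x.1.a‖ ≤ 4 * ‖w - x.1.a‖ := nrm_lip (by rw [x.1.ha]; norm_num) hw0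
    rw [nrm_of_norm_one x.1.ha, hwx] at h1
    have h2 : ‖M.toProd ⟨nrm w, x.1.b, norm_nrm w, x.1.hb⟩ - x.1.toProd‖ ≤ 4 * ε := by
      rw [Prod.norm_def]
      refine max_le h1 ?_
      show ‖x.1.b - x.1.b‖ ≤ _
      rw [sub_self, norm_zero]
      positivity
    linarith

theorem mX_ball_pos (x : XX) {r : ℝ} (hr : 0 < r) : 0 < mX (Metric.ball x r) := by
  obtain ⟨y, hy1, hy2⟩ := interior_near x (half_pos hr)
  have hopen : IsOpen {p : M | 0 < p.a 2} := by
    refine isOpen_lt continuous_const ?_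
    exact (by fun_prop : Continuous (fun x : E3 => x 2)).comp M.continuous_a
  obtain ⟨δ, hδ0, hδ⟩ := Metric.isOpen_iff.1 hopen y hy1
  have h1 : 0 < min δ (r / 2) := lt_min hδ0 (half_pos hr)
  refine (mM_ball_pos y h1).trans_le ?_
  rw [← mX_image]
  refine measure_mono ?_
  intro p hp
  have hp' : dist p y < min δ (r / 2) := hp
  have hp1 : 0 < p.a 2 := hδ (Metric.mem_ball.2 (hp'.trans_le (min_le_left _ _)))
  refine ⟨⟨p, hp1.le⟩, ?_, rfl⟩
  rw [Metric.mem_ball, Subtype.dist_eq]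
  have := dist_triangle p y x.1
  have h2 := hp'.trans_le (min_le_right _ _)
  show dist p x.1 < r
  linarith

theorem XX_isRCD : IsNoncollapsedRCD XX 3 4 := by
  have h4 : ((4 : ℕ) : ℝ) = 4 := by norm_num
  refine ⟨inferInstance, inferInstance, ?_, ?_, ?_, ?_, ?_⟩
  · intro x y
    exact ⟨fun t => Geo t x y, Geo_zero x y, Geo_one x y, fun s hs t ht => dist_Geo hs ht x y⟩
  · intro x r
    exact measure_lt_top mX _
  · intro x r hr
    exact mX_ball_pos x hr
  · have := CD_XX
    rw [mX] at this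
    rw [← h4] at this
    exact_mod_cast this
  · exact W342.RCD.S_K6_holds W342.RCD.S_K5_holds

theorem XX_radius : ENNReal.ofReal (Real.pi / 2) < radius XX := by
  have hpi := Real.pi_pos
  have h3 : (0 : ℝ) < √3 := by positivity
  have h32 : √3 < 2 := by
    rw [Real.sqrt_lt' (by norm_num)]; norm_num
  have h1 : ENNReal.ofReal (Real.pi / 2) < ENNReal.ofReal (Real.pi / √3) := by
    refine (ENNReal.ofReal_lt_ofReal_iff (by positivity)).2 ?_
    exact div_lt_div_of_pos_left hpi h3 h32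
  refine h1.trans_le ?_
  unfold radius
  refine le_iInf fun p => ?_
  let x : XX := ⟨⟨p.1.a, -p.1.b, p.1.ha, by rw [norm_neg]; exact p.1.hb⟩, p.2⟩
  refine le_trans ?_ (le_iSup (fun x : XX => edist p x) x)
  rw [edist_dist]
  refine ENNReal.ofReal_le_ofReal ?_
  rw [Subtype.dist_eq, M.dist_def]
  have e1 : ang p.1.b x.1.b = Real.pi := by
    show InnerProductGeometry.angle p.1.b (-p.1.b) = Real.pi
    refine InnerProductGeometry.angle_self_neg_of_nonzero ?_
    intro h
    have := p.1.hb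
    rw [h] at this
    simp at this
  rw [e1]
  refine div_le_div_of_nonneg_right ?_ h3.le
  refine Real.le_sqrt_of_sq_le ?_
  nlinarith [sq_nonneg (ang p.1.a x.1.a)]

end Pool.Agent.W553.RCD
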