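import Pool.Agent.W553.RCD.Zst

/-!
# The velocity field on the set of intermediate points is Lipschitz; its extension
-/

set_option maxHeartbeats 400000

open MeasureTheory Set Filter Topology
open scoped ENNReal NNReal

namespace Pool.Agent.W553.RCD

theorem nrm_eq {y : E3} (h : y ≠ 0) : nrm y = ‖y‖⁻¹ • y := by simp [nrm, h]

theorem eq_norm_smul_nrm (y : E3) : y = ‖y‖ • nrm y := by
  by_cases h : y = 0
  · simp [h]
  · rw [nrm_eq h, smul_smul, mul_inv_cancel₀ (norm_ne_zero_iff.2 h), one_smul]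

theorem nrm_nrm (y : E3) : nrm (nrm y) = nrm y := nrm_of_norm_one (norm_nrm y)

theorem prj_toProd (z : M) : prj z.toProd = z := by
  apply M.ext
  · exact nrm_of_norm_one z.ha
  · exact nrm_of_norm_one z.hb

/-- Normalisation is Lipschitz away from the origin. -/
theorem nrm_lip {a w : E3} (ha : 1 / 2 < ‖a‖) (hw : w ≠ 0) : ‖nrm w - nrm a‖ ≤ 4 * ‖w - a‖ := by
  have ha0 : a ≠ 0 := by
    rintro rfl; simp at ha; linarith
  have h1 : 0 < ‖a‖ := by linarith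
  have h2 : 0 < ‖w‖ := norm_pos_iff.2 hw
  have e1 : nrm w - nrm a = ‖a‖⁻¹ • (w - a) + (‖w‖⁻¹ - ‖a‖⁻¹) • w := by
    rw [nrm_eq hw, nrm_eq ha0, smul_sub, sub_smul]; abel
  have e2 : ‖(‖w‖⁻¹ - ‖a‖⁻¹) • w‖ = ‖a‖⁻¹ * |‖a‖ - ‖w‖| := by
    rw [norm_smul, Real.norm_eq_abs]
    have : ‖w‖⁻¹ - ‖a‖⁻¹ = (‖a‖ - ‖w‖) * (‖a‖⁻¹ * ‖w‖⁻¹) := by field_simp
    rw [this, abs_mul, abs_of_pos (by positivity : 0 < ‖a‖⁻¹ * ‖w‖⁻¹)]
    field_simp
  have e3 : |‖a‖ - ‖w‖| ≤ ‖w - a‖ := by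
    rw [abs_sub_comm]; exact abs_norm_sub_norm_le w a
  have e4 : ‖a‖⁻¹ ≤ 2 := by
    rw [inv_le_comm₀ h1 (by norm_num)]; linarith
  calc ‖nrm w - nrm a‖ ≤ ‖‖a‖⁻¹ • (w - a)‖ + ‖(‖w‖⁻¹ - ‖a‖⁻¹) • w‖ := by
        rw [e1]; exact norm_add_le _ _
    _ ≤ 2 * ‖w - a‖ + 2 * ‖w - a‖ := by
        rw [e2, norm_smul, norm_inv, norm_norm]
        have := norm_nonneg (w - a)
        gcongr
    _ = 4 * ‖w - a‖ := by ring

/-- Comparison of the linear terms in one factor. -/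
theorem linear_factor {z v a w : E3} (hv : inner ℝ v z = 0) (hv1 : ‖v‖ ≤ Real.pi)
    (ha : 1 / 2 < ‖a‖) (hw : 1 / 2 < ‖w‖) (hz : nrm a = z) :
    |inner ℝ v (nrm w - z) - inner ℝ (‖a‖⁻¹ • v) (w - a)| ≤ 13 * ‖w - a‖ ^ 2 := by
  have hw0 : w ≠ 0 := by rintro rfl; simp at hw; linarith
  have h1 : 0 < ‖a‖ := by linarith
  have h2 : 0 < ‖w‖ := by linarith
  have hva : inner ℝ v a = 0 := by
    rw [eq_norm_smul_nrm a, hz, inner_smul_right, hv, mul_zero]
  have e1 : inner ℝ v (nrm w - z) - inner ℝ (‖a‖⁻¹ • v) (w - a) =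
      (‖w‖⁻¹ - ‖a‖⁻¹) * inner ℝ v (w - a) := by
    rw [inner_sub_right, hv, inner_smul_left, inner_sub_right, hva, nrm_eq hw0, inner_smul_right]
    simp only [conj_trivial]
    ring
  have e2 : |‖w‖⁻¹ - ‖a‖⁻¹| ≤ 4 * ‖w - a‖ := by
    have : ‖w‖⁻¹ - ‖a‖⁻¹ = (‖a‖ - ‖w‖) * (‖a‖⁻¹ * ‖w‖⁻¹) := by field_simp
    rw [this, abs_mul, abs_of_pos (by positivity : 0 < ‖a‖⁻¹ * ‖w‖⁻¹), mul_comm]
    have e3 : |‖a‖ - ‖w‖| ≤ ‖w - a‖ := by
      rw [abs_sub_comm]; exact abs_norm_sub_norm_le w a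
    have e4 : ‖a‖⁻¹ ≤ 2 := by
      rw [inv_le_comm₀ h1 (by norm_num)]; linarith
    have e5 : ‖w‖⁻¹ ≤ 2 := by
      rw [inv_le_comm₀ h2 (by norm_num)]; linarith
    have e6 : ‖a‖⁻¹ * ‖w‖⁻¹ ≤ 2 * 2 := by gcongr
    calc ‖a‖⁻¹ * ‖w‖⁻¹ * |‖a‖ - ‖w‖| ≤ (2 * 2) * ‖w - a‖ := by gcongr
      _ = _ := by ring
  have e3 : |inner ℝ v (w - a)| ≤ 3.15 * ‖w - a‖ := by
    refine (abs_real_inner_le_norm v (w - a)).trans ?_
    have := Real.pi_lt_d2
    have h5 := norm_nonneg (w - a)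
    gcongr
    linarith
  rw [e1, abs_mul]
  calc |‖w‖⁻¹ - ‖a‖⁻¹| * |inner ℝ v (w - a)| ≤ (4 * ‖w - a‖) * (3.15 * ‖w - a‖) := by gcongr
    _ ≤ 13 * ‖w - a‖ ^ 2 := by nlinarith [sq_nonneg ‖w - a‖]

theorem Data_norm {φ ψ : XX → ℝ} {t : ℝ} {z : M} {v : E3 × E3} {x y : XX}
    (h : Data φ ψ t z v x y) : ‖v.1‖ ≤ Real.pi ∧ ‖v.2‖ ≤ Real.pi ∧ inner ℝ v.1 z.a = 0 ∧
      inner ℝ v.2 z.b = 0 := by
  obtain ⟨θ₁, θ₂, e₁, e₂, ⟨p1, p2, -, p4, p5, -, -⟩, ⟨q1, q2, -, q4, q5, -, -⟩, rfl, -, -, -⟩ := h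
  refine ⟨?_, ?_, ?_, ?_⟩
  · rw [norm_smul, p4, Real.norm_eq_abs, abs_of_nonneg p1]; linarith
  · rw [norm_smul, q4, Real.norm_eq_abs, abs_of_nonneg q1]; linarith
  · rw [inner_smul_left, real_inner_comm, p5, mul_zero]
  · rw [inner_smul_left, real_inner_comm, q5, mul_zero]

/-- The constant in the two-sided estimate in cone coordinates. -/
noncomputable def C3 (t : ℝ) : ℝ := 16 * (12 / t + 12 / (1 - t)) + 26

/-- The two-sided estimate in cone coordinates. -/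
theorem two_sided_cone {φ ψ : XX → ℝ} (hφ : Continuous φ) (hψ : Continuous ψ)
    (hφψ : ∀ x y : XX, φ x + ψ y ≤ cst x.1 y.1) {t : ℝ} (ht0 : 0 < t) (ht1 : t < 1)
    {z : M} {v : E3 × E3} {x y : XX} (h : Data φ ψ t z v x y) {a w : E3 × E3} (hz : prj a = z)
    (ha1 : 1 / 2 < ‖a.1‖) (ha2 : 1 / 2 < ‖a.2‖) (hw1 : 1 / 2 < ‖w.1‖) (hw2 : 1 / 2 < ‖w.2‖) :
    |Uf φ t (prj w) - Uf φ t (prj a) - ip (‖a.1‖⁻¹ • v.1, ‖a.2‖⁻¹ • v.2) (w - a)| ≤
      C3 t * ‖w - a‖ ^ 2 := by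
  obtain ⟨n1, n2, n3, n4⟩ := Data_norm h
  have h1 := two_sided hφ hψ hφψ ht0 ht1 h (prj w)
  have hw10 : w.1 ≠ 0 := by intro h0; rw [h0] at hw1; simp at hw1; linarith
  have hw20 : w.2 ≠ 0 := by intro h0; rw [h0] at hw2; simp at hw2; linarith
  have m1 : ‖(w - a).1‖ ≤ ‖w - a‖ := norm_fst_le _
  have m2 : ‖(w - a).2‖ ≤ ‖w - a‖ := norm_snd_le _
  have hza : nrm a.1 = z.a := by rw [← hz]; rfl
  have hzb : nrm a.2 = z.b := by rw [← hz]; rfl
  have d1 : ‖(prj w).toProd - z.toProd‖ ≤ 4 * ‖w - a‖ := by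
    rw [Prod.norm_def]
    refine max_le ?_ ?_
    · have := nrm_lip ha1 hw10
      rw [hza] at this
      exact this.trans (by simp only [Prod.fst_sub] at m1; linarith)
    · have := nrm_lip ha2 hw20
      rw [hzb] at this
      exact this.trans (by simp only [Prod.snd_sub] at m2; linarith)
  have l1 := linear_factor n3 n1 ha1 hw1 hza
  have l2 := linear_factor n4 n2 ha2 hw2 hzb
  have hC : 0 ≤ 12 / t + 12 / (1 - t) := by
    have : 0 < 1 - t := by linarith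
    positivity
  have e1 : (12 / t + 12 / (1 - t)) * ‖(prj w).toProd - z.toProd‖ ^ 2 ≤
      16 * (12 / t + 12 / (1 - t)) * ‖w - a‖ ^ 2 := by
    have : ‖(prj w).toProd - z.toProd‖ ^ 2 ≤ (4 * ‖w - a‖) ^ 2 := by gcongr
    calc _ ≤ (12 / t + 12 / (1 - t)) * (4 * ‖w - a‖) ^ 2 := by gcongr
      _ = _ := by ring
  have e2 : ‖w.1 - a.1‖ ^ 2 ≤ ‖w - a‖ ^ 2 := by
    simp only [Prod.fst_sub] at m1; gcongr
  have e3 : ‖w.2 - a.2‖ ^ 2 ≤ ‖w - a‖ ^ 2 := by
    simp only [Prod.snd_sub] at m2; gcongr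
  have e4 : |ip v ((prj w).toProd - z.toProd) - ip (‖a.1‖⁻¹ • v.1, ‖a.2‖⁻¹ • v.2) (w - a)| ≤
      26 * ‖w - a‖ ^ 2 := by
    have : ip v ((prj w).toProd - z.toProd) - ip (‖a.1‖⁻¹ • v.1, ‖a.2‖⁻¹ • v.2) (w - a) =
        (inner ℝ v.1 (nrm w.1 - z.a) - inner ℝ (‖a.1‖⁻¹ • v.1) (w.1 - a.1)) +
        (inner ℝ v.2 (nrm w.2 - z.b) - inner ℝ (‖a.2‖⁻¹ • v.2) (w.2 - a.2)) := by
      unfold ip
      simp only [M.toProd, prj, Prod.fst_sub, Prod.snd_sub]
      ring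
    rw [this]
    refine (abs_add_le _ _).trans ?_
    linarith
  rw [hz]
  have e5 : Uf φ t (prj w) - Uf φ t z - ip (‖a.1‖⁻¹ • v.1, ‖a.2‖⁻¹ • v.2) (w - a) =
    (Uf φ t (prj w) - Uf φ t z - ip v ((prj w).toProd - z.toProd)) +
    (ip v ((prj w).toProd - z.toProd) - ip (‖a.1‖⁻¹ • v.1, ‖a.2‖⁻¹ • v.2) (w - a)) := by ring
  rw [e5]
  refine (abs_add_le _ _).trans ?_
  unfold C3
  rw [add_mul]
  linarith

theorem ip_sub_left (v v' h : E3 × E3) : ip (v - v') h = ip v h - ip v' h := by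
  unfold ip; simp only [Prod.fst_sub, Prod.snd_sub, inner_sub_left]; ring

theorem ip_sub_right (v h h' : E3 × E3) : ip v (h - h') = ip v h - ip v h' := by
  unfold ip; simp only [Prod.fst_sub, Prod.snd_sub, inner_sub_right]; ring

/-- The velocity is a Lipschitz function of the intermediate point. -/
theorem velocity_lip {φ ψ : XX → ℝ} (hφ : Continuous φ) (hψ : Continuous ψ)
    (hφψ : ∀ x y : XX, φ x + ψ y ≤ cst x.1 y.1) {t : ℝ} (ht0 : 0 < t) (ht1 : t < 1)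
    {z z' : M} {v v' : E3 × E3} {x y x' y' : XX} (h : Data φ ψ t z v x y)
    (h' : Data φ ψ t z' v' x' y') :
    ‖v - v'‖ ≤ (6 * C3 t + 32) * ‖z.toProd - z'.toProd‖ := by
  have hC : 0 ≤ C3 t := by
    have : 0 < 1 - t := by linarith
    unfold C3; positivity
  obtain ⟨n1, n2, -, -⟩ := Data_norm h
  obtain ⟨n1', n2', -, -⟩ := Data_norm h'
  set δ := ‖z.toProd - z'.toProd‖ with hδ
  have hδ0 : 0 ≤ δ := norm_nonneg _
  rcases le_or_gt (1 / 4) δ with hb | hb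
  · have hv : ‖v - v'‖ ≤ 8 := by
      rw [Prod.norm_def]
      have := Real.pi_lt_d2
      refine max_le ?_ ?_
      · refine (norm_sub_le _ _).trans (by linarith)
      · refine (norm_sub_le _ _).trans (by linarith)
    nlinarith
  · -- small distance
    have key : ∀ ρ : ℝ, 0 < ρ → δ ≤ ρ → ρ ≤ 1 / 4 → ∀ k : E3 × E3, ‖k‖ ≤ ρ →
        |ip (v - v') k| ≤ 6 * C3 t * ρ ^ 2 := by
      intro ρ hρ0 hρ1 hρ2 k hk
      set a := z.toProd with ha
      set b := z'.toProd with hb'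
      have a1 : ‖a.1‖ = 1 := z.ha
      have a2 : ‖a.2‖ = 1 := z.hb
      have b1 : ‖b.1‖ = 1 := z'.ha
      have b2 : ‖b.2‖ = 1 := z'.hb
      have k1 : ‖k.1‖ ≤ 1 / 4 := (norm_fst_le k).trans (hk.trans hρ2)
      have k2 : ‖k.2‖ ≤ 1 / 4 := (norm_snd_le k).trans (hk.trans hρ2)
      have w1 : 1 / 2 < ‖(b + k).1‖ := by
        have := norm_sub_norm_le b.1 (-k.1)
        rw [norm_neg, sub_neg_eq_add] at this
        rw [Prod.fst_add]; linarith
      have w2 : 1 / 2 < ‖(b + k).2‖ := by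
        have := norm_sub_norm_le b.2 (-k.2)
        rw [norm_neg, sub_neg_eq_add] at this
        rw [Prod.snd_add]; linarith
      have s1 := two_sided_cone hφ hψ hφψ ht0 ht1 h (a := a) (w := b + k) (prj_toProd z)
        (by rw [a1]; norm_num) (by rw [a2]; norm_num) w1 w2
      have s2 := two_sided_cone hφ hψ hφψ ht0 ht1 h (a := a) (w := b) (prj_toProd z)
        (by rw [a1]; norm_num) (by rw [a2]; norm_num) (by rw [b1]; norm_num) (by rw [b2]; norm_num)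
      have s3 := two_sided_cone hφ hψ hφψ ht0 ht1 h' (a := b) (w := b + k) (prj_toProd z')
        (by rw [b1]; norm_num) (by rw [b2]; norm_num) w1 w2
      rw [a1, a2, inv_one, one_smul, one_smul] at s1 s2
      rw [b1, b2, inv_one, one_smul, one_smul] at s3
      have t1 : ‖b + k - a‖ ≤ 2 * ρ := by
        have : b + k - a = (b - a) + k := by abel
        rw [this]
        have h0 : ‖b - a‖ ≤ ρ := by rw [norm_sub_rev]; exact hρ1
        exact (norm_add_le _ _).trans (by linarith)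
      have t2 : ‖b - a‖ ≤ ρ := by rw [norm_sub_rev]; exact hρ1
      have t3 : ‖b + k - b‖ ≤ ρ := by rw [add_sub_cancel_left]; exact hk
      have r1 : C3 t * ‖b + k - a‖ ^ 2 ≤ C3 t * (2 * ρ) ^ 2 := by gcongr
      have r2 : C3 t * ‖b - a‖ ^ 2 ≤ C3 t * ρ ^ 2 := by gcongr
      have r3 : C3 t * ‖b + k - b‖ ^ 2 ≤ C3 t * ρ ^ 2 := by gcongr
      have e1 : ip (v.1, v.2) (b + k - a) = ip v (b - a) + ip v k := by
        have : b + k - a = b - a - (-k) := by abel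
        rw [this, ip_sub_right]
        unfold ip; simp only [Prod.fst_neg, Prod.snd_neg, inner_neg_right]; ring
      have e2 : ip (v.1, v.2) (b - a) = ip v (b - a) := rfl
      have e3 : ip (v'.1, v'.2) (b + k - b) = ip v' k := by
        rw [add_sub_cancel_left]
      rw [e1] at s1
      rw [e2] at s2
      rw [e3] at s3
      rw [ip_sub_left]
      have e4 : ip v k - ip v' k =
        -(Uf φ t (prj (b + k)) - Uf φ t (prj a) - (ip v (b - a) + ip v k)) +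
        (Uf φ t (prj b) - Uf φ t (prj a) - ip v (b - a)) +
        (Uf φ t (prj (b + k)) - Uf φ t (prj b) - ip v' k) := by ring
      rw [e4]
      refine (abs_add_three _ _ _).trans ?_
      rw [abs_neg]
      nlinarith
    have key2 : ∀ ρ : ℝ, 0 < ρ → δ ≤ ρ → ρ ≤ 1 / 4 → ‖v - v'‖ ≤ 6 * C3 t * ρ := by
      intro ρ hρ0 hρ1 hρ2
      have hpos : 0 ≤ 6 * C3 t * ρ := by positivity
      rw [Prod.norm_def]
      refine max_le ?_ ?_
      · by_cases h0 : (v - v').1 = 0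
        · rw [h0, norm_zero]; exact hpos
        · have hn : 0 < ‖(v - v').1‖ := norm_pos_iff.2 h0
          have := key ρ hρ0 hρ1 hρ2 ((ρ / ‖(v - v').1‖) • (v - v').1, 0) (by
            rw [Prod.norm_def, norm_smul, Real.norm_eq_abs, abs_of_pos (by positivity), norm_zero,
              div_mul_cancel₀ _ hn.ne']
            exact max_le le_rfl hρ0.le)
          rw [ip, inner_smul_right, real_inner_self_eq_norm_sq, inner_zero_right, add_zero] at this
          have e : ρ / ‖(v - v').1‖ * ‖(v - v').1‖ ^ 2 = ρ * ‖(v - v').1‖ := by field_simp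
          rw [e, abs_of_nonneg (by positivity)] at this
          have h2 : ρ * ‖(v - v').1‖ ≤ ρ * (6 * C3 t * ρ) := by nlinarith
          exact le_of_mul_le_mul_left h2 hρ0
      · by_cases h0 : (v - v').2 = 0
        · rw [h0, norm_zero]; exact hpos
        · have hn : 0 < ‖(v - v').2‖ := norm_pos_iff.2 h0
          have := key ρ hρ0 hρ1 hρ2 (0, (ρ / ‖(v - v').2‖) • (v - v').2) (by
            rw [Prod.norm_def, norm_smul, Real.norm_eq_abs, abs_of_pos (by positivity), norm_zero,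
              div_mul_cancel₀ _ hn.ne']
            exact max_le hρ0.le le_rfl)
          rw [ip, inner_smul_right, real_inner_self_eq_norm_sq, inner_zero_right, zero_add] at this
          have e : ρ / ‖(v - v').2‖ * ‖(v - v').2‖ ^ 2 = ρ * ‖(v - v').2‖ := by field_simp
          rw [e, abs_of_nonneg (by positivity)] at this
          have h2 : ρ * ‖(v - v').2‖ ≤ ρ * (6 * C3 t * ρ) := by nlinarith
          exact le_of_mul_le_mul_left h2 hρ0
    rcases eq_or_lt_of_le hδ0 with h0 | h0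
    · rw [← h0, mul_zero]
      refine le_of_forall_pos_le_add fun ε hε => ?_
      rw [zero_add]
      have hpos : 0 < 6 * C3 t + 1 := by positivity
      have := key2 (min (1 / 4) (ε / (6 * C3 t + 1))) (by positivity) (by rw [← h0]; positivity)
        (min_le_left _ _)
      refine this.trans ?_
      calc 6 * C3 t * min (1 / 4) (ε / (6 * C3 t + 1)) ≤ (6 * C3 t + 1) * (ε / (6 * C3 t + 1)) := by
            gcongr
            · linarith
            · exact min_le_right _ _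
        _ = ε := by field_simp
    · have := key2 δ h0 le_rfl hb.le
      nlinarith

/-- The extension of the velocity field: a Lipschitz tangential field, homogeneous of degree zero. -/
theorem field_exists {φ ψ : XX → ℝ} (hφ : Continuous φ) (hψ : Continuous ψ)
    (hφψ : ∀ x y : XX, φ x + ψ y ≤ cst x.1 y.1) {t : ℝ} (ht0 : 0 < t) (ht1 : t < 1) :
    ∃ W : E3 × E3 → E3 × E3,
      (∀ y, inner ℝ (W y).1 y.1 = 0 ∧ inner ℝ (W y).2 y.2 = 0) ∧
      (∀ y, W y = W (prj y).toProd) ∧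
      (∃ L : ℝ, ∀ p q : M, ‖W p.toProd - W q.toProd‖ ≤ L * ‖p.toProd - q.toProd‖) ∧
      ∀ (z : M) (v : E3 × E3) (x y : XX), Data φ ψ t z v x y → W z.toProd = v := by
  classical
  have hC : 0 ≤ C3 t := by
    have : 0 < 1 - t := by linarith
    unfold C3; positivity
  -- the field on the closed set
  let g0 : M → E3 × E3 := fun z => if hz : z ∈ Zs φ ψ t then
    (Data_exists hφ hψ hφψ ht0 ht1 hz).choose else 0
  have hg0 : ∀ z ∈ Zs φ ψ t, ∃ x y, Data φ ψ t z (g0 z) x y := by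
    intro z hz
    simp only [g0, dif_pos hz]
    exact (Data_exists hφ hψ hφψ ht0 ht1 hz).choose_spec
  let g : E3 × E3 → E3 × E3 := fun y => g0 (prj y)
  have hgL : LipschitzOnWith (Real.toNNReal (6 * C3 t + 32)) g (M.toProd '' Zs φ ψ t) := by
    refine LipschitzOnWith.of_dist_le_mul ?_
    rintro _ ⟨z, hz, rfl⟩ _ ⟨z', hz', rfl⟩
    obtain ⟨x, y, h⟩ := hg0 z hz
    obtain ⟨x', y', h'⟩ := hg0 z' hz'
    rw [dist_eq_norm, dist_eq_norm, Real.coe_toNNReal _ (by positivity)]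
    simp only [g, prj_toProd]
    exact velocity_lip hφ hψ hφψ ht0 ht1 h h'
  obtain ⟨G, hG, hGg⟩ := hgL.extend_finite_dimension
  set L := lipschitzExtensionConstant (E3 × E3) * Real.toNNReal (6 * C3 t + 32) with hL
  let tn : E3 → E3 → E3 := fun n u => u - (inner ℝ n u : ℝ) • n
  have htn : ∀ (y u : E3), inner ℝ (tn (nrm y) u) y = 0 := by
    intro y u
    have h1 : inner ℝ (tn (nrm y) u) (nrm y) = 0 := by
      simp only [tn]
      rw [inner_sub_left, inner_smul_left, real_inner_self_eq_norm_sq, norm_nrm,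
        real_inner_comm u (nrm y)]
      simp
    have h2 : inner ℝ (tn (nrm y) u) (‖y‖ • nrm y) = 0 := by
      rw [inner_smul_right, h1, mul_zero]
    rwa [← eq_norm_smul_nrm y] at h2
  have htl : ∀ (n n' u u' : E3), ‖n‖ = 1 → ‖n'‖ = 1 →
      ‖tn n u - tn n' u'‖ ≤ 2 * ‖u - u'‖ + (‖u‖ + ‖u'‖) * ‖n - n'‖ := by
    intro n n' u u' hn hn'
    have e1 : tn n u - tn n' u' = (u - u') - ((inner ℝ n u - inner ℝ n' u' : ℝ) • n +
        (inner ℝ n' u' : ℝ) • (n - n')) := by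
      simp only [tn, sub_smul, smul_sub]; abel
    have e2 : (inner ℝ n u - inner ℝ n' u' : ℝ) = inner ℝ (n - n') u + inner ℝ n' (u - u') := by
      rw [inner_sub_left, inner_sub_right]; ring
    have e3 : |(inner ℝ n u - inner ℝ n' u' : ℝ)| ≤ ‖n - n'‖ * ‖u‖ + ‖u - u'‖ := by
      rw [e2]
      refine (abs_add_le _ _).trans (add_le_add (abs_real_inner_le_norm _ _) ?_)
      have := abs_real_inner_le_norm n' (u - u')
      rwa [hn', one_mul] at this
    have e4 : |(inner ℝ n' u' : ℝ)| ≤ ‖u'‖ := by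
      have := abs_real_inner_le_norm n' u'
      rwa [hn', one_mul] at this
    rw [e1]
    refine (norm_sub_le _ _).trans ?_
    have e5 : ‖(inner ℝ n u - inner ℝ n' u' : ℝ) • n + (inner ℝ n' u' : ℝ) • (n - n')‖ ≤
        (‖n - n'‖ * ‖u‖ + ‖u - u'‖) + ‖u'‖ * ‖n - n'‖ := by
      refine (norm_add_le _ _).trans ?_
      rw [norm_smul, norm_smul, hn, mul_one, Real.norm_eq_abs, Real.norm_eq_abs]
      have := norm_nonneg (n - n')
      gcongr
    linarith
  have hnM : ∀ p : M, ‖p.toProd‖ = 1 := by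
    intro p
    rw [Prod.norm_def]
    simp [M.toProd, p.ha, p.hb]
  have hB : ∀ p : M, ‖G p.toProd‖ ≤ ‖G 0‖ + L := by
    intro p
    have h1 := hG.dist_le_mul p.toProd 0
    rw [dist_eq_norm, dist_eq_norm, sub_zero, hnM, mul_one] at h1
    have h2 := norm_le_norm_add_norm_sub' (G p.toProd) (G 0)
    linarith
  refine ⟨fun y => (tn (nrm y.1) (G (prj y).toProd).1, tn (nrm y.2) (G (prj y).toProd).2), ?_, ?_,
    ?_, ?_⟩
  · intro y
    exact ⟨htn _ _, htn _ _⟩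
  · intro y
    simp only [M.toProd, prj, nrm_nrm]
  · refine ⟨2 * L + 2 * (‖G 0‖ + L), fun p q => ?_⟩
    have hGpq : ‖G p.toProd - G q.toProd‖ ≤ L * ‖p.toProd - q.toProd‖ := by
      have := hG.dist_le_mul p.toProd q.toProd
      rwa [dist_eq_norm, dist_eq_norm] at this
    have m1 : ‖p.a - q.a‖ ≤ ‖p.toProd - q.toProd‖ := norm_fst_le (p.toProd - q.toProd)
    have m2 : ‖p.b - q.b‖ ≤ ‖p.toProd - q.toProd‖ := norm_snd_le (p.toProd - q.toProd)
    have m3 : ‖(G p.toProd).1 - (G q.toProd).1‖ ≤ ‖G p.toProd - G q.toProd‖ :=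
      norm_fst_le (G p.toProd - G q.toProd)
    have m4 : ‖(G p.toProd).2 - (G q.toProd).2‖ ≤ ‖G p.toProd - G q.toProd‖ :=
      norm_snd_le (G p.toProd - G q.toProd)
    have b1 : ‖(G p.toProd).1‖ ≤ ‖G 0‖ + L := (norm_fst_le _).trans (hB p)
    have b2 : ‖(G q.toProd).1‖ ≤ ‖G 0‖ + L := (norm_fst_le _).trans (hB q)
    have b3 : ‖(G p.toProd).2‖ ≤ ‖G 0‖ + L := (norm_snd_le _).trans (hB p)
    have b4 : ‖(G q.toProd).2‖ ≤ ‖G 0‖ + L := (norm_snd_le _).trans (hB q)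
    have hN : 0 ≤ ‖p.toProd - q.toProd‖ := norm_nonneg _
    have fin : ∀ (A B C D : ℝ), A ≤ L * ‖p.toProd - q.toProd‖ → B ≤ ‖G 0‖ + L → C ≤ ‖G 0‖ + L →
        D ≤ ‖p.toProd - q.toProd‖ → 0 ≤ B → 0 ≤ C → 0 ≤ D →
        2 * A + (B + C) * D ≤ (2 * L + 2 * (‖G 0‖ + L)) * ‖p.toProd - q.toProd‖ := by
      intro A B C D hA hB hC hD hB0 hC0 hD0
      have : (B + C) * D ≤ ((‖G 0‖ + L) + (‖G 0‖ + L)) * ‖p.toProd - q.toProd‖ := by
        gcongr
      linarith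
    rw [Prod.norm_def]
    simp only [prj_toProd, Prod.fst_sub, Prod.snd_sub]
    refine max_le ?_ ?_
    · have h1 := htl p.a q.a (G p.toProd).1 (G q.toProd).1 p.ha q.ha
      have e1 : nrm p.toProd.1 = p.a := nrm_of_norm_one p.ha
      have e2 : nrm q.toProd.1 = q.a := nrm_of_norm_one q.ha
      rw [e1, e2]
      exact h1.trans (fin _ _ _ _ (m3.trans hGpq) b1 b2 m1 (norm_nonneg _) (norm_nonneg _)
        (norm_nonneg _))
    · have h1 := htl p.b q.b (G p.toProd).2 (G q.toProd).2 p.hb q.hb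
      have e1 : nrm p.toProd.2 = p.b := nrm_of_norm_one p.hb
      have e2 : nrm q.toProd.2 = q.b := nrm_of_norm_one q.hb
      rw [e1, e2]
      exact h1.trans (fin _ _ _ _ (m4.trans hGpq) b3 b4 m2 (norm_nonneg _) (norm_nonneg _)
        (norm_nonneg _))
  · intro z v x y h
    have hz : z ∈ Zs φ ψ t := by
      obtain ⟨θ₁, θ₂, e₁, e₂, -, -, -, -, -, h⟩ := h
      exact h
    obtain ⟨x', y', h'⟩ := hg0 z hz
    have h1 := velocity_lip hφ hψ hφψ ht0 ht1 h h'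
    rw [sub_self, norm_zero, mul_zero] at h1
    have h2 : v = g0 z := sub_eq_zero.1 (norm_le_zero_iff.1 h1)
    have h3 : G z.toProd = v := by
      rw [← hGg (mem_image_of_mem _ hz), h2]
      simp only [g, prj_toProd]
    obtain ⟨-, -, n3, n4⟩ := Data_norm h
    have e1 : nrm z.toProd.1 = z.a := nrm_of_norm_one z.ha
    have e2 : nrm z.toProd.2 = z.b := nrm_of_norm_one z.hb
    simp only [prj_toProd, h3, e1, e2, tn]
    rw [real_inner_comm v.1 z.a, n3, real_inner_comm v.2 z.b, n4]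
    simp

end Pool.Agent.W553.RCD
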