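import Pool.Agent.W553.RCD.Stmts2

/-!
# Geodesics of the sphere and of the space
-/

set_option maxHeartbeats 400000

open MeasureTheory Set Filter Topology
open scoped ENNReal NNReal

namespace Pool.Agent.W553.RCD

/-- A unit vector perpendicular to `x`; it points up if `x` is horizontal. -/
noncomputable def perp (x : E3) : E3 :=
  if x 2 = 0 then EuclideanSpace.single 2 1
  else (√(x 0 ^ 2 + x 2 ^ 2))⁻¹ • !₂[x 2, 0, -x 0]

/-- The unit tangent vector at `x` of a minimizing geodesic from `x` to `y`. -/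
noncomputable def dir (x y : E3) : E3 :=
  if Real.sin (ang x y) = 0 then perp x
  else (Real.sin (ang x y))⁻¹ • (y - Real.cos (ang x y) • x)

/-- A minimizing geodesic from `x` to `y`. -/
noncomputable def pth (t : ℝ) (x y : E3) : E3 :=
  Real.cos (t * ang x y) • x + Real.sin (t * ang x y) • dir x y

theorem norm_perp (x : E3) : ‖perp x‖ = 1 := by
  unfold perp
  split_ifs with h
  · simp
  · have h1 : 0 < x 0 ^ 2 + x 2 ^ 2 := by positivity
    rw [norm_smul, EuclideanSpace.norm_eq, Fin.sum_univ_three]
    simp only [norm_inv, Real.norm_eq_abs, sq_abs, Matrix.cons_val_zero,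
      Matrix.cons_val_one, Matrix.cons_val_two, Matrix.tail_cons, Matrix.head_cons]
    rw [abs_of_nonneg (Real.sqrt_nonneg _)]
    have h2 : x 2 ^ 2 + 0 ^ 2 + (-x 0) ^ 2 = x 0 ^ 2 + x 2 ^ 2 := by ring
    rw [h2]
    have h3 : √(x 0 ^ 2 + x 2 ^ 2) ≠ 0 := by positivity
    exact inv_mul_cancel₀ h3

theorem inner_perp (x : E3) : inner ℝ x (perp x) = 0 := by
  unfold perp
  split_ifs with h
  · simp [EuclideanSpace.inner_single_right, h]
  · rw [inner_smul_right]
    have : inner ℝ x (!₂[x 2, 0, -x 0] : E3) = 0 := by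
      simp [PiLp.inner_apply, Fin.sum_univ_three]
      ring
    rw [this, mul_zero]

theorem inner_dir {x y : E3} (hx : ‖x‖ = 1) (hy : ‖y‖ = 1) : inner ℝ x (dir x y) = 0 := by
  unfold dir
  split_ifs with h
  · exact inner_perp x
  · rw [inner_smul_right, inner_sub_right, inner_smul_right, real_inner_self_eq_norm_sq, hx,
      cos_ang hx hy]
    simp

theorem norm_dir {x y : E3} (hx : ‖x‖ = 1) (hy : ‖y‖ = 1) : ‖dir x y‖ = 1 := by
  unfold dir
  split_ifs with h
  · exact norm_perp x
  · have h1 : ‖y - Real.cos (ang x y) • x‖ ^ 2 = Real.sin (ang x y) ^ 2 := by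
      rw [norm_sub_sq_real, inner_smul_right, norm_smul, hx, hy, real_inner_comm, ← cos_ang hx hy,
        Real.sin_sq, mul_one, Real.norm_eq_abs, sq_abs]
      ring
    have h2 : ‖y - Real.cos (ang x y) • x‖ = |Real.sin (ang x y)| := by
      rw [← abs_of_nonneg (norm_nonneg (y - Real.cos (ang x y) • x))]
      exact (sq_eq_sq_iff_abs_eq_abs _ _).1 h1
    rw [norm_smul, h2, norm_inv, Real.norm_eq_abs]
    exact inv_mul_cancel₀ (abs_ne_zero.2 h)

/-- `y = cos θ x + sin θ e`. -/
theorem dir_spec {x y : E3} (hx : ‖x‖ = 1) (hy : ‖y‖ = 1) :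
    y = Real.cos (ang x y) • x + Real.sin (ang x y) • dir x y := by
  unfold dir
  split_ifs with h
  · rw [h, zero_smul, add_zero]
    have h1 : ang x y = 0 ∨ ang x y = Real.pi := by
      rcases eq_or_lt_of_le (ang_nonneg x y) with h2 | h2
      · exact Or.inl h2.symm
      · rcases eq_or_lt_of_le (ang_le_pi x y) with h3 | h3
        · exact Or.inr h3
        · exact absurd h (Real.sin_pos_of_pos_of_lt_pi h2 h3).ne'
    rcases h1 with h1 | h1
    · rw [h1, Real.cos_zero, one_smul]
      exact (ang_eq_zero hx hy h1).symm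
    · rw [h1, Real.cos_pi, neg_one_smul]
      have h2 := cos_ang hx hy
      rw [h1, Real.cos_pi] at h2
      have h3 : ‖y + x‖ ^ 2 = 0 := by
        rw [norm_add_sq_real, hx, hy, real_inner_comm, ← h2]; norm_num
      have h4 : y + x = 0 := by
        rw [sq_eq_zero_iff] at h3
        exact norm_eq_zero.1 h3
      exact eq_neg_of_add_eq_zero_left h4
  · rw [smul_smul, mul_inv_cancel₀ h, one_smul]
    abel

/-- Points of a great circle. -/
theorem norm_circle {x e : E3} (hx : ‖x‖ = 1) (he : ‖e‖ = 1) (h : inner ℝ x e = 0) (α : ℝ) :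
    ‖Real.cos α • x + Real.sin α • e‖ = 1 := by
  have : ‖Real.cos α • x + Real.sin α • e‖ ^ 2 = 1 := by
    rw [norm_add_sq_real, inner_smul_left, inner_smul_right, h, norm_smul, norm_smul, hx, he]
    simp only [Real.norm_eq_abs, mul_one, sq_abs, conj_trivial, mul_zero, add_zero]
    exact Real.cos_sq_add_sin_sq α
  have h0 := norm_nonneg (Real.cos α • x + Real.sin α • e)
  nlinarith

theorem ang_circle {x e : E3} (hx : ‖x‖ = 1) (he : ‖e‖ = 1) (h : inner ℝ x e = 0) {α β : ℝ}
    (hαβ : |β - α| ≤ Real.pi) :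
    ang (Real.cos α • x + Real.sin α • e) (Real.cos β • x + Real.sin β • e) = |β - α| := by
  have h1 : inner ℝ (Real.cos α • x + Real.sin α • e) (Real.cos β • x + Real.sin β • e)
      = Real.cos (β - α) := by
    rw [inner_add_left, inner_add_right, inner_add_right, inner_smul_left, inner_smul_left,
      inner_smul_left, inner_smul_left, inner_smul_right, inner_smul_right, inner_smul_right,
      inner_smul_right, real_inner_comm x e, h, real_inner_self_eq_norm_sq,
      real_inner_self_eq_norm_sq, hx, he, Real.cos_sub]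
    simp only [conj_trivial]
    ring
  unfold ang
  rw [InnerProductGeometry.angle, norm_circle hx he h, norm_circle hx he h, h1, mul_one, div_one,
    ← Real.cos_abs, Real.arccos_cos (abs_nonneg _) hαβ]

theorem norm_pth {x y : E3} (hx : ‖x‖ = 1) (hy : ‖y‖ = 1) (t : ℝ) : ‖pth t x y‖ = 1 :=
  norm_circle hx (norm_dir hx hy) (inner_dir hx hy) _

theorem pth_zero (x y : E3) : pth 0 x y = x := by simp [pth]

theorem pth_one {x y : E3} (hx : ‖x‖ = 1) (hy : ‖y‖ = 1) : pth 1 x y = y := by
  rw [pth, one_mul]; exact (dir_spec hx hy).symm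

theorem ang_pth {x y : E3} (hx : ‖x‖ = 1) (hy : ‖y‖ = 1) {s t : ℝ} (hs : s ∈ Icc (0 : ℝ) 1)
    (ht : t ∈ Icc (0 : ℝ) 1) : ang (pth s x y) (pth t x y) = |t - s| * ang x y := by
  have h1 : |t * ang x y - s * ang x y| = |t - s| * ang x y := by
    rw [← sub_mul, abs_mul, abs_of_nonneg (ang_nonneg x y)]
  unfold pth
  rw [ang_circle hx (norm_dir hx hy) (inner_dir hx hy), h1]
  rw [h1]
  have h2 : |t - s| ≤ 1 := by
    rw [abs_le]; constructor <;> linarith [hs.1, hs.2, ht.1, ht.2]
  calc |t - s| * ang x y ≤ 1 * Real.pi := by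
        gcongr
        · exact ang_nonneg _ _
        · exact ang_le_pi _ _
    _ = Real.pi := one_mul _

theorem pth_up {x y : E3} (hx : ‖x‖ = 1) (hy : ‖y‖ = 1) {t : ℝ} (ht : t ∈ Icc (0 : ℝ) 1)
    (h1 : 0 ≤ x 2) (h2 : 0 ≤ y 2) : 0 ≤ (pth t x y) 2 := by
  have hθ0 := ang_nonneg x y
  have hθ1 := ang_le_pi x y
  have htθ0 : 0 ≤ t * ang x y := mul_nonneg ht.1 hθ0
  have htθ1 : t * ang x y ≤ Real.pi := by nlinarith [ht.1, ht.2]
  by_cases h : Real.sin (ang x y) = 0
  · rcases eq_or_lt_of_le hθ0 with h3 | h3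
    · rw [pth, ← h3]; simpa using h1
    · have h4 : ang x y = Real.pi := by
        rcases eq_or_lt_of_le hθ1 with h5 | h5
        · exact h5
        · exact absurd h (Real.sin_pos_of_pos_of_lt_pi h3 h5).ne'
      have h5 := dir_spec hx hy
      rw [h4, Real.cos_pi, Real.sin_pi, zero_smul, add_zero, neg_one_smul] at h5
      have h6 : x 2 = 0 := by
        have : y 2 = -(x 2) := by
          conv_lhs => rw [h5]
          simp
        linarith
      have h7 : dir x y = EuclideanSpace.single 2 1 := by
        rw [dir, if_pos h, perp, if_pos h6]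
      rw [pth, h7]
      simp only [PiLp.add_apply, PiLp.smul_apply, smul_eq_mul, h6, mul_zero, zero_add,
        PiLp.single_apply, if_true, mul_one]
      exact Real.sin_nonneg_of_nonneg_of_le_pi htθ0 htθ1
  · have h3 : 0 < Real.sin (ang x y) :=
      lt_of_le_of_ne (Real.sin_nonneg_of_nonneg_of_le_pi hθ0 hθ1) (Ne.symm h)
    rw [pth, dir, if_neg h]
    simp only [PiLp.add_apply, PiLp.smul_apply, PiLp.sub_apply, smul_eq_mul]
    have h4 : Real.cos (t * ang x y) * x 2 + Real.sin (t * ang x y) *
        ((Real.sin (ang x y))⁻¹ * (y 2 - Real.cos (ang x y) * x 2))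
        = (Real.sin ((1 - t) * ang x y) * x 2 + Real.sin (t * ang x y) * y 2) /
          Real.sin (ang x y) := by
      have : (1 - t) * ang x y = ang x y - t * ang x y := by ring
      rw [this, Real.sin_sub]
      field_simp
      ring
    rw [h4]
    have h5 : 0 ≤ (1 - t) * ang x y := mul_nonneg (by linarith [ht.2]) hθ0
    have h6 : (1 - t) * ang x y ≤ Real.pi := by nlinarith [ht.1, ht.2]
    have h7 := Real.sin_nonneg_of_nonneg_of_le_pi h5 h6
    have h8 := Real.sin_nonneg_of_nonneg_of_le_pi htθ0 htθ1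
    positivity

/-- The geodesic of `XX` from `x` to `y`, at time `t` (the constant `x` if `t` is not in
`[0,1]`). -/
noncomputable def Geo (t : ℝ) (x y : XX) : XX :=
  if ht : t ∈ Icc (0 : ℝ) 1 then
    ⟨⟨pth t x.1.a y.1.a, pth t x.1.b y.1.b, norm_pth x.1.ha y.1.ha t, norm_pth x.1.hb y.1.hb t⟩,
      pth_up x.1.ha y.1.ha ht x.2 y.2⟩
  else x

theorem Geo_a {t : ℝ} (ht : t ∈ Icc (0 : ℝ) 1) (x y : XX) :
    (Geo t x y).1.a = pth t x.1.a y.1.a := by rw [Geo, dif_pos ht]

theorem Geo_b {t : ℝ} (ht : t ∈ Icc (0 : ℝ) 1) (x y : XX) :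
    (Geo t x y).1.b = pth t x.1.b y.1.b := by rw [Geo, dif_pos ht]

theorem Geo_zero (x y : XX) : Geo 0 x y = x := by
  apply Subtype.ext
  apply M.ext
  · rw [Geo_a (by simp), pth_zero]
  · rw [Geo_b (by simp), pth_zero]

theorem Geo_one (x y : XX) : Geo 1 x y = y := by
  apply Subtype.ext
  apply M.ext
  · rw [Geo_a (by simp), pth_one x.1.ha y.1.ha]
  · rw [Geo_b (by simp), pth_one x.1.hb y.1.hb]

theorem dist_Geo {s t : ℝ} (hs : s ∈ Icc (0 : ℝ) 1) (ht : t ∈ Icc (0 : ℝ) 1) (x y : XX) :
    dist (Geo s x y) (Geo t x y) = |t - s| * dist x y := by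
  rw [Subtype.dist_eq, Subtype.dist_eq, M.dist_def, M.dist_def, Geo_a hs, Geo_a ht, Geo_b hs,
    Geo_b ht, ang_pth x.1.ha y.1.ha hs ht, ang_pth x.1.hb y.1.hb hs ht, mul_pow, mul_pow, ← mul_add,
    Real.sqrt_mul (sq_nonneg _), Real.sqrt_sq (abs_nonneg _), mul_div_assoc]

theorem measurable_perp : Measurable perp := by
  unfold perp
  refine Measurable.ite ?_ measurable_const ?_
  · have : Measurable (fun x : E3 => x 2) := (by fun_prop : Continuous (fun x : E3 => x 2)).measurable
    exact this (measurableSet_singleton 0)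
  · have h1 : Measurable (fun x : E3 => (√(x 0 ^ 2 + x 2 ^ 2))⁻¹) := by
      have : Measurable (fun x : E3 => √(x 0 ^ 2 + x 2 ^ 2)) :=
        (by fun_prop : Continuous (fun x : E3 => √(x 0 ^ 2 + x 2 ^ 2))).measurable
      exact this.inv
    have h2 : Measurable (fun x : E3 => (!₂[x 2, 0, -x 0] : E3)) := by
      have : Continuous (fun x : E3 => (!₂[x 2, 0, -x 0] : E3)) := by
        refine (PiLp.continuous_toLp 2 _).comp ?_
        refine continuous_pi fun i => ?_
        fin_cases i
        · simp; fun_prop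
        · simp; fun_prop
        · simp; fun_prop
      exact this.measurable
    exact h1.smul h2

theorem continuous_ang_M : Continuous (fun p : M × M => ang p.1.a p.2.a) := by
  have h : (fun p : M × M => ang p.1.a p.2.a) = fun p : M × M => Real.arccos (inner ℝ p.1.a p.2.a) := by
    ext p
    rw [ang, InnerProductGeometry.angle, p.1.ha, p.2.ha, mul_one, div_one]
  rw [h]
  exact Real.continuous_arccos.comp
    ((M.continuous_a.comp continuous_fst).inner (M.continuous_a.comp continuous_snd))

theorem continuous_ang_M' : Continuous (fun p : M × M => ang p.1.b p.2.b) := by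
  have h : (fun p : M × M => ang p.1.b p.2.b) = fun p : M × M => Real.arccos (inner ℝ p.1.b p.2.b) := by
    ext p
    rw [ang, InnerProductGeometry.angle, p.1.hb, p.2.hb, mul_one, div_one]
  rw [h]
  exact Real.continuous_arccos.comp
    ((M.continuous_b.comp continuous_fst).inner (M.continuous_b.comp continuous_snd))

theorem measurable_ang : Measurable (fun p : E3 × E3 => ang p.1 p.2) := by
  unfold ang
  have h : (fun p : E3 × E3 => InnerProductGeometry.angle p.1 p.2) =
      fun p : E3 × E3 => Real.arccos (inner ℝ p.1 p.2 / (‖p.1‖ * ‖p.2‖)) := rfl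
  rw [h]
  refine Real.measurable_arccos.comp ?_
  fun_prop

theorem measurable_pth (t : ℝ) : Measurable (fun p : E3 × E3 => pth t p.1 p.2) := by
  have hd : Measurable (fun p : E3 × E3 => dir p.1 p.2) := by
    unfold dir
    refine Measurable.ite ?_ (measurable_perp.comp measurable_fst) ?_
    · exact (Real.measurable_sin.comp measurable_ang) (measurableSet_singleton 0)
    · exact (Real.measurable_sin.comp measurable_ang).inv.smul
        (measurable_snd.sub ((Real.measurable_cos.comp measurable_ang).smul measurable_fst))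
  unfold pth
  exact ((Real.measurable_cos.comp (measurable_ang.const_mul t)).smul measurable_fst).add
    ((Real.measurable_sin.comp (measurable_ang.const_mul t)).smul hd)

theorem M.measurableEmbedding_toProd : MeasurableEmbedding M.toProd := by
  refine IsClosedEmbedding.measurableEmbedding ⟨M.isEmbedding_toProd, ?_⟩
  rw [M.range_toProd]
  exact (Metric.isClosed_sphere).prod Metric.isClosed_sphere

theorem XX.isClosed : IsClosed {p : M | 0 ≤ p.a 2} := by
  refine isClosed_le continuous_const ?_
  exact (by fun_prop : Continuous (fun x : E3 => x 2)).comp M.continuous_a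

instance : CompactSpace XX := isCompact_iff_compactSpace.1 (XX.isClosed.isCompact)

theorem measurable_coe_a : Measurable (fun p : XX => p.1.a) :=
  M.continuous_a.measurable.comp measurable_subtype_coe

theorem measurable_coe_b : Measurable (fun p : XX => p.1.b) :=
  M.continuous_b.measurable.comp measurable_subtype_coe

theorem measurable_pth_comp (t : ℝ) (f : XX × XX → E3 × E3) (hf : Measurable f) :
    Measurable (fun p : XX × XX => pth t (f p).1 (f p).2) :=
  (measurable_pth t).comp hf

theorem measurable_prod_a : Measurable (fun p : XX × XX => (p.1.1.a, p.2.1.a)) :=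
  Measurable.prodMk (measurable_coe_a.comp measurable_fst) (measurable_coe_a.comp measurable_snd)

theorem measurable_prod_b : Measurable (fun p : XX × XX => (p.1.1.b, p.2.1.b)) :=
  Measurable.prodMk (measurable_coe_b.comp measurable_fst) (measurable_coe_b.comp measurable_snd)

theorem measurable_Geo (t : ℝ) : Measurable (fun p : XX × XX => Geo t p.1 p.2) := by
  by_cases ht : t ∈ Icc (0 : ℝ) 1
  · have ha2 : Measurable (fun p : XX × XX => pth t p.1.1.a p.2.1.a) :=
      measurable_pth_comp t (fun p : XX × XX => (p.1.1.a, p.2.1.a)) measurable_prod_a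
    have hb2 : Measurable (fun p : XX × XX => pth t p.1.1.b p.2.1.b) :=
      measurable_pth_comp t (fun p : XX × XX => (p.1.1.b, p.2.1.b)) measurable_prod_b
    have h2 : (M.toProd ∘ (Subtype.val ∘ fun p : XX × XX => Geo t p.1 p.2)) =
        fun p : XX × XX => (pth t p.1.1.a p.2.1.a, pth t p.1.1.b p.2.1.b) := by
      ext p : 1
      simp only [Function.comp, M.toProd, Geo_a ht, Geo_b ht]
    have h3 : Measurable (M.toProd ∘ (Subtype.val ∘ fun p : XX × XX => Geo t p.1 p.2)) := by
      rw [h2]
      exact Measurable.prodMk ha2 hb2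
    have h4 := M.measurableEmbedding_toProd.measurable_comp_iff.1 h3
    exact (MeasurableEmbedding.subtype_coe XX.isClosed.measurableSet).measurable_comp_iff.1 h4
  · have : (fun p : XX × XX => Geo t p.1 p.2) = Prod.fst := by
      ext p : 1
      rw [Geo, dif_neg ht]
    rw [this]
    exact measurable_fst

end Pool.Agent.W553.RCD
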