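import Pool.Agent.W553.RCD.Fld
import Pool.Agent.W553.RCD.Stmts2
import Pool.Agent.W358.AngExp
import Pool.Agent.W358.ExpDet
import Pool.Agent.W358.Alex
import Pool.Agent.W358.JacDet

/-!
# The pointwise inequality
-/

set_option maxHeartbeats 400000

open MeasureTheory Set Filter Topology
open scoped ENNReal NNReal

namespace Pool.Agent.W553.RCD

/-- The pairing as a continuous bilinear form. -/
noncomputable def ipL : (E3 × E3) →L[ℝ] (E3 × E3) →L[ℝ] ℝ :=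
  ((innerSL ℝ).bilinearComp (ContinuousLinearMap.fst ℝ E3 E3) (ContinuousLinearMap.fst ℝ E3 E3)) +
  ((innerSL ℝ).bilinearComp (ContinuousLinearMap.snd ℝ E3 E3) (ContinuousLinearMap.snd ℝ E3 E3))

theorem ipL_apply (v h : E3 × E3) : ipL v h = ip v h := by
  simp [ipL, ip]

theorem inv_norm_deriv {z : E3} (hz : ‖z‖ = 1) :
    HasFDerivAt (fun y : E3 => ‖y‖⁻¹) (-(innerSL ℝ z)) z := by
  have h1 : HasFDerivAt (fun y : E3 => ‖y‖ ^ 2) (2 • innerSL ℝ z) z :=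
    (hasStrictFDerivAt_norm_sq z).hasFDerivAt
  have h2 := h1.sqrt (by rw [hz]; norm_num)
  have h3 : HasFDerivAt (fun y : E3 => (√(‖y‖ ^ 2))⁻¹) _ z :=
    (hasDerivAt_inv (x := √(‖z‖ ^ 2)) (by rw [hz]; norm_num)).comp_hasFDerivAt z h2
  have e1 : (fun y : E3 => ‖y‖⁻¹) = fun y : E3 => (√(‖y‖ ^ 2))⁻¹ := by
    ext y; rw [Real.sqrt_sq (norm_nonneg _)]
  rw [e1]
  refine h3.congr_fderiv ?_
  ext h
  simp [hz]

/-- The field `V` whose pairing is the derivative of the potential in cone coordinates. -/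
noncomputable def Vf (W : E3 × E3 → E3 × E3) (y : E3 × E3) : E3 × E3 :=
  (‖y.1‖⁻¹ • (W y).1, ‖y.2‖⁻¹ • (W y).2)

theorem Vf_deriv {W : E3 × E3 → E3 × E3} {z : M} {B : E3 × E3 →L[ℝ] E3 × E3}
    (hB : HasFDerivAt W B z.toProd) :
    ∃ B' : E3 × E3 →L[ℝ] E3 × E3, HasFDerivAt (Vf W) B' z.toProd ∧
      ∀ h : E3 × E3, inner ℝ z.a h.1 = 0 → inner ℝ z.b h.2 = 0 → B' h = B h := by
  have n1 : HasFDerivAt (fun y : E3 × E3 => ‖y.1‖⁻¹)
      ((-(innerSL ℝ z.a)).comp (ContinuousLinearMap.fst ℝ E3 E3)) z.toProd :=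
    HasFDerivAt.comp (g := fun y : E3 => ‖y‖⁻¹) (f := Prod.fst) z.toProd
      (inv_norm_deriv z.ha : HasFDerivAt (fun y : E3 => ‖y‖⁻¹) (-(innerSL ℝ z.a)) z.toProd.1)
      (hasFDerivAt_fst (p := z.toProd))
  have n2 : HasFDerivAt (fun y : E3 × E3 => ‖y.2‖⁻¹)
      ((-(innerSL ℝ z.b)).comp (ContinuousLinearMap.snd ℝ E3 E3)) z.toProd :=
    HasFDerivAt.comp (g := fun y : E3 => ‖y‖⁻¹) (f := Prod.snd) z.toProd
      (inv_norm_deriv z.hb : HasFDerivAt (fun y : E3 => ‖y‖⁻¹) (-(innerSL ℝ z.b)) z.toProd.2)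
      (hasFDerivAt_snd (p := z.toProd))
  have w1 : HasFDerivAt (fun y : E3 × E3 => (W y).1)
      ((ContinuousLinearMap.fst ℝ E3 E3).comp B) z.toProd := hB.fst
  have w2 : HasFDerivAt (fun y : E3 × E3 => (W y).2)
      ((ContinuousLinearMap.snd ℝ E3 E3).comp B) z.toProd := hB.snd
  refine ⟨_, (n1.smul w1).prodMk (n2.smul w2), ?_⟩
  intro h h1 h2
  have a1 : ‖z.toProd.1‖ = 1 := z.ha
  have a2 : ‖z.toProd.2‖ = 1 := z.hb
  ext1
  · simp [a1, h1]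
  · simp [a2, h2]

section
variable {φ ψ : XX → ℝ} (hφ : Continuous φ) (hψ : Continuous ψ)
  (hφψ : ∀ x y : XX, φ x + ψ y ≤ cst x.1 y.1) {t : ℝ} (ht0 : 0 < t) (ht1 : t < 1)
  {W : E3 × E3 → E3 × E3} (hW1 : ∀ y, W y = W (prj y).toProd)
  (hW2 : ∀ (z : M) (v : E3 × E3) (x y : XX), Data φ ψ t z v x y → W z.toProd = v)

include hφ hψ hφψ ht0 ht1 hW1 hW2 in
theorem second_order {z : M} {v : E3 × E3} {x y : XX} (hD : Data φ ψ t z v x y)
    {B : E3 × E3 →L[ℝ] E3 × E3} (hB : HasFDerivAt W B z.toProd)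
    (hdens : ∀ ε > 0, ∀ᶠ w in 𝓝 z.toProd, ∃ a : E3 × E3, a.1 ≠ 0 ∧ a.2 ≠ 0 ∧
      prj a ∈ Zs φ ψ t ∧ ‖w - a‖ ≤ ε * ‖w - z.toProd‖) :
    (∀ h k : E3 × E3, inner ℝ z.a h.1 = 0 → inner ℝ z.b h.2 = 0 → inner ℝ z.a k.1 = 0 →
      inner ℝ z.b k.2 = 0 → ip (B h) k = ip (B k) h) ∧
    ∀ h : E3 × E3, inner ℝ z.a h.1 = 0 → inner ℝ z.b h.2 = 0 →
      Tendsto (fun r : ℝ => (Uf φ t (prj (z.toProd + r • h)) - Uf φ t z - r * ip v h) / r ^ 2)
        (𝓝[≠] 0) (𝓝 (ip (B h) h / 2)) := by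
  obtain ⟨B', hB', hBB⟩ := Vf_deriv hB
  have a1 : ‖z.toProd.1‖ = 1 := z.ha
  have a2 : ‖z.toProd.2‖ = 1 := z.hb
  have hzZ : z ∈ Zs φ ψ t := by
    obtain ⟨θ₁, θ₂, e₁, e₂, -, -, -, -, -, h⟩ := hD
    exact h
  have hp : HasFDerivAt (fun y => ipL (Vf W y)) (ipL.comp B') z.toProd :=
    ipL.hasFDerivAt.comp z.toProd hB'
  have key := W358.Alex.K2 (E3 × E3) (fun w => Uf φ t (prj w)) (fun y => ipL (Vf W y))
    {a | a.1 ≠ 0 ∧ a.2 ≠ 0 ∧ prj a ∈ Zs φ ψ t} {w | 1 / 2 < ‖w.1‖ ∧ 1 / 2 < ‖w.2‖} (C3 t) z.toProd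
    ⟨by rw [← norm_ne_zero_iff, a1]; norm_num, by rw [← norm_ne_zero_iff, a2]; norm_num,
      by rw [prj_toProd]; exact hzZ⟩
    (by
      refine IsOpen.mem_nhds ?_ ?_
      · exact (isOpen_lt continuous_const (continuous_norm.comp continuous_fst)).inter
          (isOpen_lt continuous_const (continuous_norm.comp continuous_snd))
      · exact ⟨by rw [a1]; norm_num, by rw [a2]; norm_num⟩)
    (by
      rintro a ⟨⟨ha1, ha2, haZ⟩, ha3, ha4⟩ w ⟨hw1, hw2⟩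
      obtain ⟨v', x', y', hD'⟩ := Data_exists hφ hψ hφψ ht0 ht1 haZ
      have h1 := two_sided_cone hφ hψ hφψ ht0 ht1 hD' rfl ha3 ha4 hw1 hw2
      have h2 : Vf W a = (‖a.1‖⁻¹ • v'.1, ‖a.2‖⁻¹ • v'.2) := by
        rw [Vf, hW1 a, hW2 _ _ _ _ hD']
      simp only [ipL_apply, h2]
      exact h1)
    (by
      intro ε hε
      filter_upwards [hdens ε hε] with w hw
      obtain ⟨a, h1, h2, h3, h4⟩ := hw
      exact ⟨a, ⟨h1, h2, h3⟩, h4⟩)
    (ipL.comp B') hp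
  obtain ⟨k1, k2⟩ := key
  constructor
  · intro h k h1 h2 h3 h4
    have := k1 h k
    simp only [ContinuousLinearMap.comp_apply, ipL_apply] at this
    rw [hBB h h1 h2, hBB k h3 h4] at this
    exact this
  · intro h h1 h2
    have := k2 h
    simp only [ContinuousLinearMap.comp_apply, ipL_apply, prj_toProd] at this
    rw [hBB h h1 h2] at this
    have h3 : Vf W z.toProd = v := by
      rw [Vf, a1, a2, hW2 _ _ _ _ hD]
      simp
    rw [h3] at this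
    exact this
end

end Pool.Agent.W553.RCD
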