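import Pool.Agent.W553.RCD.Pt

/-!
# The pointwise inequality, second part: the Hessian bounds
-/

set_option maxHeartbeats 400000

open MeasureTheory Set Filter Topology
open scoped ENNReal NNReal Matrix

namespace Pool.Agent.W553.RCD

theorem third_vector {z e : E3} (hz : ‖z‖ = 1) (he : ‖e‖ = 1) (h : inner ℝ z e = 0) :
    ∃ f, Orthonormal ℝ ![z, e, f] := by
  have hv : Orthonormal ℝ (Set.domRestrict ({0, 1} : Set (Fin 3)) ![z, e, 0]) := by
    have h2 : Orthonormal ℝ ![z, e] := by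
      rw [orthonormal_iff_ite]
      intro i j
      fin_cases i <;> fin_cases j
      · simp [hz]
      · simp [h]
      · simp [real_inner_comm, h]
      · simp [he]
    constructor
    · rintro ⟨i, hi⟩
      simp only [mem_insert_iff, mem_singleton_iff] at hi
      rcases hi with rfl | rfl
      · simp [Set.domRestrict, hz]
      · simp [Set.domRestrict, he]
    · rintro ⟨i, hi⟩ ⟨j, hj⟩ hij
      simp only [mem_insert_iff, mem_singleton_iff] at hi hj
      rcases hi with rfl | rfl <;> rcases hj with rfl | rfl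
      · exact absurd rfl hij
      · simp [Set.domRestrict, h]
      · simp [Set.domRestrict, real_inner_comm, h]
      · exact absurd rfl hij
  obtain ⟨b, hb⟩ := hv.exists_orthonormalBasis_extension_of_card_eq (by simp)
  refine ⟨b 2, ?_⟩
  have h0 : b 0 = z := hb 0 (by simp)
  have h1 : b 1 = e := hb 1 (by simp)
  have : (![z, e, b 2] : Fin 3 → E3) = b := by
    ext i : 1
    fin_cases i
    · exact h0.symm
    · exact h1.symm
    · rfl
  rw [this]
  exact b.orthonormal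

theorem ang_nrm (x : E3) {y : E3} (hy : y ≠ 0) : ang x (nrm y) = ang x y := by
  rw [nrm_eq hy]
  exact InnerProductGeometry.angle_smul_right_of_pos x y (by positivity)

theorem add_smul_ne_zero {z h : E3} (hz : ‖z‖ = 1) (hh : inner ℝ z h = 0) (r : ℝ) :
    z + r • h ≠ 0 := by
  intro h0
  have h1 : inner ℝ z (z + r • h) = 1 := by
    rw [inner_add_right, inner_smul_right, hh, real_inner_self_eq_norm_sq, hz]; norm_num
  rw [h0, inner_zero_right] at h1
  norm_num at h1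

theorem cst_prj (x z : M) (h : E3 × E3) (h1 : inner ℝ z.a h.1 = 0) (h2 : inner ℝ z.b h.2 = 0)
    (r : ℝ) : cst x (prj (z.toProd + r • h)) =
      ((ang x.a (z.a + r • h.1)) ^ 2 + (ang x.b (z.b + r • h.2)) ^ 2) / 2 := by
  rw [cst]
  have e1 : (prj (z.toProd + r • h)).a = nrm (z.a + r • h.1) := rfl
  have e2 : (prj (z.toProd + r • h)).b = nrm (z.b + r • h.2) := rfl
  rw [e1, e2, ang_nrm _ (add_smul_ne_zero z.ha h1 r), ang_nrm _ (add_smul_ne_zero z.hb h2 r)]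

/-- `α cos α / sin α`, with value `1` at `0`. -/
noncomputable def ck (α : ℝ) : ℝ := if α = 0 then 1 else α * Real.cos α / Real.sin α

theorem ck_scale {t θ : ℝ} (ht : 0 < t) :
    ck (t * θ) / t = Real.cos (t * θ) / (if θ = 0 then t else Real.sin (t * θ) / θ) := by
  unfold ck
  by_cases h : θ = 0
  · simp [h]
  · have h1 : t * θ ≠ 0 := mul_ne_zero ht.ne' h
    rw [if_neg h1, if_neg h, div_div_eq_mul_div]
    field_simp

/-- The tangent vector with the coordinates `c`. -/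
noncomputable def tvec (e₁ f₁ e₂ f₂ : E3) (c : Fin 4 → ℝ) : E3 × E3 :=
  (c 0 • e₁ + c 1 • f₁, c 2 • e₂ + c 3 • f₂)

theorem tvec_eq (e₁ f₁ e₂ f₂ : E3) (c : Fin 4 → ℝ) :
    tvec e₁ f₁ e₂ f₂ c = ∑ j, c j • frame e₁ f₁ e₂ f₂ j := by
  rw [Fin.sum_univ_four]
  simp [frame, tvec]

theorem ip_sum_left (v : Fin 4 → E3 × E3) (c : Fin 4 → ℝ) (h : E3 × E3) :
    ip (∑ j, c j • v j) h = ∑ j, c j * ip (v j) h := by
  simp only [ip, Fin.sum_univ_four, Prod.fst_add, Prod.snd_add, Prod.smul_fst, Prod.smul_snd,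
    inner_add_left, inner_smul_left, conj_trivial]
  ring

theorem ip_sum_right (v : Fin 4 → E3 × E3) (c : Fin 4 → ℝ) (h : E3 × E3) :
    ip h (∑ j, c j • v j) = ∑ j, c j * ip h (v j) := by
  simp only [ip, Fin.sum_univ_four, Prod.fst_add, Prod.snd_add, Prod.smul_fst, Prod.smul_snd,
    inner_add_right, inner_smul_right]
  ring

theorem quad_form (B : E3 × E3 →L[ℝ] E3 × E3) (e₁ f₁ e₂ f₂ : E3) (c : Fin 4 → ℝ) :
    c ⬝ᵥ (frameMatrix B (frame e₁ f₁ e₂ f₂) *ᵥ c) =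
      ip (B (tvec e₁ f₁ e₂ f₂ c)) (tvec e₁ f₁ e₂ f₂ c) := by
  rw [tvec_eq, map_sum]
  simp only [map_smul]
  rw [ip_sum_left]
  simp only [ip_sum_right]
  simp only [dotProduct, Matrix.mulVec, frameMatrix, Matrix.of_apply]
  rw [Finset.sum_congr rfl (fun i _ => Finset.mul_sum _ _ _), Finset.sum_comm]
  simp only [Finset.mul_sum, ip]
  refine Finset.sum_congr rfl fun i _ => Finset.sum_congr rfl fun j _ => ?_
  ring

theorem psd_of {κ : Fin 4 → ℝ} {A : Matrix (Fin 4) (Fin 4) ℝ} (hA : A.IsSymm)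
    (h : ∀ c : Fin 4 → ℝ, 0 ≤ ∑ i, κ i * c i ^ 2 + c ⬝ᵥ (A *ᵥ c)) :
    (Matrix.diagonal κ + A).PosSemidef := by
  refine Matrix.PosSemidef.of_dotProduct_mulVec_nonneg ?_ ?_
  · rw [Matrix.IsHermitian, Matrix.conjTranspose_eq_transpose_of_trivial, Matrix.transpose_add,
      Matrix.diagonal_transpose, hA.eq]
  · intro c
    rw [star_trivial, Matrix.add_mulVec, dotProduct_add]
    have e : c ⬝ᵥ (Matrix.diagonal κ *ᵥ c) = ∑ i, κ i * c i ^ 2 := by
      simp only [dotProduct, Matrix.mulVec_diagonal]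
      refine Finset.sum_congr rfl fun i _ => ?_
      ring
    rw [e]
    exact h c

theorem frame_tangent {z : M} {e₁ f₁ e₂ f₂ : E3} (h1 : Orthonormal ℝ ![z.a, e₁, f₁])
    (h2 : Orthonormal ℝ ![z.b, e₂, f₂]) (c : Fin 4 → ℝ) :
    inner ℝ z.a (tvec e₁ f₁ e₂ f₂ c).1 = 0 ∧ inner ℝ z.b (tvec e₁ f₁ e₂ f₂ c).2 = 0 := by
  have a1 : inner ℝ z.a e₁ = 0 := h1.2 (i := 0) (j := 1) (by decide)
  have a2 : inner ℝ z.a f₁ = 0 := h1.2 (i := 0) (j := 2) (by decide)
  have a3 : inner ℝ z.b e₂ = 0 := h2.2 (i := 0) (j := 1) (by decide)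
  have a4 : inner ℝ z.b f₂ = 0 := h2.2 (i := 0) (j := 2) (by decide)
  constructor
  · simp [tvec, inner_add_right, inner_smul_right, a1, a2]
  · simp [tvec, inner_add_right, inner_smul_right, a3, a4]

/-- Second order upper bound for the squared distance, from one side. -/
theorem hess_upper {α₁ α₂ : ℝ} (hα₁ : 0 ≤ α₁) (hα₁' : α₁ < Real.pi) (hα₂ : 0 ≤ α₂)
    (hα₂' : α₂ < Real.pi) {s : ℝ} (hs : 0 < s) {z x : M} {e₁ f₁ e₂ f₂ : E3}
    (o1 : Orthonormal ℝ ![z.a, e₁, f₁]) (o2 : Orthonormal ℝ ![z.b, e₂, f₂])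
    (hx1 : x.a = Real.cos α₁ • z.a - Real.sin α₁ • e₁)
    (hx2 : x.b = Real.cos α₂ • z.b - Real.sin α₂ • e₂) {c : Fin 4 → ℝ} {u : ℝ → ℝ} {l Q : ℝ}
    (hu : ∀ r : ℝ, u r ≤ (cst x (prj (z.toProd + r • tvec e₁ f₁ e₂ f₂ c)) - cst x z) / s)
    (hl : l = (α₁ * c 0 + α₂ * c 2) / s)
    (hQ : Tendsto (fun r : ℝ => (u r - r * l) / r ^ 2) (𝓝[≠] 0) (𝓝 Q)) :
    Q ≤ ((c 0 ^ 2 + ck α₁ * c 1 ^ 2) / 2 + (c 2 ^ 2 + ck α₂ * c 3 ^ 2) / 2) / s := by
  have k1 := W358.AngExp.K9 z.a e₁ f₁ α₁ (c 0) (c 1) o1 hα₁ hα₁'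
  have k2 := W358.AngExp.K9 z.b e₂ f₂ α₂ (c 2) (c 3) o2 hα₂ hα₂'
  rw [← hx1] at k1
  rw [← hx2] at k2
  have k3 := (k1.add k2).div_const s
  obtain ⟨t1, t2⟩ := frame_tangent o1 o2 c
  have e1 : ‖e₁‖ = 1 := o1.1 1
  have e2 : ‖e₂‖ = 1 := o2.1 1
  have i1 : inner ℝ z.a e₁ = 0 := o1.2 (i := 0) (j := 1) (by decide)
  have i2 : inner ℝ z.b e₂ = 0 := o2.2 (i := 0) (j := 1) (by decide)
  have g1 : ang x.a z.a = α₁ := by
    have h0 := ang_circle z.ha (e := -e₁) (by rw [norm_neg, e1]) (by rw [inner_neg_right, i1, neg_zero])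
      (α := α₁) (β := 0) (by
        rw [zero_sub, abs_neg, abs_of_nonneg (by positivity)]; linarith)
    rw [smul_neg, ← sub_eq_add_neg, ← hx1] at h0
    simpa [abs_of_nonneg hα₁] using h0
  have g2 : ang x.b z.b = α₂ := by
    have h0 := ang_circle z.hb (e := -e₂) (by rw [norm_neg, e2]) (by rw [inner_neg_right, i2, neg_zero])
      (α := α₂) (β := 0) (by
        rw [zero_sub, abs_neg, abs_of_nonneg (by positivity)]; linarith)
    rw [smul_neg, ← sub_eq_add_neg, ← hx2] at h0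
    simpa [abs_of_nonneg hα₂] using h0
  refine le_of_tendsto_of_tendsto hQ k3 ?_
  filter_upwards [self_mem_nhdsWithin] with r hr
  have hr2 : 0 < r ^ 2 := by
    have : r ≠ 0 := hr
    positivity
  have h1 := hu r
  rw [cst_prj x z _ t1 t2 r] at h1
  have h2 : cst x z = (α₁ ^ 2 + α₂ ^ 2) / 2 := by rw [cst, g1, g2]
  rw [h2] at h1
  rw [← add_div, div_div, mul_comm (r ^ 2) s, ← div_div]
  refine div_le_div_of_nonneg_right ?_ hr2.le
  rw [hl]
  refine (sub_le_sub_right h1 _).trans (le_of_eq ?_)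
  simp only [tvec]
  field_simp
  ring

end Pool.Agent.W553.RCD
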