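import Pool.Agent.W553.RCD.Pt2

/-!
# The pointwise inequality, third part
-/

set_option maxHeartbeats 400000

open MeasureTheory Set Filter Topology
open scoped ENNReal NNReal Matrix

namespace Pool.Agent.W553.RCD

theorem Fmap_value {W : E3 × E3 → E3 × E3} {z : M} {θ₁ θ₂ : ℝ} {e₁ e₂ : E3} (hθ₁ : 0 ≤ θ₁)
    (hθ₂ : 0 ≤ θ₂) (he₁ : ‖e₁‖ = 1) (he₂ : ‖e₂‖ = 1) (hW : W z.toProd = (θ₁ • e₁, θ₂ • e₂)) (s : ℝ) :
    Fmap W s z.toProd = (Real.cos (s * θ₁) • z.a + Real.sin (s * θ₁) • e₁,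
      Real.cos (s * θ₂) • z.b + Real.sin (s * θ₂) • e₂) := by
  have key : ∀ θ : ℝ, sn s θ * 1 * θ = Real.sin (s * θ) := by
    intro θ
    unfold sn
    by_cases h : θ = 0
    · simp [h]
    · rw [if_neg h]; field_simp
  have n1 : ‖θ₁ • e₁‖ = θ₁ := by rw [norm_smul, he₁, mul_one, Real.norm_eq_abs, abs_of_nonneg hθ₁]
  have n2 : ‖θ₂ • e₂‖ = θ₂ := by rw [norm_smul, he₂, mul_one, Real.norm_eq_abs, abs_of_nonneg hθ₂]
  rw [Fmap, hW]
  simp only [n1, n2, M.toProd, z.ha, z.hb, smul_smul, key]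

theorem orthonormal_neg_mid {z e f : E3} (h : Orthonormal ℝ ![z, e, f]) :
    Orthonormal ℝ ![z, -e, f] := by
  have a0 : ‖z‖ = 1 := h.1 0
  have a1 : ‖e‖ = 1 := h.1 1
  have a2 : ‖f‖ = 1 := h.1 2
  have b01 : inner ℝ z e = 0 := h.2 (i := 0) (j := 1) (by decide)
  have b02 : inner ℝ z f = 0 := h.2 (i := 0) (j := 2) (by decide)
  have b12 : inner ℝ e f = 0 := h.2 (i := 1) (j := 2) (by decide)
  have b10 : inner ℝ e z = 0 := h.2 (i := 1) (j := 0) (by decide)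
  have b20 : inner ℝ f z = 0 := h.2 (i := 2) (j := 0) (by decide)
  have b21 : inner ℝ f e = 0 := h.2 (i := 2) (j := 1) (by decide)
  constructor
  · intro i
    fin_cases i
    · exact a0
    · exact (norm_neg e).trans a1
    · exact a2
  · intro i j hij
    fin_cases i <;> fin_cases j
    · exact absurd rfl hij
    · exact (inner_neg_right z e).trans (by rw [b01, neg_zero])
    · exact b02
    · exact (inner_neg_left e z).trans (by rw [b10, neg_zero])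
    · exact absurd rfl hij
    · exact (inner_neg_left e f).trans (by rw [b12, neg_zero])
    · exact b20
    · exact (inner_neg_right f e).trans (by rw [b21, neg_zero])
    · exact absurd rfl hij

theorem sg_nonneg_aux {θ₁ θ₂ : ℝ} (hθ₁ : 0 ≤ θ₁) (hθ₂ : 0 ≤ θ₂) (hθ₁' : θ₁ ≤ Real.pi)
    (hθ₂' : θ₂ ≤ Real.pi) {N s : ℝ} (hN : 4 ≤ N) (hs0 : 0 ≤ s) (hs1 : s ≤ 1) :
    0 ≤ sg s (√((θ₁ ^ 2 + θ₂ ^ 2) / (N - 1))) := by
  have hN1 : 0 < N - 1 := by linarith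
  have hpi := Real.pi_pos
  have hlt : θ₁ ^ 2 + θ₂ ^ 2 < (N - 1) * Real.pi ^ 2 := by
    have a1 : θ₁ ^ 2 ≤ Real.pi ^ 2 := by gcongr
    have a2 : θ₂ ^ 2 ≤ Real.pi ^ 2 := by gcongr
    nlinarith [sq_nonneg Real.pi, mul_nonneg (show (0 : ℝ) ≤ N - 4 by linarith) (sq_nonneg Real.pi),
      pow_pos hpi 2]
  have hΘ0 : 0 ≤ √((θ₁ ^ 2 + θ₂ ^ 2) / (N - 1)) := Real.sqrt_nonneg _
  have hΘ1 : √((θ₁ ^ 2 + θ₂ ^ 2) / (N - 1)) < Real.pi := by
    rw [Real.sqrt_lt' hpi, div_lt_iff₀ hN1]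
    linarith
  unfold sg
  split_ifs with h
  · exact hs0
  · have := mul_nonneg hs0 hΘ0
    exact div_nonneg (Real.sin_nonneg_of_nonneg_of_le_pi this (by nlinarith))
      (Real.sin_nonneg_of_nonneg_of_le_pi hΘ0 hΘ1.le)

/-- The coefficient `τ` in the range of distances that occur. -/
theorem tau_eq {x y : XX} {θ₁ θ₂ : ℝ} (h1 : θ₁ = ang x.1.a y.1.a) (h2 : θ₂ = ang x.1.b y.1.b)
    {N s : ℝ} (hN : 4 ≤ N) (hs0 : 0 ≤ s) (hs1 : s ≤ 1) :
    tau 3 N s (dist x y) =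
      ENNReal.ofReal (s ^ (1 / N) * sg s (√((θ₁ ^ 2 + θ₂ ^ 2) / (N - 1))) ^ (1 - 1 / N)) := by
  have hd : 3 * dist x y ^ 2 = θ₁ ^ 2 + θ₂ ^ 2 := by
    rw [h1, h2, Subtype.dist_eq, M.dist_sq]
  have hN1 : 0 < N - 1 := by linarith
  have hexp : 0 ≤ 1 - 1 / N := by
    have : 1 / N ≤ 1 := by rw [div_le_one (by linarith)]; linarith
    linarith
  have hexp' : 0 ≤ 1 / N := by positivity
  have hpi := Real.pi_pos
  have hθ₁ : 0 ≤ θ₁ := by rw [h1]; exact ang_nonneg _ _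
  have hθ₂ : 0 ≤ θ₂ := by rw [h2]; exact ang_nonneg _ _
  have hθ₁' : θ₁ ≤ Real.pi := by rw [h1]; exact ang_le_pi _ _
  have hθ₂' : θ₂ ≤ Real.pi := by rw [h2]; exact ang_le_pi _ _
  have hlt : θ₁ ^ 2 + θ₂ ^ 2 < (N - 1) * Real.pi ^ 2 := by
    have a1 : θ₁ ^ 2 ≤ Real.pi ^ 2 := by gcongr
    have a2 : θ₂ ^ 2 ≤ Real.pi ^ 2 := by gcongr
    nlinarith [sq_nonneg Real.pi, mul_nonneg (show (0 : ℝ) ≤ N - 4 by linarith) (sq_nonneg Real.pi),
      pow_pos hpi 2]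
  set Θ := √((θ₁ ^ 2 + θ₂ ^ 2) / (N - 1)) with hΘ
  have hΘ0 : 0 ≤ Θ := Real.sqrt_nonneg _
  have hΘ1 : Θ < Real.pi := by
    rw [hΘ, Real.sqrt_lt' hpi, div_lt_iff₀ hN1]
    linarith
  have hsg : 0 ≤ sg s Θ := by
    unfold sg
    split_ifs with h
    · exact hs0
    · have : 0 ≤ s * Θ := mul_nonneg hs0 hΘ0
      exact div_nonneg (Real.sin_nonneg_of_nonneg_of_le_pi this (by nlinarith))
        (Real.sin_nonneg_of_nonneg_of_le_pi hΘ0 hΘ1.le)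
  have hsig : sigma 3 (N - 1) s (dist x y) = ENNReal.ofReal (sg s Θ) := by
    unfold sigma
    rw [hd, if_neg (not_le.2 hlt)]
    have hdist : dist x y * √(3 / (N - 1)) = Θ := by
      rw [hΘ, ← hd, mul_comm 3, mul_div_assoc, Real.sqrt_mul (sq_nonneg _), Real.sqrt_sq dist_nonneg]
    by_cases h0 : 0 < θ₁ ^ 2 + θ₂ ^ 2
    · rw [if_pos h0, mul_assoc, hdist]
      have hΘp : Θ ≠ 0 := by
        have : 0 < Θ := Real.sqrt_pos.2 (div_pos h0 hN1)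
        exact this.ne'
      rw [sg, if_neg hΘp]
    · have h00 : θ₁ ^ 2 + θ₂ ^ 2 = 0 := le_antisymm (not_lt.1 h0) (by positivity)
      rw [if_neg h0, if_pos h00]
      have hΘz : Θ = 0 := by rw [hΘ, h00]; simp
      rw [sg, if_pos hΘz]
  rw [tau, hsig, ENNReal.ofReal_rpow_of_nonneg hs0 hexp', ENNReal.ofReal_rpow_of_nonneg hsg hexp,
    ← ENNReal.ofReal_mul (Real.rpow_nonneg hs0 _)]

section
variable {φ ψ : XX → ℝ} (hφ : Continuous φ) (hψ : Continuous ψ)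
  (hφψ : ∀ x y : XX, φ x + ψ y ≤ cst x.1 y.1) {t : ℝ} (ht0 : 0 < t) (ht1 : t < 1)
  {W : E3 × E3 → E3 × E3} (hW0 : ∀ y, inner ℝ (W y).1 y.1 = 0 ∧ inner ℝ (W y).2 y.2 = 0)
  (hW1 : ∀ y, W y = W (prj y).toProd)
  (hW2 : ∀ (z : M) (v : E3 × E3) (x y : XX), Data φ ψ t z v x y → W z.toProd = v)

include hW2 in
/-- The end points are given by the exponential map along the field. -/
theorem endpoints {z : M} {v : E3 × E3} {x y : XX} (hD : Data φ ψ t z v x y) :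
    Fmap W (-t) z.toProd = x.1.toProd ∧ Fmap W (1 - t) z.toProd = y.1.toProd := by
  have hWz := hW2 z v x y hD
  obtain ⟨θ₁, θ₂, e₁, e₂, ⟨p1, p2, p3, p4, p5, p6, p7⟩, ⟨q1, q2, q3, q4, q5, q6, q7⟩, rfl, -, -, -⟩ := hD
  constructor
  · rw [Fmap_value p1 q1 p4 q4 hWz]
    rw [M.toProd, p6, q6]
    simp [sub_eq_add_neg]
  · rw [Fmap_value p1 q1 p4 q4 hWz, M.toProd, p7, q7]

include hφ hψ hφψ ht0 ht1 hW0 hW1 hW2 in
theorem pointwise {z : M} {v : E3 × E3} {x y : XX} (hD : Data φ ψ t z v x y)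
    (hB : DifferentiableAt ℝ W z.toProd)
    (hdens : ∀ ε > 0, ∀ᶠ w in 𝓝 z.toProd, ∃ a : E3 × E3, a.1 ≠ 0 ∧ a.2 ≠ 0 ∧
      prj a ∈ Zs φ ψ t ∧ ‖w - a‖ ≤ ε * ‖w - z.toProd‖) :
    DifferentiableAt ℝ (Fmap W (-t)) z.toProd ∧ DifferentiableAt ℝ (Fmap W (1 - t)) z.toProd ∧
    ∀ N : ℝ, 4 ≤ N → (fderiv ℝ (Fmap W (-t)) z.toProd).det ≠ 0 →
      tau 3 N (1 - t) (dist x y) *
          ENNReal.ofReal |(fderiv ℝ (Fmap W (-t)) z.toProd).det| ^ (1 / N) +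
        tau 3 N t (dist x y) *
          ENNReal.ofReal |(fderiv ℝ (Fmap W (1 - t)) z.toProd).det| ^ (1 / N) ≤ 1 := by
  obtain ⟨B, hB⟩ := hB
  have hWz := hW2 z v x y hD
  obtain ⟨so1, so2⟩ := second_order hφ hψ hφψ ht0 ht1 hW1 hW2 hD hB hdens
  obtain ⟨θ₁, θ₂, e₁, e₂, ⟨p1, p2, p3, p4, p5, p6, p7⟩, ⟨q1, q2, q3, q4, q5, q6, q7⟩, rfl, hU, hV, hUV⟩ := hD
  have hu : 0 < 1 - t := by linarith
  obtain ⟨f₁, o1⟩ := third_vector z.ha p4 p5
  obtain ⟨f₂, o2⟩ := third_vector z.hb q4 q5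
  have on1 : Orthonormal ℝ ![z.a, -e₁, f₁] := orthonormal_neg_mid o1
  have on2 : Orthonormal ℝ ![z.b, -e₂, f₂] := orthonormal_neg_mid o2
  set A := frameMatrix B (frame e₁ f₁ e₂ f₂) with hA
  -- symmetry
  have htan : ∀ i, inner ℝ z.a (frame e₁ f₁ e₂ f₂ i).1 = 0 ∧ inner ℝ z.b (frame e₁ f₁ e₂ f₂ i).2 = 0 := by
    intro i
    have := frame_tangent o1 o2 (Pi.single i 1)
    have e : tvec e₁ f₁ e₂ f₂ (Pi.single i 1) = frame e₁ f₁ e₂ f₂ i := by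
      rw [tvec_eq]
      simp [Pi.single_apply]
    rwa [e] at this
  have hsymm : A.IsSymm := by
    ext i j
    have := so1 (frame e₁ f₁ e₂ f₂ i) (frame e₁ f₁ e₂ f₂ j) (htan i).1 (htan i).2 (htan j).1 (htan j).2
    simp only [Matrix.transpose_apply, hA, frameMatrix, Matrix.of_apply]
    exact this
  -- first Hessian bound
  have hess0 : ∀ c : Fin 4 → ℝ, c ⬝ᵥ (A *ᵥ c) ≤
      (c 0 ^ 2 + ck (t * θ₁) * c 1 ^ 2 + c 2 ^ 2 + ck (t * θ₂) * c 3 ^ 2) / t := by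
    intro c
    obtain ⟨t1, t2⟩ := frame_tangent o1 o2 c
    have h1 := so2 (tvec e₁ f₁ e₂ f₂ c) t1 t2
    have h2 := hess_upper (α₁ := t * θ₁) (α₂ := t * θ₂) (by positivity) (by nlinarith [Real.pi_pos])
      (by positivity) (by nlinarith [Real.pi_pos]) ht0 (x := x.1) o1 o2 p6 q6
      (c := c) (u := fun r => Uf φ t (prj (z.toProd + r • tvec e₁ f₁ e₂ f₂ c)) - Uf φ t z)
      (l := ip (θ₁ • e₁, θ₂ • e₂) (tvec e₁ f₁ e₂ f₂ c)) (Q := ip (B (tvec e₁ f₁ e₂ f₂ c)) (tvec e₁ f₁ e₂ f₂ c) / 2)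
      (fun r => by
        have h3 := Uf_le (s := t) hφ (prj (z.toProd + r • tvec e₁ f₁ e₂ f₂ c)) x
        simp only
        rw [hU, sub_div]
        linarith)
      (by
        have a1 : inner ℝ e₁ e₁ = (1 : ℝ) := by rw [real_inner_self_eq_norm_sq, p4]; norm_num
        have a2 : inner ℝ e₂ e₂ = (1 : ℝ) := by rw [real_inner_self_eq_norm_sq, q4]; norm_num
        have a3 : inner ℝ e₁ f₁ = 0 := o1.2 (i := 1) (j := 2) (by decide)
        have a4 : inner ℝ e₂ f₂ = 0 := o2.2 (i := 1) (j := 2) (by decide)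
        simp only [ip, tvec, inner_smul_left, inner_add_right, inner_smul_right, a1, a2, a3, a4,
          conj_trivial]
        field_simp
        ring)
      h1
    rw [hA, quad_form]
    have e : (c 0 ^ 2 + ck (t * θ₁) * c 1 ^ 2 + c 2 ^ 2 + ck (t * θ₂) * c 3 ^ 2) / t =
      2 * (((c 0 ^ 2 + ck (t * θ₁) * c 1 ^ 2) / 2 + (c 2 ^ 2 + ck (t * θ₂) * c 3 ^ 2) / 2) / t) := by
      ring
    rw [e]
    linarith
  -- second Hessian bound
  have hess1 : ∀ c : Fin 4 → ℝ, -(c ⬝ᵥ (A *ᵥ c)) ≤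
      (c 0 ^ 2 + ck ((1 - t) * θ₁) * c 1 ^ 2 + c 2 ^ 2 + ck ((1 - t) * θ₂) * c 3 ^ 2) / (1 - t) := by
    intro c
    obtain ⟨t1, t2⟩ := frame_tangent o1 o2 c
    have h1 := (so2 (tvec e₁ f₁ e₂ f₂ c) t1 t2).neg
    have ec : tvec (-e₁) f₁ (-e₂) f₂ ![-c 0, c 1, -c 2, c 3] = tvec e₁ f₁ e₂ f₂ c := by
      simp [tvec]
    have h2 := hess_upper (α₁ := (1 - t) * θ₁) (α₂ := (1 - t) * θ₂) (by positivity)
      (by nlinarith [Real.pi_pos]) (by positivity) (by nlinarith [Real.pi_pos]) hu (x := y.1) on1 on2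
      (by rw [smul_neg, sub_neg_eq_add]; exact p7) (by rw [smul_neg, sub_neg_eq_add]; exact q7)
      (c := ![-c 0, c 1, -c 2, c 3])
      (u := fun r => -(Uf φ t (prj (z.toProd + r • tvec e₁ f₁ e₂ f₂ c)) - Uf φ t z))
      (l := -ip (θ₁ • e₁, θ₂ • e₂) (tvec e₁ f₁ e₂ f₂ c))
      (Q := -(ip (B (tvec e₁ f₁ e₂ f₂ c)) (tvec e₁ f₁ e₂ f₂ c) / 2))
      (fun r => by
        rw [ec]
        have h3 := Uf_le (s := 1 - t) hψ (prj (z.toProd + r • tvec e₁ f₁ e₂ f₂ c)) y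
        have h4 := UV_nonneg hφ hψ hφψ ht0 ht1 (prj (z.toProd + r • tvec e₁ f₁ e₂ f₂ c))
        simp only
        rw [sub_div]
        linarith)
      (by
        have a1 : inner ℝ e₁ e₁ = (1 : ℝ) := by rw [real_inner_self_eq_norm_sq, p4]; norm_num
        have a2 : inner ℝ e₂ e₂ = (1 : ℝ) := by rw [real_inner_self_eq_norm_sq, q4]; norm_num
        have a3 : inner ℝ e₁ f₁ = 0 := o1.2 (i := 1) (j := 2) (by decide)
        have a4 : inner ℝ e₂ f₂ = 0 := o2.2 (i := 1) (j := 2) (by decide)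
        simp only [ip, tvec, inner_smul_left, inner_add_right, inner_smul_right, a1, a2, a3, a4,
          conj_trivial, Matrix.cons_val_zero, Matrix.cons_val_one, Matrix.cons_val]
        field_simp
        ring)
      (by
        refine h1.congr fun r => ?_
        ring)
    simp only [Matrix.cons_val_zero, Matrix.cons_val_one, Matrix.cons_val] at h2
    rw [hA, quad_form]
    have e : (c 0 ^ 2 + ck ((1 - t) * θ₁) * c 1 ^ 2 + c 2 ^ 2 + ck ((1 - t) * θ₂) * c 3 ^ 2) / (1 - t) =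
      2 * ((((-c 0) ^ 2 + ck ((1 - t) * θ₁) * c 1 ^ 2) / 2 +
        ((-c 2) ^ 2 + ck ((1 - t) * θ₂) * c 3 ^ 2) / 2) / (1 - t)) := by
      ring
    rw [e]
    linarith
  have hnegt : ∀ θ : ℝ, sn (-t) θ = -(if θ = 0 then t else Real.sin (t * θ) / θ) := by
    intro θ
    unfold sn
    split_ifs with h
    · rfl
    · rw [neg_mul, Real.sin_neg, neg_div]
  set C₀ : Fin 4 → ℝ := ![1, Real.cos (t * θ₁), 1, Real.cos (t * θ₂)] with hC₀
  set C₁ : Fin 4 → ℝ := ![1, Real.cos ((1 - t) * θ₁), 1, Real.cos ((1 - t) * θ₂)] with hC₁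
  set S₀ : Fin 4 → ℝ := ![t, (if θ₁ = 0 then t else Real.sin (t * θ₁) / θ₁), t,
      (if θ₂ = 0 then t else Real.sin (t * θ₂) / θ₂)] with hS₀
  set S₁ : Fin 4 → ℝ := ![1 - t, (if θ₁ = 0 then 1 - t else Real.sin ((1 - t) * θ₁) / θ₁), 1 - t,
      (if θ₂ = 0 then 1 - t else Real.sin ((1 - t) * θ₂) / θ₂)] with hS₁
  have psd0 : (Matrix.diagonal (fun i => C₀ i / S₀ i) - A).PosSemidef := by
    rw [sub_eq_add_neg]
    refine psd_of (by rw [Matrix.IsSymm, Matrix.transpose_neg, hsymm.eq]) fun c => ?_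
    have h1 := hess0 c
    have e1 : ∑ i, C₀ i / S₀ i * c i ^ 2 =
        (c 0 ^ 2 + ck (t * θ₁) * c 1 ^ 2 + c 2 ^ 2 + ck (t * θ₂) * c 3 ^ 2) / t := by
      rw [Fin.sum_univ_four]
      simp only [hC₀, hS₀, Matrix.cons_val_zero, Matrix.cons_val_one, Matrix.cons_val]
      rw [← ck_scale ht0, ← ck_scale ht0]
      ring
    rw [e1, Matrix.neg_mulVec, dotProduct_neg]
    linarith
  have psd1 : (Matrix.diagonal (fun i => C₁ i / S₁ i) + A).PosSemidef := by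
    refine psd_of hsymm fun c => ?_
    have h1 := hess1 c
    have e1 : ∑ i, C₁ i / S₁ i * c i ^ 2 =
        (c 0 ^ 2 + ck ((1 - t) * θ₁) * c 1 ^ 2 + c 2 ^ 2 + ck ((1 - t) * θ₂) * c 3 ^ 2) / (1 - t) := by
      rw [Fin.sum_univ_four]
      simp only [hC₁, hS₁, Matrix.cons_val_zero, Matrix.cons_val_one, Matrix.cons_val]
      rw [← ck_scale hu, ← ck_scale hu]
      ring
    rw [e1]
    linarith
  obtain ⟨D₀, hD₀, hdet₀⟩ := W358.ExpDet.K10 W (-t) θ₁ θ₂ z e₁ f₁ e₂ f₂ B hW0 o1 o2 p1 q1 hWz hB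
  obtain ⟨D₁, hD₁, hdet₁⟩ := W358.ExpDet.K10 W (1 - t) θ₁ θ₂ z e₁ f₁ e₂ f₂ B hW0 o1 o2 p1 q1 hWz hB
  refine ⟨hD₀.differentiableAt, hD₁.differentiableAt, ?_⟩
  rw [hD₀.fderiv, hD₁.fderiv]
  intro N hN hne
  obtain ⟨k1, k2, k3, k4⟩ := W358.JacDet.K7 t θ₁ θ₂ N A ht0 ht1 p1 p2 q1 q2 hN hsymm C₀ C₁ S₀ S₁
    rfl rfl rfl rfl psd0 psd1
  have m0 : (Matrix.diagonal ![1, Real.cos (-t * θ₁), 1, Real.cos (-t * θ₂)] +
        Matrix.diagonal ![-t, sn (-t) θ₁, -t, sn (-t) θ₂] * frameMatrix B (frame e₁ f₁ e₂ f₂)) =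
      Matrix.diagonal C₀ - Matrix.diagonal S₀ * A := by
    have e1 : (![1, Real.cos (-t * θ₁), 1, Real.cos (-t * θ₂)] : Fin 4 → ℝ) = C₀ := by
      simp [hC₀]
    have e2 : (![-t, sn (-t) θ₁, -t, sn (-t) θ₂] : Fin 4 → ℝ) = -S₀ := by
      rw [hnegt, hnegt, hS₀]
      ext i
      fin_cases i <;> simp
    have e3 : Matrix.diagonal (-S₀) = -Matrix.diagonal S₀ := (Matrix.diagonal_neg S₀).symm
    rw [e1, e2, ← hA, e3, Matrix.neg_mul, sub_eq_add_neg]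
  have m1 : (Matrix.diagonal ![1, Real.cos ((1 - t) * θ₁), 1, Real.cos ((1 - t) * θ₂)] +
        Matrix.diagonal ![1 - t, sn (1 - t) θ₁, 1 - t, sn (1 - t) θ₂] *
          frameMatrix B (frame e₁ f₁ e₂ f₂)) =
      Matrix.diagonal C₁ + Matrix.diagonal S₁ * A := rfl
  rw [m0, abs_of_nonneg k1] at hdet₀
  rw [m1, abs_of_nonneg k2] at hdet₁
  rw [hdet₀, hdet₁]
  have hlt1 : θ₁ < Real.pi := by
    refine lt_of_le_of_ne p2 fun h => ?_
    have := (k3 (Or.inl h)).1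
    rw [← hdet₀, abs_eq_zero] at this
    exact hne this
  have hlt2 : θ₂ < Real.pi := by
    refine lt_of_le_of_ne q2 fun h => ?_
    have := (k3 (Or.inr h)).1
    rw [← hdet₀, abs_eq_zero] at this
    exact hne this
  have k5 := k4 hlt1 hlt2
  rw [tau_eq p3 q3 hN hu.le (by linarith), tau_eq p3 q3 hN ht0.le ht1.le,
    ENNReal.ofReal_rpow_of_nonneg k1 (by positivity), ENNReal.ofReal_rpow_of_nonneg k2 (by positivity),
    ← ENNReal.ofReal_mul', ← ENNReal.ofReal_mul', ← ENNReal.ofReal_add]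
  · rw [← ENNReal.ofReal_one]
    exact ENNReal.ofReal_le_ofReal k5
  · have hsg := sg_nonneg_aux p1 q1 p2 q2 hN hu.le (by linarith)
    positivity
  · have hsg := sg_nonneg_aux p1 q1 p2 q2 hN ht0.le ht1.le
    positivity
  · positivity
  · positivity

end

end Pool.Agent.W553.RCD
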