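import Pool.Agent.W553.RCD.Defs

/-!
# The space: product of two round two-spheres of radius `1/√3`, and its half
-/

open MeasureTheory Set Filter Topology
open scoped ENNReal NNReal

namespace Pool.Agent.W553.RCD

/-- Euclidean three-space. -/
abbrev E3 : Type := EuclideanSpace ℝ (Fin 3)

/-- The angle of two vectors, i.e. the distance on the unit sphere. -/
noncomputable abbrev ang (x y : E3) : ℝ := InnerProductGeometry.angle x y

/-- Pairs of unit vectors. -/
@[ext] structure M : Type where
  a : E3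
  b : E3
  ha : ‖a‖ = 1
  hb : ‖b‖ = 1

theorem ang_self {x : E3} (hx : ‖x‖ = 1) : ang x x = 0 :=
  InnerProductGeometry.angle_self (by rintro rfl; simp at hx)

theorem cos_ang {x y : E3} (hx : ‖x‖ = 1) (hy : ‖y‖ = 1) :
    Real.cos (ang x y) = inner ℝ x y := by
  rw [InnerProductGeometry.cos_angle, hx, hy]; simp

theorem norm_sub_sq_unit {x y : E3} (hx : ‖x‖ = 1) (hy : ‖y‖ = 1) :
    ‖x - y‖ ^ 2 = 2 - 2 * Real.cos (ang x y) := by
  rw [cos_ang hx hy, norm_sub_sq_real, hx, hy]; ring

theorem ang_nonneg (x y : E3) : 0 ≤ ang x y := InnerProductGeometry.angle_nonneg _ _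

theorem ang_le_pi (x y : E3) : ang x y ≤ Real.pi := InnerProductGeometry.angle_le_pi _ _

theorem ang_comm (x y : E3) : ang x y = ang y x := InnerProductGeometry.angle_comm _ _

theorem ang_triangle (x y z : E3) : ang x z ≤ ang x y + ang y z :=
  InnerProductGeometry.angle_le_angle_add_angle _ _ _

/-- chord `≤` arc -/
theorem norm_sub_le_ang {x y : E3} (hx : ‖x‖ = 1) (hy : ‖y‖ = 1) : ‖x - y‖ ≤ ang x y := by
  refine le_of_sq_le_sq ?_ (ang_nonneg _ _)
  rw [norm_sub_sq_unit hx hy]
  have := Real.one_sub_sq_div_two_le_cos (x := ang x y)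
  linarith

/-- arc `≤ (π/2)` chord -/
theorem ang_le_norm_sub {x y : E3} (hx : ‖x‖ = 1) (hy : ‖y‖ = 1) :
    ang x y ≤ Real.pi / 2 * ‖x - y‖ := by
  refine le_of_sq_le_sq ?_ (by positivity)
  rw [mul_pow, norm_sub_sq_unit hx hy]
  have h := Real.cos_le_one_sub_mul_cos_sq (x := ang x y)
    (by rw [abs_of_nonneg (ang_nonneg _ _)]; exact ang_le_pi _ _)
  have hpi := Real.pi_pos
  have : (ang x y) ^ 2 = (Real.pi / 2) ^ 2 * (2 * (2 / Real.pi ^ 2 * (ang x y) ^ 2)) := by
    field_simp
  rw [this]
  have h2 : 0 ≤ (Real.pi / 2) ^ 2 := by positivity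
  exact mul_le_mul_of_nonneg_left (by linarith) h2

theorem ang_eq_zero {x y : E3} (hx : ‖x‖ = 1) (hy : ‖y‖ = 1) (h : ang x y = 0) : x = y := by
  have := norm_sub_le_ang hx hy
  rw [h] at this
  exact sub_eq_zero.1 (norm_le_zero_iff.1 this)

noncomputable instance : Dist M :=
  ⟨fun p q => √((ang p.a q.a) ^ 2 + (ang p.b q.b) ^ 2) / √3⟩

theorem M.dist_def (p q : M) : dist p q = √((ang p.a q.a) ^ 2 + (ang p.b q.b) ^ 2) / √3 := rfl

theorem minkowski2 (a b c d : ℝ) : √((a + c) ^ 2 + (b + d) ^ 2) ≤ √(a ^ 2 + b ^ 2) + √(c ^ 2 + d ^ 2) := by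
  have h := norm_add_le (WithLp.toLp 2 (a, b) : WithLp 2 (ℝ × ℝ)) (WithLp.toLp 2 (c, d))
  rw [WithLp.prod_norm_eq_of_L2, WithLp.prod_norm_eq_of_L2, WithLp.prod_norm_eq_of_L2] at h
  simpa using h

noncomputable instance : MetricSpace M where
  dist_self p := by rw [M.dist_def, ang_self p.ha, ang_self p.hb]; simp
  dist_comm p q := by rw [M.dist_def, M.dist_def, ang_comm p.a, ang_comm p.b]
  dist_triangle p q r := by
    rw [M.dist_def, M.dist_def, M.dist_def, ← add_div]
    refine div_le_div_of_nonneg_right ?_ (Real.sqrt_nonneg _)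
    refine le_trans (Real.sqrt_le_sqrt ?_) (minkowski2 _ _ _ _)
    have h1 := ang_triangle p.a q.a r.a
    have h2 := ang_triangle p.b q.b r.b
    have h3 := ang_nonneg p.a r.a
    have h4 := ang_nonneg p.b r.b
    gcongr
  eq_of_dist_eq_zero := by
    intro p q h
    rw [M.dist_def, div_eq_zero_iff] at h
    have h3 : (√3 : ℝ) ≠ 0 := by positivity
    have h := h.resolve_right h3
    rw [Real.sqrt_eq_zero (by positivity)] at h
    have h1 : ang p.a q.a = 0 := by nlinarith [sq_nonneg (ang p.a q.a), sq_nonneg (ang p.b q.b)]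
    have h2 : ang p.b q.b = 0 := by nlinarith [sq_nonneg (ang p.a q.a), sq_nonneg (ang p.b q.b)]
    exact M.ext (ang_eq_zero p.ha q.ha h1) (ang_eq_zero p.hb q.hb h2)

noncomputable instance : MeasurableSpace M := borel M
instance : BorelSpace M := ⟨rfl⟩

/-- `3 d² = θ₁² + θ₂²` -/
theorem M.dist_sq (p q : M) : 3 * dist p q ^ 2 = (ang p.a q.a) ^ 2 + (ang p.b q.b) ^ 2 := by
  rw [M.dist_def, div_pow, Real.sq_sqrt (by positivity), Real.sq_sqrt (by positivity)]
  ring

/-- The underlying pair of vectors. -/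
def M.toProd (p : M) : E3 × E3 := (p.a, p.b)

theorem M.norm_sub_le (p q : M) : ‖p.toProd - q.toProd‖ ≤ √3 * dist p q := by
  have h3 : (0 : ℝ) < √3 := by positivity
  have key : √3 * dist p q = √((ang p.a q.a) ^ 2 + (ang p.b q.b) ^ 2) := by
    rw [M.dist_def]; field_simp
  rw [key, Prod.norm_def]
  refine max_le ?_ ?_
  · exact (norm_sub_le_ang p.ha q.ha).trans (Real.le_sqrt_of_sq_le (by nlinarith [sq_nonneg (ang p.b q.b)]))
  · exact (norm_sub_le_ang p.hb q.hb).trans (Real.le_sqrt_of_sq_le (by nlinarith [sq_nonneg (ang p.a q.a)]))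

theorem M.dist_le (p q : M) : dist p q ≤ 2 * ‖p.toProd - q.toProd‖ := by
  rw [M.dist_def, div_le_iff₀ (by positivity)]
  have h1 := ang_le_norm_sub p.ha q.ha
  have h2 := ang_le_norm_sub p.hb q.hb
  have h3 : ‖p.a - q.a‖ ≤ ‖p.toProd - q.toProd‖ := norm_fst_le (p.toProd - q.toProd)
  have h4 : ‖p.b - q.b‖ ≤ ‖p.toProd - q.toProd‖ := norm_snd_le (p.toProd - q.toProd)
  set N := ‖p.toProd - q.toProd‖
  have hN : 0 ≤ N := norm_nonneg _
  have hpi : Real.pi ≤ 3.15 := Real.pi_lt_d2.le
  have h5 : ang p.a q.a ≤ 1.6 * N := by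
    refine h1.trans ?_
    have := Real.pi_pos
    calc Real.pi / 2 * ‖p.a - q.a‖ ≤ 1.6 * ‖p.a - q.a‖ := by gcongr; linarith
      _ ≤ 1.6 * N := by gcongr
  have h6 : ang p.b q.b ≤ 1.6 * N := by
    refine h2.trans ?_
    have := Real.pi_pos
    calc Real.pi / 2 * ‖p.b - q.b‖ ≤ 1.6 * ‖p.b - q.b‖ := by gcongr; linarith
      _ ≤ 1.6 * N := by gcongr
  have h7 := ang_nonneg p.a q.a
  have h8 := ang_nonneg p.b q.b
  refine Real.sqrt_le_iff.2 ⟨by positivity, ?_⟩
  have h9 : (2 * N * √3) ^ 2 = 12 * N ^ 2 := by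
    rw [mul_pow, Real.sq_sqrt (by norm_num)]; ring
  rw [h9]
  nlinarith

theorem M.continuous_toProd : Continuous M.toProd := by
  have : LipschitzWith (Real.toNNReal √3) M.toProd := by
    refine LipschitzWith.of_dist_le_mul fun p q => ?_
    rw [dist_eq_norm, Real.coe_toNNReal _ (Real.sqrt_nonneg _)]
    exact M.norm_sub_le p q
  exact this.continuous

theorem M.continuous_a : Continuous M.a := continuous_fst.comp M.continuous_toProd
theorem M.continuous_b : Continuous M.b := continuous_snd.comp M.continuous_toProd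

theorem M.toProd_injective : Function.Injective M.toProd := by
  intro p q h
  exact M.ext (congrArg Prod.fst h) (congrArg Prod.snd h)

theorem M.isEmbedding_toProd : IsEmbedding M.toProd := by
  have h : AntilipschitzWith 2 M.toProd := by
    refine AntilipschitzWith.of_le_mul_dist fun p q => ?_
    rw [dist_eq_norm]
    exact M.dist_le p q
  exact h.isEmbedding (by
    have : LipschitzWith (Real.toNNReal √3) M.toProd := by
      refine LipschitzWith.of_dist_le_mul fun p q => ?_
      rw [dist_eq_norm, Real.coe_toNNReal _ (Real.sqrt_nonneg _)]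
      exact M.norm_sub_le p q
    exact this.continuous)

theorem M.range_toProd : range M.toProd = Metric.sphere (0 : E3) 1 ×ˢ Metric.sphere (0 : E3) 1 := by
  ext x
  constructor
  · rintro ⟨p, rfl⟩
    simp [M.toProd, p.ha, p.hb]
  · intro h
    simp only [mem_prod, mem_sphere_iff_norm, sub_zero] at h
    exact ⟨⟨x.1, x.2, h.1, h.2⟩, rfl⟩

instance : CompactSpace M := by
  rw [← isCompact_univ_iff, M.isEmbedding_toProd.isCompact_iff, image_univ, M.range_toProd]
  exact (isCompact_sphere _ _).prod (isCompact_sphere _ _)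

/-- The first standard basis vector. -/
noncomputable def e0 : E3 := EuclideanSpace.single 0 1

theorem norm_e0 : ‖e0‖ = 1 := by simp [e0]

/-- The radial projection of a nonzero vector to the unit sphere (with value `e0` at `0`). -/
noncomputable def nrm (y : E3) : E3 := if y = 0 then e0 else ‖y‖⁻¹ • y

theorem norm_nrm (y : E3) : ‖nrm y‖ = 1 := by
  unfold nrm
  split_ifs with h
  · exact norm_e0
  · rw [norm_smul, norm_inv, norm_norm, inv_mul_cancel₀ (norm_ne_zero_iff.2 h)]

theorem nrm_of_norm_one {y : E3} (h : ‖y‖ = 1) : nrm y = y := by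
  have h0 : y ≠ 0 := by rintro rfl; simp at h
  simp [nrm, h0, h]

theorem nrm_smul {r : ℝ} (hr : 0 < r) (y : E3) : nrm (r • y) = nrm y := by
  unfold nrm
  by_cases h : y = 0
  · simp [h]
  · have h1 : r • y ≠ 0 := smul_ne_zero hr.ne' h
    simp only [h1, h, if_false, norm_smul, Real.norm_eq_abs, abs_of_pos hr, smul_smul]
    congr 1
    have := norm_ne_zero_iff.2 h
    field_simp

/-- The radial projection to the product of the unit spheres. -/
noncomputable def prj (y : E3 × E3) : M := ⟨nrm y.1, nrm y.2, norm_nrm _, norm_nrm _⟩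

/-- Cone measure on the product of the unit spheres: the measure of a set is the Lebesgue measure of
the part of the cone over it in the product of the unit balls. -/
noncomputable def m0 : Measure M :=
  Measure.map prj (volume.restrict (Metric.ball (0 : E3) 1 ×ˢ Metric.ball (0 : E3) 1))

/-- The half of `M` in which the first vector lies in the closed upper half-space: the product of a
closed hemisphere and a sphere. -/
abbrev XX : Type := {p : M // 0 ≤ p.a 2}

end Pool.Agent.W553.RCD
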