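import Pool.Agent.W553.RCD.Geo

/-!
# Hopf-Lax potentials and the Wasserstein geodesic
-/

set_option maxHeartbeats 400000

open MeasureTheory Set Filter Topology
open scoped ENNReal NNReal

namespace Pool.Agent.W553.RCD

/-- The cost: half the sum of the squares of the angles, i.e. `(3/2) d²`. -/
noncomputable def cst (p q : M) : ℝ := ((ang p.a q.a) ^ 2 + (ang p.b q.b) ^ 2) / 2

theorem cst_eq (p q : M) : cst p q = 3 / 2 * dist p q ^ 2 := by
  have := M.dist_sq p q
  unfold cst
  linarith

attribute [irreducible] cst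

theorem cst_nonneg (p q : M) : 0 ≤ cst p q := by rw [cst_eq]; positivity

theorem cst_comm (p q : M) : cst p q = cst q p := by rw [cst_eq, cst_eq, dist_comm]

theorem continuous_cst : Continuous (fun p : M × M => cst p.1 p.2) := by
  have : (fun p : M × M => cst p.1 p.2) = fun p : M × M => 3 / 2 * dist p.1 p.2 ^ 2 := by
    ext p; exact cst_eq _ _
  rw [this]
  fun_prop

theorem continuous_cst_comp {α : Type*} [TopologicalSpace α] {f g : α → M} (hf : Continuous f)
    (hg : Continuous g) : Continuous (fun x => cst (f x) (g x)) :=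
  continuous_cst.comp (hf.prodMk hg)

theorem continuous_cst_XX : Continuous (fun p : XX × XX => cst p.1.1 p.2.1) :=
  continuous_cst_comp (f := fun p : XX × XX => p.1.1) (g := fun p : XX × XX => p.2.1)
    (continuous_subtype_val.comp continuous_fst) (continuous_subtype_val.comp continuous_snd)

theorem dist_le_three (p q : M) : dist p q ≤ 3 := by
  have h := M.dist_sq p q
  have h1 := ang_le_pi p.a q.a
  have h2 := ang_le_pi p.b q.b
  have h3 := ang_nonneg p.a q.a
  have h4 := ang_nonneg p.b q.b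
  have h5 := Real.pi_lt_d2
  have h6 := dist_nonneg (x := p) (y := q)
  nlinarith

theorem cst_lip (x z w : M) : cst x w ≤ cst x z + 9 * dist z w := by
  rw [cst_eq, cst_eq]
  have h1 := dist_triangle x z w
  have h2 := dist_le_three x z
  have h3 := dist_le_three x w
  have h4 := dist_nonneg (x := x) (y := z)
  have h5 := dist_nonneg (x := x) (y := w)
  have h6 := dist_nonneg (x := z) (y := w)
  nlinarith

instance : Nonempty XX := ⟨⟨⟨e0, e0, norm_e0, norm_e0⟩, by simp [e0]⟩⟩

/-- The Hopf-Lax transform on `M` of a function on `XX`. -/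
noncomputable def Uf (φ : XX → ℝ) (s : ℝ) (z : M) : ℝ := ⨅ x : XX, (cst x.1 z / s - φ x)

section
variable {φ : XX → ℝ} (hφ : Continuous φ) {s : ℝ} (hs : 0 < s)
include hφ

theorem Uf_exists (z : M) : ∃ x : XX, Uf φ s z = cst x.1 z / s - φ x := by
  have hc0 : Continuous (fun x : XX => cst x.1 z) :=
    continuous_cst_comp (f := fun x : XX => x.1) (g := fun _ => z) continuous_subtype_val
      continuous_const
  have hc : Continuous (fun x : XX => cst x.1 z / s - φ x) := (hc0.div_const s).sub hφ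
  obtain ⟨x, _, hx⟩ := isCompact_univ.exists_isMinOn univ_nonempty hc.continuousOn
  refine ⟨x, le_antisymm ?_ ?_⟩
  · refine ciInf_le ⟨cst x.1 z / s - φ x, ?_⟩ x
    rintro _ ⟨y, rfl⟩
    exact hx (mem_univ y)
  · exact le_ciInf fun y => hx (mem_univ y)

theorem Uf_le (z : M) (x : XX) : Uf φ s z ≤ cst x.1 z / s - φ x := by
  have hc0 : Continuous (fun x : XX => cst x.1 z) :=
    continuous_cst_comp (f := fun x : XX => x.1) (g := fun _ => z) continuous_subtype_val
      continuous_const
  have hc : Continuous (fun x : XX => cst x.1 z / s - φ x) := (hc0.div_const s).sub hφ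
  obtain ⟨x', _, hx⟩ := isCompact_univ.exists_isMinOn univ_nonempty hc.continuousOn
  refine ciInf_le ⟨cst x'.1 z / s - φ x', ?_⟩ x
  rintro _ ⟨y, rfl⟩
  exact hx (mem_univ y)

include hs in
theorem Uf_lip (z w : M) : Uf φ s w ≤ Uf φ s z + 9 / s * dist w z := by
  obtain ⟨x, hx⟩ := Uf_exists (s := s) hφ z
  have h1 := Uf_le (s := s) hφ w x
  have h2 := cst_lip x.1 z w
  rw [hx]
  have h3 : cst x.1 w / s ≤ (cst x.1 z + 9 * dist z w) / s := by gcongr
  rw [dist_comm w z]
  calc Uf φ s w ≤ cst x.1 w / s - φ x := h1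
    _ ≤ (cst x.1 z + 9 * dist z w) / s - φ x := by linarith
    _ = _ := by ring

include hs in
theorem Uf_continuous : Continuous (Uf φ s) := by
  have : LipschitzWith (Real.toNNReal (9 / s)) (Uf φ s) := by
    refine LipschitzWith.of_le_add_mul _ fun z w => ?_
    rw [Real.coe_toNNReal _ (by positivity)]
    exact Uf_lip hφ hs w z
  exact this.continuous

end

/-- The interpolated potential on `XX`; it is `-φ` at time `0`. -/
noncomputable def Af (φ : XX → ℝ) (s : ℝ) (z : XX) : ℝ := if s = 0 then -φ z else Uf φ s z.1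

theorem Af_continuous {φ : XX → ℝ} (hφ : Continuous φ) {s : ℝ} (hs : 0 ≤ s) :
    Continuous (Af φ s) := by
  unfold Af
  split_ifs with h
  · exact hφ.neg
  · exact (Uf_continuous hφ (lt_of_le_of_ne hs (Ne.symm h))).comp continuous_subtype_val

theorem Af_exists {φ : XX → ℝ} (hφ : Continuous φ) (s : ℝ) (z : XX) :
    ∃ x : XX, Af φ s z = cst x.1 z.1 / s - φ x ∧ (s = 0 → x = z) := by
  by_cases h : s = 0
  · exact ⟨z, by simp [Af, h], fun _ => rfl⟩
  · obtain ⟨x, hx⟩ := Uf_exists (s := s) hφ z.1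
    exact ⟨x, by simp [Af, h, hx], fun h' => absurd h' h⟩

theorem Af_le {φ : XX → ℝ} (hφ : Continuous φ) (s : ℝ) (x z : XX) (h0 : s = 0 → x = z) :
    Af φ s z ≤ cst x.1 z.1 / s - φ x := by
  by_cases h : s = 0
  · simp [Af, h, h0 h]
  · have := Uf_le (s := s) hφ z.1 x
    simpa [Af, h] using this

theorem three_term (a b c s r w : ℝ) (hs : 0 ≤ s) (hr : 0 < r) (hw : 0 ≤ w) (h1 : s + r + w = 1)
    (ha : s = 0 → a = 0) (hc : w = 0 → c = 0) :
    (a + b + c) ^ 2 ≤ a ^ 2 / s + b ^ 2 / r + c ^ 2 / w := by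
  have key : ∀ (p q : ℝ), 0 ≤ q → (q = 0 → p = 0) → ∀ l : ℝ, 2 * l * p - q * l ^ 2 ≤ p ^ 2 / q := by
    intro p q hq hp l
    rcases eq_or_lt_of_le hq with h | h
    · rw [hp h.symm, ← h]; simp
    · rw [le_div_iff₀ h]
      nlinarith [sq_nonneg (p - q * l)]
  have k1 := key a s hs ha (a + b + c)
  have k2 := key b r hr.le (fun h => absurd h hr.ne') (a + b + c)
  have k3 := key c w hw hc (a + b + c)
  have : (s + r + w) * (a + b + c) ^ 2 = (a + b + c) ^ 2 := by rw [h1, one_mul]
  nlinarith

theorem cst_three (x z w y : M) (s r u : ℝ) (hs : 0 ≤ s) (hr : 0 < r) (hu : 0 ≤ u)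
    (h1 : s + r + u = 1) (ha : s = 0 → x = z) (hc : u = 0 → w = y) :
    cst x y ≤ cst x z / s + cst z w / r + cst w y / u := by
  have h2 := three_term (dist x z) (dist z w) (dist w y) s r u hs hr hu h1
    (fun h => by rw [ha h, dist_self]) (fun h => by rw [hc h, dist_self])
  have h3 : dist x y ≤ dist x z + dist z w + dist w y := dist_triangle4 _ _ _ _
  have h4 : dist x y ^ 2 ≤ (dist x z + dist z w + dist w y) ^ 2 := by
    have := dist_nonneg (x := x) (y := y)
    gcongr
  rw [cst_eq, cst_eq, cst_eq, cst_eq]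
  have h5 : 3 / 2 * dist x z ^ 2 / s + 3 / 2 * dist z w ^ 2 / r + 3 / 2 * dist w y ^ 2 / u =
    3 / 2 * (dist x z ^ 2 / s + dist z w ^ 2 / r + dist w y ^ 2 / u) := by ring
  rw [h5]
  linarith

theorem cst_Geo {s t : ℝ} (hs : s ∈ Icc (0 : ℝ) 1) (ht : t ∈ Icc (0 : ℝ) 1) (x y : XX) :
    cst (Geo s x y).1 (Geo t x y).1 = (t - s) ^ 2 * cst x.1 y.1 := by
  rw [cst_eq, cst_eq]
  have := dist_Geo hs ht x y
  rw [Subtype.dist_eq, Subtype.dist_eq] at this
  rw [this, mul_pow, sq_abs]
  ring

section Dual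

variable (φ ψ : XX → ℝ) (hφ : Continuous φ) (hψ : Continuous ψ)
  (hφψ : ∀ x y : XX, φ x + ψ y ≤ cst x.1 y.1)
include hφ hψ hφψ

/-- Dual inequality between the times `s < t`. -/
theorem dual_ineq {s t : ℝ} (hs : 0 ≤ s) (hst : s < t) (ht : t ≤ 1) (z w : XX) :
    0 ≤ Af φ s z + cst z.1 w.1 / (t - s) + Af ψ (1 - t) w := by
  obtain ⟨x, hx, hx0⟩ := Af_exists hφ s z
  obtain ⟨y, hy, hy0⟩ := Af_exists hψ (1 - t) w
  have h := cst_three x.1 z.1 w.1 y.1 s (t - s) (1 - t) hs (by linarith) (by linarith) (by ring)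
    (fun h => by rw [hx0 h]) (fun h => by rw [hy0 h])
  rw [hx, hy, cst_comm y.1 w.1]
  have := hφψ x y
  linarith

/-- Equality along the geodesics. -/
theorem dual_eq {s t : ℝ} (hs : 0 ≤ s) (hst : s < t) (ht : t ≤ 1) (x y : XX)
    (h : φ x + ψ y = cst x.1 y.1) :
    Af φ s (Geo s x y) + cst (Geo s x y).1 (Geo t x y).1 / (t - s) +
      Af ψ (1 - t) (Geo t x y) = 0 := by
  refine le_antisymm ?_ (dual_ineq φ ψ hφ hψ hφψ hs hst ht _ _)
  have hsI : s ∈ Icc (0 : ℝ) 1 := ⟨hs, by linarith⟩
  have htI : t ∈ Icc (0 : ℝ) 1 := ⟨by linarith, ht⟩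
  have h1 := Af_le hφ s x (Geo s x y) (fun h0 => by rw [h0, Geo_zero])
  have h2 := Af_le hψ (1 - t) y (Geo t x y) (fun h0 => by
    have : t = 1 := by linarith
    rw [this, Geo_one])
  have h3 : cst x.1 (Geo s x y).1 = s ^ 2 * cst x.1 y.1 := by
    have := cst_Geo (s := 0) (t := s) (by simp) hsI x y
    rw [Geo_zero, sub_zero] at this
    exact this
  have h4 : cst y.1 (Geo t x y).1 = (1 - t) ^ 2 * cst x.1 y.1 := by
    have := cst_Geo (s := t) (t := 1) htI (by simp) x y
    rw [Geo_one, cst_comm] at this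
    exact this
  rw [h3] at h1
  rw [h4] at h2
  rw [cst_Geo hsI htI]
  have h5 : s ^ 2 * cst x.1 y.1 / s = s * cst x.1 y.1 := by
    rcases eq_or_lt_of_le hs with h0 | h0
    · rw [← h0]; simp
    · field_simp
  have h6 : (1 - t) ^ 2 * cst x.1 y.1 / (1 - t) = (1 - t) * cst x.1 y.1 := by
    rcases eq_or_lt_of_le (show (0 : ℝ) ≤ 1 - t by linarith) with h0 | h0
    · rw [← h0]; simp
    · field_simp
  have h7 : (t - s) ^ 2 * cst x.1 y.1 / (t - s) = (t - s) * cst x.1 y.1 := by
    have : t - s ≠ 0 := by linarith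
    field_simp
  rw [h5] at h1
  rw [h6] at h2
  rw [h7]
  nlinarith

end Dual

/-- A coupling on which a dual pair is attained is optimal. -/
theorem optimal_of_dual {μ ν : Measure XX} [IsProbabilityMeasure μ] [IsProbabilityMeasure ν]
    {q : Measure (XX × XX)} (hq : IsCoupling μ ν q) (f g : XX → ℝ) (hf : Continuous f)
    (hg : Continuous g) (hfg : ∀ z w : XX, f z + g w ≤ cst z.1 w.1)
    (he : ∀ᵐ p ∂q, f p.1 + g p.2 = cst p.1.1 p.2.1) : IsOptimal μ ν q := by
  have hprob : ∀ q' : Measure (XX × XX), IsCoupling μ ν q' → IsProbabilityMeasure q' := by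
    intro q' h
    have h1 : IsProbabilityMeasure (q'.map Prod.fst) := by rw [h.1]; infer_instance
    exact (Measure.isProbabilityMeasure_map_iff measurable_fst.aemeasurable).1 h1
  have hcc : Continuous (fun p : XX × XX => cst p.1.1 p.2.1) := continuous_cst_XX
  have hint : ∀ (q' : Measure (XX × XX)) [IsProbabilityMeasure q'] (h : XX × XX → ℝ),
      Continuous h → Integrable h q' := fun q' _ h hh => hh.integrable_of_hasCompactSupport
        (HasCompactSupport.of_compactSpace h)
  have hint' : ∀ (q' : Measure XX) [IsProbabilityMeasure q'] (h : XX → ℝ),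
      Continuous h → Integrable h q' := fun q' _ h hh => hh.integrable_of_hasCompactSupport
        (HasCompactSupport.of_compactSpace h)
  have hcost : ∀ q' : Measure (XX × XX), IsProbabilityMeasure q' →
      cost q' = ENNReal.ofReal (2 / 3 * ∫ p, cst p.1.1 p.2.1 ∂q') := by
    intro q' hq'
    have h1 : (fun p : XX × XX => edist p.1 p.2 ^ 2) =
        fun p : XX × XX => ENNReal.ofReal (2 / 3 * cst p.1.1 p.2.1) := by
      ext p
      rw [edist_dist, ← ENNReal.ofReal_pow dist_nonneg, cst_eq, ← Subtype.dist_eq]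
      congr 1
      ring
    rw [cost, h1, ← integral_const_mul, ofReal_integral_eq_lintegral_ofReal]
    · exact (hint q' _ hcc).const_mul _
    · exact Filter.Eventually.of_forall fun p => mul_nonneg (by norm_num) (cst_nonneg _ _)
  have hsum : ∀ q' : Measure (XX × XX), IsCoupling μ ν q' →
      ∫ p, (f p.1 + g p.2) ∂q' = ∫ x, f x ∂μ + ∫ x, g x ∂ν := by
    intro q' h
    have := hprob q' h
    have hf1 : Integrable (fun p : XX × XX => f p.1) q' := hint q' _ (hf.comp continuous_fst)
    have hg1 : Integrable (fun p : XX × XX => g p.2) q' := hint q' _ (hg.comp continuous_snd)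
    rw [integral_add hf1 hg1, ← h.1, ← h.2, integral_map measurable_fst.aemeasurable hf.aestronglyMeasurable,
      integral_map measurable_snd.aemeasurable hg.aestronglyMeasurable]
  refine ⟨hq, fun q' hq' => ?_⟩
  have h1 := hprob q hq
  have h2 := hprob q' hq'
  rw [hcost q h1, hcost q' h2]
  refine ENNReal.ofReal_le_ofReal ?_
  have h3 : ∫ p, cst p.1.1 p.2.1 ∂q = ∫ p, (f p.1 + g p.2) ∂q :=
    integral_congr_ae (he.mono fun p hp => hp.symm)
  have h4 : ∫ p, (f p.1 + g p.2) ∂q' ≤ ∫ p, cst p.1.1 p.2.1 ∂q' :=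
    integral_mono (hint q' _ ((hf.comp continuous_fst).add (hg.comp continuous_snd)))
      (hint q' _ hcc) (fun p => hfg _ _)
  rw [h3, hsum q hq, ← hsum q' hq']
  linarith

theorem W2_of_optimal {X : Type*} [MetricSpace X] [MeasurableSpace X] {μ ν : Measure X}
    {q : Measure (X × X)} (h : IsOptimal μ ν q) : W2 μ ν = cost q ^ (1 / 2 : ℝ) := by
  unfold W2
  congr 1
  refine le_antisymm (iInf₂_le q h.1) (le_iInf₂ fun q' hq' => h.2 q' hq')

theorem W2_comm {X : Type*} [MetricSpace X] [MeasurableSpace X] [BorelSpace X]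
    [SecondCountableTopology X] (μ ν : Measure X) : W2 μ ν = W2 ν μ := by
  have key : ∀ μ ν : Measure X, (⨅ (q : Measure (X × X)) (_ : IsCoupling μ ν q), cost q) ≤
      ⨅ (q : Measure (X × X)) (_ : IsCoupling ν μ q), cost q := by
    intro μ ν
    refine le_iInf₂ fun q hq => ?_
    refine iInf₂_le_of_le (q.map Prod.swap) ?_ ?_
    · constructor
      · rw [Measure.map_map measurable_fst measurable_swap]
        exact hq.2
      · rw [Measure.map_map measurable_snd measurable_swap]
        exact hq.1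
    · unfold cost
      rw [lintegral_map (by fun_prop) measurable_swap]
      simp only [Prod.fst_swap, Prod.snd_swap, edist_comm]
      exact le_rfl
  unfold W2
  rw [le_antisymm (key μ ν) (key ν μ)]

/-- The curve of measures `μ_t = (Geo t)_# q`. -/
noncomputable def curve (q : Measure (XX × XX)) (t : ℝ) : Measure XX :=
  q.map (fun p => Geo t p.1 p.2)

theorem curve_zero {μ ν : Measure XX} {q : Measure (XX × XX)} (hq : IsCoupling μ ν q) :
    curve q 0 = μ := by
  rw [← hq.1]; unfold curve; congr 1; ext p : 1; exact Geo_zero _ _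

theorem curve_one {μ ν : Measure XX} {q : Measure (XX × XX)} (hq : IsCoupling μ ν q) :
    curve q 1 = ν := by
  rw [← hq.2]; unfold curve; congr 1; ext p : 1; exact Geo_one _ _

theorem curve_prob {q : Measure (XX × XX)} [IsProbabilityMeasure q] (t : ℝ) :
    IsProbabilityMeasure (curve q t) :=
  Measure.isProbabilityMeasure_map (measurable_Geo t).aemeasurable

theorem curve_coupling (q : Measure (XX × XX)) (s t : ℝ) :
    IsCoupling (curve q s) (curve q t) (q.map fun p => (Geo s p.1 p.2, Geo t p.1 p.2)) := by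
  have h := (measurable_Geo s).prodMk (measurable_Geo t)
  constructor
  · rw [Measure.map_map measurable_fst h]; rfl
  · rw [Measure.map_map measurable_snd h]; rfl

theorem curve_cost (q : Measure (XX × XX)) {s t : ℝ} (hs : s ∈ Icc (0 : ℝ) 1)
    (ht : t ∈ Icc (0 : ℝ) 1) :
    cost (q.map fun p => (Geo s p.1 p.2, Geo t p.1 p.2)) =
      ENNReal.ofReal |t - s| ^ 2 * cost q := by
  have h := (measurable_Geo s).prodMk (measurable_Geo t)
  unfold cost
  rw [lintegral_map (by fun_prop) h, ← lintegral_const_mul _ (by fun_prop)]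
  refine lintegral_congr fun p => ?_
  simp only
  rw [edist_dist, dist_Geo hs ht, edist_dist, ENNReal.ofReal_mul (abs_nonneg _), mul_pow]

/-- The curve is a geodesic for `W₂`. -/
theorem curve_W2 {μ ν : Measure XX} [IsProbabilityMeasure μ] [IsProbabilityMeasure ν]
    {q : Measure (XX × XX)} (hq : IsCoupling μ ν q) (φ ψ : XX → ℝ) (hφ : Continuous φ)
    (hψ : Continuous ψ) (hφψ : ∀ x y : XX, φ x + ψ y ≤ cst x.1 y.1)
    (he : ∀ᵐ p ∂q, φ p.1 + ψ p.2 = cst p.1.1 p.2.1) :
    ∀ s ∈ Icc (0 : ℝ) 1, ∀ t ∈ Icc (0 : ℝ) 1,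
      W2 (curve q s) (curve q t) = ENNReal.ofReal |t - s| * W2 (curve q 0) (curve q 1) := by
  have hqp : IsProbabilityMeasure q := by
    have h1 : IsProbabilityMeasure (q.map Prod.fst) := by rw [hq.1]; infer_instance
    exact (Measure.isProbabilityMeasure_map_iff measurable_fst.aemeasurable).1 h1
  have hp : ∀ t, IsProbabilityMeasure (curve q t) := fun t => curve_prob t
  have h01 : W2 (curve q 0) (curve q 1) = cost q ^ (1 / 2 : ℝ) := by
    rw [curve_zero hq, curve_one hq]
    exact W2_of_optimal (optimal_of_dual hq φ ψ hφ hψ hφψ he)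
  have key : ∀ s ∈ Icc (0 : ℝ) 1, ∀ t ∈ Icc (0 : ℝ) 1, s < t →
      W2 (curve q s) (curve q t) = ENNReal.ofReal |t - s| * cost q ^ (1 / 2 : ℝ) := by
    intro s hs t ht hst
    have hopt : IsOptimal (curve q s) (curve q t)
        (q.map fun p => (Geo s p.1 p.2, Geo t p.1 p.2)) := by
      have h := (measurable_Geo s).prodMk (measurable_Geo t)
      have hsub : 0 < t - s := by linarith
      refine optimal_of_dual (curve_coupling q s t) (fun z => -((t - s) * Af φ s z))
        (fun w => -((t - s) * Af ψ (1 - t) w))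
        (continuous_const.mul (Af_continuous hφ hs.1)).neg
        (continuous_const.mul (Af_continuous hψ (by linarith [ht.2]))).neg ?_ ?_
      · intro z w
        have h1 := dual_ineq φ ψ hφ hψ hφψ hs.1 hst ht.2 z w
        have h2 : cst z.1 w.1 = (t - s) * (cst z.1 w.1 / (t - s)) := by field_simp
        rw [h2]
        nlinarith
      · rw [ae_map_iff h.aemeasurable]
        · filter_upwards [he] with p hp
          have h1 := dual_eq φ ψ hφ hψ hφψ hs.1 hst ht.2 p.1 p.2 hp
          have h2 : cst (Geo s p.1 p.2).1 (Geo t p.1 p.2).1 =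
            (t - s) * (cst (Geo s p.1 p.2).1 (Geo t p.1 p.2).1 / (t - s)) := by field_simp
          rw [h2]
          linear_combination (-(t - s)) * h1
        · refine measurableSet_eq_fun ?_ ?_
          · exact ((continuous_const.mul ((Af_continuous hφ hs.1).comp continuous_fst)).neg.add
              (continuous_const.mul ((Af_continuous hψ (by linarith [ht.2])).comp
                continuous_snd)).neg).measurable
          · exact continuous_cst_XX.measurable
    rw [W2_of_optimal hopt, curve_cost q hs ht, ENNReal.mul_rpow_of_nonneg _ _ (by norm_num),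
      ← ENNReal.rpow_natCast, ← ENNReal.rpow_mul]
    norm_num
  intro s hs t ht
  rw [h01]
  rcases lt_trichotomy s t with h | h | h
  · exact key s hs t ht h
  · subst h
    simp only [sub_self, abs_zero, ENNReal.ofReal_zero, zero_mul]
    have h1 : cost (q.map fun p => (Geo s p.1 p.2, Geo s p.1 p.2)) = 0 := by
      rw [curve_cost q hs hs]; simp
    unfold W2
    rw [ENNReal.rpow_eq_zero_iff_of_pos (by norm_num)]
    refine le_antisymm ?_ bot_le
    exact (iInf₂_le _ (curve_coupling q s s)).trans h1.le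
  · rw [W2_comm, key t ht s hs h, abs_sub_comm]

end Pool.Agent.W553.RCD
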