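import Pool.Agent.W553.RCD.W2
import Pool.Agent.W358.Hinge

/-!
# Structure of the set of intermediate points
-/

set_option maxHeartbeats 400000

open MeasureTheory Set Filter Topology
open scoped ENNReal NNReal

namespace Pool.Agent.W553.RCD

/-- Data of a point `z` that divides the geodesic from `x` to `y` in the ratio `t : 1 - t`, on the
unit sphere: `θ` is the length of the geodesic and `e` its direction at `z`. -/
def MidPt (t θ : ℝ) (x z y e : E3) : Prop :=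
  0 ≤ θ ∧ θ ≤ Real.pi ∧ θ = ang x y ∧ ‖e‖ = 1 ∧ inner ℝ z e = 0 ∧
    x = Real.cos (t * θ) • z - Real.sin (t * θ) • e ∧
    y = Real.cos ((1 - t) * θ) • z + Real.sin ((1 - t) * θ) • e

theorem midPt_exists {t : ℝ} (ht0 : 0 < t) (ht1 : t < 1) {x z y : E3} (hx : ‖x‖ = 1)
    (hz : ‖z‖ = 1) (hy : ‖y‖ = 1) (h1 : ang x z = t * ang x y) (h2 : ang z y = (1 - t) * ang x y) :
    ∃ e, MidPt t (ang x y) x z y e := by
  set θ := ang x y with hθ
  have hθ0 : 0 ≤ θ := ang_nonneg _ _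
  have hθ1 : θ ≤ Real.pi := ang_le_pi _ _
  have hx' := dir_spec hz hx
  have hy' := dir_spec hz hy
  rw [ang_comm z x, h1] at hx'
  rw [h2] at hy'
  set e' := dir z x
  set e'' := dir z y
  have he' : ‖e'‖ = 1 := norm_dir hz hx
  have he'' : ‖e''‖ = 1 := norm_dir hz hy
  have hi' : inner ℝ z e' = 0 := inner_dir hz hx
  have hi'' : inner ℝ z e'' = 0 := inner_dir hz hy
  rcases eq_or_lt_of_le hθ0 with h0 | h0
  · refine ⟨-e', hθ0, hθ1, rfl, by rw [norm_neg, he'], by rw [inner_neg_right, hi', neg_zero], ?_, ?_⟩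
    · rw [← h0] at hx' ⊢
      simpa using hx'
    · rw [← h0] at hy' ⊢
      simpa using hy'
  · have hs1 : 0 < Real.sin (t * θ) :=
      Real.sin_pos_of_pos_of_lt_pi (by positivity) (by nlinarith)
    have hs2 : 0 < Real.sin ((1 - t) * θ) :=
      Real.sin_pos_of_pos_of_lt_pi (mul_pos (by linarith) h0) (by nlinarith)
    have h3 : inner ℝ x y = Real.cos θ := (cos_ang hx hy).symm
    have h4 : inner ℝ x y = Real.cos (t * θ) * Real.cos ((1 - t) * θ) +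
        Real.sin (t * θ) * Real.sin ((1 - t) * θ) * inner ℝ e' e'' := by
      conv_lhs => rw [hx', hy']
      rw [inner_add_left, inner_add_right, inner_add_right, inner_smul_left, inner_smul_left,
        inner_smul_left, inner_smul_left, inner_smul_right, inner_smul_right, inner_smul_right,
        inner_smul_right, hi'', real_inner_comm z e', hi', real_inner_self_eq_norm_sq, hz]
      simp only [conj_trivial]
      ring
    have h5 : Real.cos θ = Real.cos (t * θ) * Real.cos ((1 - t) * θ) -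
        Real.sin (t * θ) * Real.sin ((1 - t) * θ) := by
      rw [← Real.cos_add]; congr 1; ring
    have h6 : inner ℝ e' e'' = -1 := by
      have h7 : Real.sin (t * θ) * Real.sin ((1 - t) * θ) * (inner ℝ e' e'' + 1) = 0 := by
        rw [h3, h5] at h4; linarith
      rcases mul_eq_zero.1 h7 with h8 | h8
      · exact absurd h8 (mul_pos hs1 hs2).ne'
      · linarith
    have h7 : e'' = -e' := by
      have : ‖e'' + e'‖ ^ 2 = 0 := by
        rw [norm_add_sq_real, he', he'', real_inner_comm, h6]; norm_num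
      exact eq_neg_of_add_eq_zero_left (norm_eq_zero.1 (pow_eq_zero_iff two_ne_zero |>.1 this))
    refine ⟨-e', hθ0, hθ1, rfl, by rw [norm_neg, he'], by rw [inner_neg_right, hi', neg_zero], ?_, ?_⟩
    · rw [smul_neg, sub_neg_eq_add]; exact hx'
    · rw [← h7]; exact hy'

/-- The equality case of the elementary inequality behind the geodesics of a product. -/
theorem equality_case {t : ℝ} (ht0 : 0 < t) (ht1 : t < 1) {θ₁ θ₂ α₁ α₂ β₁ β₂ : ℝ}
    (hθ₁ : 0 ≤ θ₁) (hθ₂ : 0 ≤ θ₂) (hα₁ : 0 ≤ α₁) (hα₂ : 0 ≤ α₂) (hβ₁ : 0 ≤ β₁) (hβ₂ : 0 ≤ β₂)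
    (h1 : θ₁ ≤ α₁ + β₁) (h2 : θ₂ ≤ α₂ + β₂)
    (h : (α₁ ^ 2 + α₂ ^ 2) / t + (β₁ ^ 2 + β₂ ^ 2) / (1 - t) ≤ θ₁ ^ 2 + θ₂ ^ 2) :
    α₁ = t * θ₁ ∧ β₁ = (1 - t) * θ₁ ∧ α₂ = t * θ₂ ∧ β₂ = (1 - t) * θ₂ := by
  have hu : 0 < 1 - t := by linarith
  have key : (α₁ ^ 2 + α₂ ^ 2) / t + (β₁ ^ 2 + β₂ ^ 2) / (1 - t) =
      (α₁ + β₁) ^ 2 + (α₂ + β₂) ^ 2 +
      (((1 - t) * α₁ - t * β₁) ^ 2 + ((1 - t) * α₂ - t * β₂) ^ 2) / (t * (1 - t)) := by
    field_simp
    ring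
  rw [key] at h
  have h3 : θ₁ ^ 2 ≤ (α₁ + β₁) ^ 2 := by gcongr
  have h4 : θ₂ ^ 2 ≤ (α₂ + β₂) ^ 2 := by gcongr
  have hpos : 0 < t * (1 - t) := mul_pos ht0 hu
  have h5 : (((1 - t) * α₁ - t * β₁) ^ 2 + ((1 - t) * α₂ - t * β₂) ^ 2) / (t * (1 - t)) ≤ 0 := by
    linarith
  have h5' : 0 ≤ (((1 - t) * α₁ - t * β₁) ^ 2 + ((1 - t) * α₂ - t * β₂) ^ 2) / (t * (1 - t)) := by
    positivity
  have h6 : ((1 - t) * α₁ - t * β₁) ^ 2 + ((1 - t) * α₂ - t * β₂) ^ 2 ≤ 0 := by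
    have := (div_le_iff₀ hpos).1 h5
    linarith
  have h7 : (1 - t) * α₁ - t * β₁ = 0 := by nlinarith [sq_nonneg ((1 - t) * α₁ - t * β₁), sq_nonneg ((1 - t) * α₂ - t * β₂)]
  have h8 : (1 - t) * α₂ - t * β₂ = 0 := by nlinarith [sq_nonneg ((1 - t) * α₁ - t * β₁), sq_nonneg ((1 - t) * α₂ - t * β₂)]
  have h9 : θ₁ = α₁ + β₁ := by
    have : θ₁ ^ 2 = (α₁ + β₁) ^ 2 := by linarith
    exact (sq_eq_sq₀ hθ₁ (by positivity)).1 this
  have h10 : θ₂ = α₂ + β₂ := by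
    have : θ₂ ^ 2 = (α₂ + β₂) ^ 2 := by linarith
    exact (sq_eq_sq₀ hθ₂ (by positivity)).1 this
  refine ⟨?_, ?_, ?_, ?_⟩
  · rw [h9]; linarith
  · rw [h9]; linarith
  · rw [h10]; linarith
  · rw [h10]; linarith

/-- First order upper bound for half the squared distance on the sphere. -/
theorem hinge_factor {z w e : E3} {α : ℝ} (hz : ‖z‖ = 1) (hw : ‖w‖ = 1) (he : ‖e‖ = 1)
    (hi : inner ℝ z e = 0) (hα0 : 0 ≤ α) (hα1 : α ≤ Real.pi) :
    (ang (Real.cos α • z - Real.sin α • e) w) ^ 2 / 2 ≤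
      α ^ 2 / 2 + α * inner ℝ e (w - z) + 6 * ‖w - z‖ ^ 2 := by
  set η := ang z w with hη
  set h := dir z w with hh
  have hη0 : 0 ≤ η := ang_nonneg _ _
  have hη1 : η ≤ Real.pi := ang_le_pi _ _
  have hw' : w = Real.cos η • z + Real.sin η • h := dir_spec hz hw
  have hn : ‖h‖ = 1 := norm_dir hz hw
  have hzh : inner ℝ z h = 0 := inner_dir hz hw
  have k8 := W358.Hinge.K8 z (-e) h α η hz (by rw [norm_neg, he]) (by rw [inner_neg_right, hi, neg_zero])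
    hn hzh hα0 hα1 hη0 hη1
  rw [← hw', smul_neg, ← sub_eq_add_neg, inner_neg_left] at k8
  have h1 : inner ℝ e (w - z) = Real.sin η * inner ℝ e h := by
    rw [inner_sub_right]
    conv_lhs => rw [hw']
    rw [inner_add_right, inner_smul_right, inner_smul_right, real_inner_comm z e, hi]
    ring
  have h2 : |inner ℝ e h| ≤ 1 := by
    have := abs_real_inner_le_norm e h
    rwa [he, hn, mul_one] at this
  have h3 : η - Real.sin η ≤ η ^ 2 / 2 := by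
    rcases le_total η 3 with h4 | h4
    · have h5 : η - η ^ 3 / 6 ≤ Real.sin η := by
        rcases eq_or_lt_of_le hη0 with h6 | h6
        · rw [← h6]; simp
        · exact (Real.sin_gt_sub_cube h6).le
      nlinarith [mul_nonneg (sq_nonneg η) (show (0 : ℝ) ≤ 3 - η by linarith)]
    · have h5 : 0 ≤ Real.sin η := Real.sin_nonneg_of_nonneg_of_le_pi hη0 hη1
      have h6 := Real.pi_lt_d2
      nlinarith
  have h3' : 0 ≤ η - Real.sin η := sub_nonneg.2 (Real.sin_le hη0)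
  have h4 : η ≤ 1.6 * ‖w - z‖ := by
    have h5 := ang_le_norm_sub hz hw
    rw [norm_sub_rev z w] at h5
    refine h5.trans ?_
    have := Real.pi_lt_d2
    gcongr
    linarith
  have h5 : η ^ 2 ≤ 2.56 * ‖w - z‖ ^ 2 := by
    have : η ^ 2 ≤ (1.6 * ‖w - z‖) ^ 2 := by gcongr
    linarith [this, (by ring : (1.6 * ‖w - z‖) ^ 2 = 2.56 * ‖w - z‖ ^ 2)]
  have h6 : α * (η - Real.sin η) * inner ℝ e h ≤ 3.15 * (η ^ 2 / 2) := by
    have h7 : α * (η - Real.sin η) * inner ℝ e h ≤ α * (η - Real.sin η) * 1 := by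
      have := (abs_le.1 h2).2
      gcongr
    have h8 : α * (η - Real.sin η) ≤ 3.15 * (η ^ 2 / 2) := by
      have := Real.pi_lt_d2
      gcongr
      linarith
    linarith
  rw [h1]
  nlinarith [sq_nonneg η]

/-- The pairing of `E3 × E3` with itself. -/
noncomputable def ip (v h : E3 × E3) : ℝ := inner ℝ v.1 h.1 + inner ℝ v.2 h.2

/-- The set of intermediate points. -/
def Zs (φ ψ : XX → ℝ) (t : ℝ) : Set M := {z | Uf φ t z + Uf ψ (1 - t) z = 0}

/-- The data at an intermediate point: velocity `v`, endpoints `x`, `y`. -/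
def Data (φ ψ : XX → ℝ) (t : ℝ) (z : M) (v : E3 × E3) (x y : XX) : Prop :=
  ∃ (θ₁ θ₂ : ℝ) (e₁ e₂ : E3), MidPt t θ₁ x.1.a z.a y.1.a e₁ ∧ MidPt t θ₂ x.1.b z.b y.1.b e₂ ∧
    v = (θ₁ • e₁, θ₂ • e₂) ∧ Uf φ t z = cst x.1 z / t - φ x ∧
    Uf ψ (1 - t) z = cst y.1 z / (1 - t) - ψ y ∧ Uf φ t z + Uf ψ (1 - t) z = 0

section
variable {φ ψ : XX → ℝ} (hφ : Continuous φ) (hψ : Continuous ψ)
  (hφψ : ∀ x y : XX, φ x + ψ y ≤ cst x.1 y.1) {t : ℝ} (ht0 : 0 < t) (ht1 : t < 1)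

include hφ hψ ht0 ht1 in
theorem Zs_closed : IsClosed (Zs φ ψ t) :=
  isClosed_eq ((Uf_continuous hφ ht0).add (Uf_continuous hψ (by linarith))) continuous_const

include hφ hψ hφψ ht0 ht1 in
theorem UV_nonneg (z : M) : 0 ≤ Uf φ t z + Uf ψ (1 - t) z := by
  obtain ⟨x, hx⟩ := Uf_exists (s := t) hφ z
  obtain ⟨y, hy⟩ := Uf_exists (s := 1 - t) hψ z
  have h := cst_three x.1 z y.1 y.1 t (1 - t) 0 ht0.le (by linarith) le_rfl (by ring)
    (fun h => absurd h ht0.ne') (fun _ => rfl)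
  rw [div_zero, add_zero, cst_comm z y.1] at h
  rw [hx, hy]
  have := hφψ x y
  linarith

include hφ hψ hφψ ht0 ht1 in
theorem Data_exists {z : M} (hz : z ∈ Zs φ ψ t) : ∃ v x y, Data φ ψ t z v x y := by
  obtain ⟨x, hx⟩ := Uf_exists (s := t) hφ z
  obtain ⟨y, hy⟩ := Uf_exists (s := 1 - t) hψ z
  have hz' : Uf φ t z + Uf ψ (1 - t) z = 0 := hz
  have h1 := hφψ x y
  have h2 : cst x.1 z / t + cst y.1 z / (1 - t) ≤ cst x.1 y.1 := by
    rw [hx, hy] at hz'; linarith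
  have hu : 0 < 1 - t := by linarith
  have h3 : (ang x.1.a z.a ^ 2 + ang x.1.b z.b ^ 2) / t +
      (ang z.a y.1.a ^ 2 + ang z.b y.1.b ^ 2) / (1 - t) ≤
      ang x.1.a y.1.a ^ 2 + ang x.1.b y.1.b ^ 2 := by
    rw [cst_comm y.1 z, cst, cst, cst] at h2
    have e1 : (ang x.1.a z.a ^ 2 + ang x.1.b z.b ^ 2) / 2 / t =
      (ang x.1.a z.a ^ 2 + ang x.1.b z.b ^ 2) / t / 2 := by ring
    have e2 : (ang z.a y.1.a ^ 2 + ang z.b y.1.b ^ 2) / 2 / (1 - t) =
      (ang z.a y.1.a ^ 2 + ang z.b y.1.b ^ 2) / (1 - t) / 2 := by ring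
    rw [e1, e2] at h2
    linarith
  obtain ⟨a1, a2, a3, a4⟩ := equality_case ht0 ht1 (ang_nonneg _ _) (ang_nonneg _ _)
    (ang_nonneg _ _) (ang_nonneg _ _) (ang_nonneg _ _) (ang_nonneg _ _)
    (ang_triangle x.1.a z.a y.1.a) (ang_triangle x.1.b z.b y.1.b) h3
  obtain ⟨e₁, he₁⟩ := midPt_exists ht0 ht1 x.1.ha z.ha y.1.ha a1 a2
  obtain ⟨e₂, he₂⟩ := midPt_exists ht0 ht1 x.1.hb z.hb y.1.hb a3 a4
  exact ⟨_, x, y, _, _, e₁, e₂, he₁, he₂, rfl, hx, hy, hz⟩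

include hφ hψ hφψ ht0 ht1 in
/-- The intermediate point of a pair in the contact set is in `Zs`, with the expected data. -/
theorem Data_Geo {x y : XX} (h : φ x + ψ y = cst x.1 y.1) :
    ∃ v, Data φ ψ t (Geo t x y).1 v x y := by
  have htI : t ∈ Icc (0 : ℝ) 1 := ⟨ht0.le, ht1.le⟩
  have h0I : (0 : ℝ) ∈ Icc (0 : ℝ) 1 := by simp
  have h1I : (1 : ℝ) ∈ Icc (0 : ℝ) 1 := by simp
  set z := (Geo t x y).1 with hz
  have hu : 0 < 1 - t := by linarith
  have c1 : cst x.1 z = t ^ 2 * cst x.1 y.1 := by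
    have := cst_Geo h0I htI x y
    rwa [Geo_zero, sub_zero] at this
  have c2 : cst y.1 z = (1 - t) ^ 2 * cst x.1 y.1 := by
    have := cst_Geo htI h1I x y
    rwa [Geo_one, cst_comm] at this
  have u1 := Uf_le (s := t) hφ z x
  have u2 := Uf_le (s := 1 - t) hψ z y
  have u3 := UV_nonneg hφ hψ hφψ ht0 ht1 z
  have e1 : cst x.1 z / t = t * cst x.1 y.1 := by rw [c1]; field_simp
  have e2 : cst y.1 z / (1 - t) = (1 - t) * cst x.1 y.1 := by rw [c2]; field_simp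
  have g1 : ang x.1.a z.a = t * ang x.1.a y.1.a := by
    have := ang_pth x.1.ha y.1.ha h0I htI
    rwa [pth_zero, sub_zero, abs_of_pos ht0, ← Geo_a htI x y] at this
  have g2 : ang z.a y.1.a = (1 - t) * ang x.1.a y.1.a := by
    have := ang_pth x.1.ha y.1.ha htI h1I
    rwa [pth_one x.1.ha y.1.ha, abs_of_pos hu, ← Geo_a htI x y] at this
  have g3 : ang x.1.b z.b = t * ang x.1.b y.1.b := by
    have := ang_pth x.1.hb y.1.hb h0I htI
    rwa [pth_zero, sub_zero, abs_of_pos ht0, ← Geo_b htI x y] at this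
  have g4 : ang z.b y.1.b = (1 - t) * ang x.1.b y.1.b := by
    have := ang_pth x.1.hb y.1.hb htI h1I
    rwa [pth_one x.1.hb y.1.hb, abs_of_pos hu, ← Geo_b htI x y] at this
  obtain ⟨e₁, he₁⟩ := midPt_exists ht0 ht1 x.1.ha z.ha y.1.ha g1 g2
  obtain ⟨e₂, he₂⟩ := midPt_exists ht0 ht1 x.1.hb z.hb y.1.hb g3 g4
  rw [e1] at u1
  rw [e2] at u2
  refine ⟨_, _, _, e₁, e₂, he₁, he₂, rfl, ?_, ?_, ?_⟩
  · rw [e1]; linarith
  · rw [e2]; linarith
  · linarith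

include hφ in
theorem upper_t (ht0 : 0 < t) (ht1 : t < 1) {z : M} {v : E3 × E3} {x y : XX}
    (h : Data φ ψ t z v x y) (w : M) :
    Uf φ t w ≤ Uf φ t z + ip v (w.toProd - z.toProd) + 12 / t * ‖w.toProd - z.toProd‖ ^ 2 := by
  obtain ⟨θ₁, θ₂, e₁, e₂, ⟨p1, p2, p3, p4, p5, p6, p7⟩, ⟨q1, q2, q3, q4, q5, q6, q7⟩, rfl, hU, -, -⟩ := h
  have f1 := hinge_factor (α := t * θ₁) z.ha w.ha p4 p5 (by positivity) (by nlinarith)
  have f2 := hinge_factor (α := t * θ₂) z.hb w.hb q4 q5 (by positivity) (by nlinarith)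
  rw [← p6] at f1
  rw [← q6] at f2
  have g1 : ang x.1.a z.a = t * θ₁ := by
    have h0 := ang_circle z.ha (e := -e₁) (by rw [norm_neg, p4]) (by rw [inner_neg_right, p5, neg_zero])
      (α := t * θ₁) (β := 0) (by
        rw [zero_sub, abs_neg, abs_of_nonneg (by positivity)]; nlinarith)
    rw [smul_neg, ← sub_eq_add_neg, ← p6] at h0
    simpa [abs_of_nonneg (mul_nonneg ht0.le p1)] using h0
  have g2 : ang x.1.b z.b = t * θ₂ := by
    have h0 := ang_circle z.hb (e := -e₂) (by rw [norm_neg, q4]) (by rw [inner_neg_right, q5, neg_zero])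
      (α := t * θ₂) (β := 0) (by
        rw [zero_sub, abs_neg, abs_of_nonneg (by positivity)]; nlinarith)
    rw [smul_neg, ← sub_eq_add_neg, ← q6] at h0
    simpa [abs_of_nonneg (mul_nonneg ht0.le q1)] using h0
  have n1 : ‖w.a - z.a‖ ^ 2 ≤ ‖w.toProd - z.toProd‖ ^ 2 := by
    have : ‖w.a - z.a‖ ≤ ‖w.toProd - z.toProd‖ := norm_fst_le (w.toProd - z.toProd)
    gcongr
  have n2 : ‖w.b - z.b‖ ^ 2 ≤ ‖w.toProd - z.toProd‖ ^ 2 := by
    have : ‖w.b - z.b‖ ≤ ‖w.toProd - z.toProd‖ := norm_snd_le (w.toProd - z.toProd)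
    gcongr
  have key : cst x.1 w ≤ cst x.1 z + t * ip (θ₁ • e₁, θ₂ • e₂) (w.toProd - z.toProd) +
      12 * ‖w.toProd - z.toProd‖ ^ 2 := by
    rw [cst, cst, g1, g2, ip]
    simp only [M.toProd, Prod.fst_sub, Prod.snd_sub, inner_smul_left, conj_trivial]
    simp only [M.toProd] at n1 n2
    linarith
  have h1 := Uf_le (s := t) hφ w x
  rw [hU]
  calc Uf φ t w ≤ cst x.1 w / t - φ x := h1
    _ ≤ (cst x.1 z + t * ip (θ₁ • e₁, θ₂ • e₂) (w.toProd - z.toProd) +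
        12 * ‖w.toProd - z.toProd‖ ^ 2) / t - φ x := by gcongr
    _ = _ := by field_simp; ring

include hψ in
theorem upper_1t (ht0 : 0 < t) (ht1 : t < 1) {z : M} {v : E3 × E3} {x y : XX}
    (h : Data φ ψ t z v x y) (w : M) :
    Uf ψ (1 - t) w ≤ Uf ψ (1 - t) z - ip v (w.toProd - z.toProd) +
      12 / (1 - t) * ‖w.toProd - z.toProd‖ ^ 2 := by
  obtain ⟨θ₁, θ₂, e₁, e₂, ⟨p1, p2, p3, p4, p5, p6, p7⟩, ⟨q1, q2, q3, q4, q5, q6, q7⟩, rfl, -, hV, -⟩ := h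
  have hu : 0 < 1 - t := by linarith
  have f1 := hinge_factor (α := (1 - t) * θ₁) (e := -e₁) z.ha w.ha (by rw [norm_neg, p4])
    (by rw [inner_neg_right, p5, neg_zero]) (by positivity) (by nlinarith)
  have f2 := hinge_factor (α := (1 - t) * θ₂) (e := -e₂) z.hb w.hb (by rw [norm_neg, q4])
    (by rw [inner_neg_right, q5, neg_zero]) (by positivity) (by nlinarith)
  rw [smul_neg, sub_neg_eq_add, ← p7, inner_neg_left] at f1
  rw [smul_neg, sub_neg_eq_add, ← q7, inner_neg_left] at f2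
  have g1 : ang y.1.a z.a = (1 - t) * θ₁ := by
    have h0 := ang_circle z.ha p4 p5
      (α := (1 - t) * θ₁) (β := 0) (by
        rw [zero_sub, abs_neg, abs_of_nonneg (by positivity)]; nlinarith)
    rw [← p7] at h0
    simpa [abs_of_nonneg (mul_nonneg hu.le p1)] using h0
  have g2 : ang y.1.b z.b = (1 - t) * θ₂ := by
    have h0 := ang_circle z.hb q4 q5
      (α := (1 - t) * θ₂) (β := 0) (by
        rw [zero_sub, abs_neg, abs_of_nonneg (by positivity)]; nlinarith)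
    rw [← q7] at h0
    simpa [abs_of_nonneg (mul_nonneg hu.le q1)] using h0
  have n1 : ‖w.a - z.a‖ ^ 2 ≤ ‖w.toProd - z.toProd‖ ^ 2 := by
    have : ‖w.a - z.a‖ ≤ ‖w.toProd - z.toProd‖ := norm_fst_le (w.toProd - z.toProd)
    gcongr
  have n2 : ‖w.b - z.b‖ ^ 2 ≤ ‖w.toProd - z.toProd‖ ^ 2 := by
    have : ‖w.b - z.b‖ ≤ ‖w.toProd - z.toProd‖ := norm_snd_le (w.toProd - z.toProd)
    gcongr
  have key : cst y.1 w ≤ cst y.1 z - (1 - t) * ip (θ₁ • e₁, θ₂ • e₂) (w.toProd - z.toProd) +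
      12 * ‖w.toProd - z.toProd‖ ^ 2 := by
    rw [cst, cst, g1, g2, ip]
    simp only [M.toProd, Prod.fst_sub, Prod.snd_sub, inner_smul_left, conj_trivial]
    simp only [M.toProd] at n1 n2
    linarith
  have h1 := Uf_le (s := 1 - t) hψ w y
  rw [hV]
  calc Uf ψ (1 - t) w ≤ cst y.1 w / (1 - t) - ψ y := h1
    _ ≤ (cst y.1 z - (1 - t) * ip (θ₁ • e₁, θ₂ • e₂) (w.toProd - z.toProd) +
        12 * ‖w.toProd - z.toProd‖ ^ 2) / (1 - t) - ψ y := by gcongr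
    _ = _ := by field_simp; ring

include hφ hψ hφψ ht0 ht1 in
theorem two_sided {z : M} {v : E3 × E3} {x y : XX} (h : Data φ ψ t z v x y) (w : M) :
    |Uf φ t w - Uf φ t z - ip v (w.toProd - z.toProd)| ≤
      (12 / t + 12 / (1 - t)) * ‖w.toProd - z.toProd‖ ^ 2 := by
  have h1 := upper_t hφ ht0 ht1 h w
  have h2 := upper_1t hψ ht0 ht1 h w
  have h3 := UV_nonneg hφ hψ hφψ ht0 ht1 w
  have h4 : Uf φ t z + Uf ψ (1 - t) z = 0 := by
    obtain ⟨θ₁, θ₂, e₁, e₂, -, -, -, -, -, h⟩ := h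
    exact h
  have hu : 0 < 1 - t := by linarith
  have h5 : 0 ≤ 12 / t * ‖w.toProd - z.toProd‖ ^ 2 := by positivity
  have h6 : 0 ≤ 12 / (1 - t) * ‖w.toProd - z.toProd‖ ^ 2 := by positivity
  rw [abs_le, add_mul]
  constructor <;> linarith

end

end Pool.Agent.W553.RCD
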